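import Mathlib

/-!
# Elements with the maximal number of distinct eigenvalues: definitions
-/

set_option autoImplicit false

namespace Pool.Agent.H40ZL

open Matrix

/-! ## definitions -/

/-- the number of distinct eigenvalues in the algebraically closed field `G` -/
noncomputable def nd {k : Type*} [Field k] (G : Type*) [Field G] [Algebra k G] {n : Type*} [Fintype n] [DecidableEq n]
    (N : Matrix n n k) : ℕ := by
  classical exact (N.charpoly.map (algebraMap k G)).roots.toFinset.card

/-- the Hankel polynomial: the determinant of the matrix with the rows `tr N^(i+j)`, `i < m`, and the last row `T^j` -/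
noncomputable def hank {R : Type*} [CommRing R] {n : Type*} [Fintype n] [DecidableEq n] (m : ℕ) (N : Matrix n n R) :
    Polynomial R :=
  Matrix.det (Matrix.of fun i j : Fin (m + 1) =>
    if (i : ℕ) < m then Polynomial.C (Matrix.trace (N ^ ((i : ℕ) + (j : ℕ)))) else Polynomial.X ^ (j : ℕ))

section Tangent

variable {k : Type*} [Field k] {n : Type*} [Fintype n] [DecidableEq n]

/-- the derivation of the polynomial ring in the entries of a matrix `M` with `D M = M X` -/
noncomputable def genD (X : Matrix n n k) : Derivation k (MvPolynomial (n × n) k) (MvPolynomial (n × n) k) :=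
  MvPolynomial.mkDerivation k fun q => ∑ l, MvPolynomial.X (q.1, l) * MvPolynomial.C (X l q.2)

/-- the value of a polynomial at a matrix -/
noncomputable def evm (x : Matrix n n k) : MvPolynomial (n × n) k →ₐ[k] k := MvPolynomial.aeval fun q => x q.1 q.2

/-- `X` is tangent to the Zariski closure of the set `S` of matrices: the derivation maps polynomials vanishing on `S`
to polynomials vanishing on `S` -/
def IsTangent (S : Set (Matrix n n k)) (X : Matrix n n k) : Prop :=
  ∀ P : MvPolynomial (n × n) k, (∀ x ∈ S, evm x P = 0) → ∀ x ∈ S, evm x (genD X P) = 0

end Tangent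

/-- A subspace of `k^n` is stable under a set of matrices. -/
def Stable {k : Type*} [Field k] {n : Type*} [Fintype n] (A : Set (Matrix n n k)) (U : Submodule k (n → k)) : Prop :=
  ∀ x ∈ A, ∀ v ∈ U, x *ᵥ v ∈ U

/-- The set of matrices acts semisimply: every stable subspace has a stable complement. -/
def SSimple {k : Type*} [Field k] {n : Type*} [Fintype n] (A : Set (Matrix n n k)) : Prop :=
  ∀ U : Submodule k (n → k), Stable A U → ∃ U' : Submodule k (n → k), Stable A U' ∧ IsCompl U U'

end Pool.Agent.H40ZL
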