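import Mathlib
import Pool.Agent.H40ZL.Defs

/-!
# Stub C: a nilpotent element orthogonal to the Lie algebra is zero
-/

set_option autoImplicit false

namespace Pool.Agent.H40ZL

open LieAlgebra LieModule Module

attribute [local instance 100] LieRing.ofAssociativeRing

section Core

variable {K V : Type*} [Field K] [AddCommGroup V] [Module K V]

theorem C_exists_killed [FiniteDimensional K V] (𝔤 : Type*) [LieRing 𝔤] [LieAlgebra K 𝔤] [LieRingModule 𝔤 V]
    [LieModule K 𝔤 V] [LieModule.IsNilpotent 𝔤 V] (C : Submodule K V) (hC : C ≠ ⊥)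
    (hst : ∀ (x : 𝔤), ∀ v ∈ C, ⁅x, v⁆ ∈ C) : ∃ v ∈ C, v ≠ 0 ∧ ∀ x : 𝔤, ⁅x, v⁆ = 0 := by
  let C' : LieSubmodule K 𝔤 V := { C with lie_mem := fun {x v} hv => hst x v hv }
  have h3 : LieModule.IsNilpotent 𝔤 C' :=
    Function.Injective.lieModuleIsNilpotent (R := K) (f := (LieHom.id : 𝔤 →ₗ⁅K⁆ 𝔤))
      (g := ((C'.incl : C' →ₗ⁅K,𝔤⁆ V) : C' →ₗ[K] V)) (fun x m => rfl) (fun x y h => Subtype.ext h)
  have h2 : Nontrivial C' := by
    obtain ⟨v, hv, hv0⟩ := Submodule.exists_mem_ne_zero_of_ne_bot hC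
    exact ⟨⟨v, hv⟩, 0, fun h => hv0 (congrArg Subtype.val h)⟩
  have h4 := LieModule.nontrivial_max_triv_of_isNilpotent K 𝔤 C'
  obtain ⟨⟨v, hv⟩, hv0⟩ := exists_ne (0 : maxTrivSubmodule K 𝔤 C')
  refine ⟨(v : V), v.2, ?_, ?_⟩
  · intro h
    exact hv0 (Subtype.ext (Subtype.ext h))
  · intro X
    have h5 := (mem_maxTrivSubmodule K 𝔤 C' v).mp hv X
    exact congrArg Subtype.val h5

theorem C_span_stable (A : Set (Module.End K V)) (C : Submodule K V) (hC : ∀ x ∈ A, ∀ v ∈ C, x v ∈ C)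
    (X : Module.End K V) (hX : X ∈ Submodule.span K A) (v : V) (hv : v ∈ C) : X v ∈ C := by
  induction hX using Submodule.span_induction with
  | mem x hx => exact hC x hx v hv
  | zero => simp
  | add x y _ _ hx hy => exact add_mem hx hy
  | smul a x _ hx => exact C.smul_mem a hx

theorem C_kill [FiniteDimensional K V] (A : Set (Module.End K V))
    (hA : ∀ U : Submodule K V, (∀ x ∈ A, ∀ v ∈ U, x v ∈ U) →
      ∃ U' : Submodule K V, (∀ x ∈ A, ∀ v ∈ U', x v ∈ U') ∧ IsCompl U U')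
    (hinv : ∀ p ∈ A, ∃ q ∈ A, p * q = 1) (N : Set (Module.End K V))
    (hN : ∀ p ∈ A, ∀ q ∈ A, p * q = 1 → ∀ X ∈ N, p * X * q ∈ N)
    (hk : ∀ C : Submodule K V, (∀ x ∈ A, ∀ v ∈ C, x v ∈ C) → C ≠ ⊥ → ∃ v ∈ C, v ≠ 0 ∧ ∀ X ∈ N, X v = 0) :
    ∀ X ∈ N, X = 0 := by
  let U : Submodule K V :=
    { carrier := {v | ∀ X ∈ N, X v = 0}
      add_mem' := fun {a b} ha hb X hX => by rw [map_add, ha X hX, hb X hX, add_zero]
      zero_mem' := fun X _ => map_zero X
      smul_mem' := fun c a ha X hX => by rw [map_smul, ha X hX, smul_zero] }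
  have hU : ∀ x ∈ A, ∀ v ∈ U, x v ∈ U := by
    intro p hp v hv X hX
    obtain ⟨q, hq, hpq⟩ := hinv p hp
    have hqp : q * p = 1 := mul_eq_one_comm.1 hpq
    have h1 : (q * X * p) v = 0 := hv _ (hN q hq p hp hqp X hX)
    have h2 : p ((q * X * p) v) = X (p v) := by
      rw [← Module.End.mul_apply, ← mul_assoc, ← mul_assoc, hpq, one_mul]
      rfl
    rw [← h2, h1, map_zero]
  obtain ⟨C, hC, hc⟩ := hA U hU
  have hC0 : C = ⊥ := by
    by_contra h
    obtain ⟨v, hv, hv0, hvN⟩ := hk C hC h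
    have : v ∈ U ⊓ C := ⟨hvN, hv⟩
    rw [hc.inf_eq_bot] at this
    exact hv0 (by simpa using this)
  have hUt : U = ⊤ := by
    have := hc.sup_eq_top
    rwa [hC0, sup_bot_eq] at this
  intro X hX
  ext w
  have h1 : w ∈ U := by rw [hUt]; trivial
  exact h1 X hX

theorem C_core [CharZero K] [FiniteDimensional K V] (A : Set (Module.End K V))
    (hA : ∀ U : Submodule K V, (∀ x ∈ A, ∀ v ∈ U, x v ∈ U) →
      ∃ U' : Submodule K V, (∀ x ∈ A, ∀ v ∈ U', x v ∈ U') ∧ IsCompl U U')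
    (hinv : ∀ p ∈ A, ∃ q ∈ A, p * q = 1) (L : Submodule K (Module.End K V))
    (hL : ∀ X ∈ L, ∀ Y ∈ L, X * Y - Y * X ∈ L)
    (hconj : ∀ p ∈ A, ∀ q ∈ A, p * q = 1 → ∀ X ∈ L, p * X * q ∈ L) (hspan : L ≤ Submodule.span K A)
    (ν : Module.End K V) (hν : ν ∈ L) (hnil : IsNilpotent ν) (htr : ∀ X ∈ L, LinearMap.trace K V (ν * X) = 0) :
    ν = 0 := by
  -- the radical of the trace form
  let R : LieSubalgebra K (Module.End K V) :=
    { carrier := {Y | Y ∈ L ∧ ∀ X ∈ L, LinearMap.trace K V (Y * X) = 0}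
      add_mem' := by
        rintro X Y ⟨hX, hX'⟩ ⟨hY, hY'⟩
        exact ⟨L.add_mem hX hY, fun Z hZ => by rw [add_mul, map_add, hX' Z hZ, hY' Z hZ, add_zero]⟩
      zero_mem' := ⟨L.zero_mem, fun Z _ => by rw [zero_mul, map_zero]⟩
      smul_mem' := by
        rintro c X ⟨hX, hX'⟩
        exact ⟨L.smul_mem c hX, fun Z hZ => by rw [smul_mul_assoc, map_smul, hX' Z hZ, smul_zero]⟩
      lie_mem' := by
        rintro X Y ⟨hX, hX'⟩ ⟨hY, hY'⟩
        refine ⟨hL X hX Y hY, fun Z hZ => ?_⟩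
        have h1 : LinearMap.trace K V (X * (Y * Z - Z * Y)) = 0 := hX' _ (hL Y hY Z hZ)
        have h2 : LinearMap.trace K V ((X * Y - Y * X) * Z) = LinearMap.trace K V (X * (Y * Z - Z * Y)) := by
          have e1 : (X * Y - Y * X) * Z = X * Y * Z - Y * (X * Z) := by rw [sub_mul, mul_assoc Y X Z]
          have e2 : X * (Y * Z - Z * Y) = X * Y * Z - X * Z * Y := by rw [mul_sub, mul_assoc X Y Z, mul_assoc X Z Y]
          rw [e1, e2, map_sub, map_sub, LinearMap.trace_mul_comm K Y (X * Z)]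
        rw [LieRing.of_associative_ring_bracket, h2, h1] }
  have hRmem : ∀ Y, Y ∈ R ↔ (Y ∈ L ∧ ∀ X ∈ L, LinearMap.trace K V (Y * X) = 0) := fun Y => Iff.rfl
  have htrc : ∀ p q Y X : Module.End K V, p * q = 1 →
      LinearMap.trace K V ((p * Y * q) * X) = LinearMap.trace K V (Y * (q * X * p)) := by
    intro p q Y X hpq
    rw [show p * Y * q * X = p * (Y * q * X) by simp only [mul_assoc], LinearMap.trace_mul_comm]
    simp only [mul_assoc]
  have hRconj : ∀ p ∈ A, ∀ q ∈ A, p * q = 1 → ∀ X ∈ R, p * X * q ∈ R := by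
    rintro p hp q hq hpq X ⟨hX, hX'⟩
    refine ⟨hconj p hp q hq hpq X hX, fun Z hZ => ?_⟩
    rw [htrc p q X Z hpq]
    exact hX' _ (hconj q hq p hp (mul_eq_one_comm.1 hpq) Z hZ)
  have hRst : ∀ C : Submodule K V, (∀ x ∈ A, ∀ v ∈ C, x v ∈ C) → ∀ X ∈ R, ∀ v ∈ C, X v ∈ C := by
    intro C hC X hX v hv
    exact C_span_stable A C hC X (hspan hX.1) v hv
  have htf : traceForm K R V = 0 := by
    ext ⟨x, hx⟩ ⟨y, hy⟩
    rw [traceForm_apply_apply]
    exact hx.2 y hy.1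
  have hnd : LieModule.IsNilpotent (derivedSeries K R 1) V :=
    isNilpotent_derivedSeries_of_traceForm_eq_zero htf
  -- R is abelian
  have hab : ∀ X ∈ R, ∀ Y ∈ R, X * Y = Y * X := by
    have h1 := C_kill A hA hinv {Z | ∃ X ∈ R, ∃ Y ∈ R, Z = X * Y - Y * X} (by
      rintro p hp q hq hpq _ ⟨X, hX, Y, hY, rfl⟩
      refine ⟨p * X * q, hRconj p hp q hq hpq X hX, p * Y * q, hRconj p hp q hq hpq Y hY, ?_⟩
      have hqp : q * p = 1 := mul_eq_one_comm.1 hpq
      have h2 : ∀ B C : Module.End K V, (p * B * q) * (p * C * q) = p * (B * C) * q := by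
        intro B C
        calc (p * B * q) * (p * C * q) = p * B * (q * p) * C * q := by simp only [mul_assoc]
          _ = _ := by rw [hqp]; simp only [mul_assoc, one_mul]
      rw [h2, h2, mul_sub, sub_mul]) (by
      intro C hC hC0
      obtain ⟨v, hv, hv0, hvk⟩ := C_exists_killed (derivedSeries K R 1) C hC0 (by
        rintro ⟨⟨x, hx⟩, hx'⟩ v hv
        exact hRst C hC x hx v hv)
      refine ⟨v, hv, hv0, ?_⟩
      rintro _ ⟨X, hX, Y, hY, rfl⟩
      have hm : ⁅(⟨X, hX⟩ : R), (⟨Y, hY⟩ : R)⁆ ∈ derivedSeries K R 1 := by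
        rw [derivedSeries_def, derivedSeriesOfIdeal_succ, derivedSeriesOfIdeal_zero]
        exact LieSubmodule.lie_mem_lie (LieSubmodule.mem_top _) (LieSubmodule.mem_top _)
      exact hvk ⟨_, hm⟩)
    intro X hX Y hY
    exact sub_eq_zero.1 (h1 _ ⟨X, hX, Y, hY, rfl⟩)
  -- the nilpotent elements
  let N : LieSubalgebra K (Module.End K V) :=
    { carrier := {Y | Y ∈ R ∧ IsNilpotent Y}
      add_mem' := by
        rintro X Y ⟨hX, hX'⟩ ⟨hY, hY'⟩
        exact ⟨R.add_mem hX hY, (show Commute X Y from hab X hX Y hY).isNilpotent_add hX' hY'⟩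
      zero_mem' := ⟨R.zero_mem, IsNilpotent.zero⟩
      smul_mem' := by
        rintro c X ⟨hX, hX'⟩
        exact ⟨R.smul_mem c hX, hX'.smul c⟩
      lie_mem' := by
        rintro X Y ⟨hX, hX'⟩ ⟨hY, hY'⟩
        refine ⟨R.lie_mem hX hY, ?_⟩
        rw [LieRing.of_associative_ring_bracket, hab X hX Y hY, sub_self]
        exact IsNilpotent.zero }
  have hNn : LieModule.IsNilpotent N V := by
    rw [LieModule.isNilpotent_iff_forall' (R := K)]
    rintro ⟨x, hx⟩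
    exact hx.2
  have h2 := C_kill A hA hinv (N : Set (Module.End K V)) (by
    rintro p hp q hq hpq X ⟨hX, m, hm⟩
    refine ⟨hRconj p hp q hq hpq X hX, m, ?_⟩
    have hqp : q * p = 1 := mul_eq_one_comm.1 hpq
    have : ∀ m : ℕ, (p * X * q) ^ m = p * X ^ m * q := by
      intro m
      induction m with
      | zero => simp [hpq]
      | succ m ih =>
        rw [pow_succ, ih, pow_succ]
        calc p * X ^ m * q * (p * X * q) = p * X ^ m * (q * p) * X * q := by simp only [mul_assoc]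
          _ = _ := by rw [hqp]; simp only [mul_assoc, one_mul]
    rw [this, hm, mul_zero, zero_mul]) (by
    intro C hC hC0
    obtain ⟨v, hv, hv0, hvk⟩ := C_exists_killed N C hC0 (by
      rintro ⟨x, hx⟩ v hv
      exact hRst C hC x hx.1 v hv)
    exact ⟨v, hv, hv0, fun X hX => hvk ⟨X, hX⟩⟩)
  exact h2 ν ⟨⟨hν, htr⟩, hnil⟩

end Core

open Matrix

/-- **C.** -/
theorem nilp_eq_zero {k : Type*} [Field k] [CharZero k] {n : Type*} [Fintype n] [DecidableEq n]
    (A : Set (Matrix n n k)) (hA : SSimple A) (hinv : ∀ p ∈ A, ∃ q ∈ A, p * q = 1)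
    (L : Submodule k (Matrix n n k)) (hL : ∀ X ∈ L, ∀ Y ∈ L, X * Y - Y * X ∈ L)
    (hconj : ∀ p ∈ A, ∀ q ∈ A, p * q = 1 → ∀ X ∈ L, p * X * q ∈ L) (hspan : L ≤ Submodule.span k A)
    (ν : Matrix n n k) (hν : ν ∈ L) (hnil : IsNilpotent ν) (htr : ∀ X ∈ L, Matrix.trace (ν * X) = 0) : ν = 0 := by
  let e : Matrix n n k ≃ₐ[k] Module.End k (n → k) := Matrix.toLinAlgEquiv'
  have he : ∀ (x : Matrix n n k) (v : n → k), e x v = x *ᵥ v := fun x v => Matrix.toLinAlgEquiv'_apply x v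
  have key := C_core (K := k) (V := n → k) (e '' A) (by
      intro U hU
      obtain ⟨U', h1, h2⟩ := hA U (fun x hx v hv => by
        rw [← he]; exact hU (e x) ⟨x, hx, rfl⟩ v hv)
      refine ⟨U', ?_, h2⟩
      rintro _ ⟨x, hx, rfl⟩ v hv
      rw [he]; exact h1 x hx v hv)
    (by
      rintro _ ⟨p, hp, rfl⟩
      obtain ⟨q, hq, hpq⟩ := hinv p hp
      exact ⟨e q, ⟨q, hq, rfl⟩, by rw [← map_mul, hpq, map_one]⟩)
    (L.map (e : Matrix n n k →ₗ[k] Module.End k (n → k)))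
    (by
      rintro _ ⟨X, hX, rfl⟩ _ ⟨Y, hY, rfl⟩
      exact ⟨_, hL X hX Y hY, by simp⟩)
    (by
      rintro _ ⟨p, hp, rfl⟩ _ ⟨q, hq, rfl⟩ hpq _ ⟨X, hX, rfl⟩
      have hpq' : p * q = 1 := e.injective (by rw [map_mul, hpq, map_one])
      exact ⟨_, hconj p hp q hq hpq' X hX, by simp⟩)
    (by
      rw [Submodule.map_le_iff_le_comap]
      intro X hX
      have h1 := hspan hX
      have h2 : e X ∈ (Submodule.span k A).map (e : Matrix n n k →ₗ[k] Module.End k (n → k)) := ⟨X, h1, rfl⟩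
      rw [Submodule.map_span] at h2
      exact h2)
    (e ν) ⟨ν, hν, rfl⟩ (hnil.map e)
    (by
      rintro _ ⟨X, hX, rfl⟩
      have h1 := htr X hX
      have h2 : LinearMap.trace k (n → k) (e (ν * X)) = Matrix.trace (ν * X) := Matrix.trace_toLin'_eq _
      change LinearMap.trace k (n → k) (e ν * e X) = 0
      rw [← map_mul, h2, h1])
  exact e.injective (by rw [key, map_zero])

end Pool.Agent.H40ZL
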