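import Mathlib
import Pool.Agent.H40ZL.Defs

/-!
# Stub A1: exponential polynomials are linearly independent
-/

set_option autoImplicit false

namespace Pool.Agent.H40ZL

open Polynomial

namespace A1

variable (G : Type*) [Field G]

/-- the shift operator -/
def shift : Module.End G (ℕ → G) where
  toFun f := fun i => f (i + 1)
  map_add' _ _ := rfl
  map_smul' _ _ := rfl

variable {G}

theorem mem_gen (c : G) (d : ℕ) : ∀ Q : G[X], Q.natDegree < d →
    ((shift G - c • 1) ^ d) (fun i : ℕ => c ^ i * Q.eval (i : G)) = 0 := by
  induction d with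
  | zero => intro Q h; omega
  | succ d ih =>
    intro Q h
    rw [pow_succ, Module.End.mul_apply]
    have h1 : (shift G - c • 1) (fun i : ℕ => c ^ i * Q.eval (i : G)) =
        fun i : ℕ => c ^ i * (C c * (Q.comp (X + 1) - Q)).eval (i : G) := by
      funext i
      simp only [LinearMap.sub_apply, LinearMap.smul_apply, Module.End.one_apply, Pi.sub_apply, Pi.smul_apply,
        smul_eq_mul, eval_mul, eval_C, eval_sub, eval_comp, eval_add, eval_X, eval_one]
      show c ^ (i + 1) * Q.eval ((i + 1 : ℕ) : G) - _ = _
      push_cast
      ring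
    rw [h1]
    by_cases hQ : Q.natDegree = 0
    · obtain ⟨a, rfl⟩ := natDegree_eq_zero.mp hQ
      have h2 : (fun i : ℕ => c ^ i * (C c * ((C a).comp (X + 1) - C a)).eval (i : G)) = 0 := by
        funext i; simp
      rw [h2, map_zero]
    · apply ih
      have h3 : (Q.comp (X + 1) - Q).natDegree < Q.natDegree := by
        have hQ0 : Q ≠ 0 := by rintro rfl; simp at hQ
        have hne : Q.comp (X + 1) ≠ 0 := by
          intro h0
          have := congrArg (fun p : G[X] => p.comp (X - 1)) h0
          simp only [comp_assoc, add_comp, X_comp, one_comp, sub_add_cancel, comp_X, zero_comp] at this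
          exact hQ0 this
        have hnd : (Q.comp (X + 1)).natDegree = Q.natDegree := by
          have h9 := natDegree_X_add_C (1 : G)
          rw [C_1] at h9
          rw [natDegree_comp, h9, mul_one]
        have hlc : (Q.comp (X + 1)).leadingCoeff = Q.leadingCoeff := by
          have hm : (X + 1 : G[X]).leadingCoeff = 1 := by simpa using leadingCoeff_X_add_C (1 : G)
          rw [leadingCoeff_comp, hm, one_pow, mul_one]
          have := natDegree_X_add_C (1 : G)
          simp only [map_one] at this
          rw [this]; exact one_ne_zero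
        have hdeg : (Q.comp (X + 1)).degree = Q.degree := by
          rw [degree_eq_natDegree hne, degree_eq_natDegree hQ0, hnd]
        have h4 := degree_sub_lt_left hdeg hne hlc
        by_cases h5 : Q.comp (X + 1) - Q = 0
        · rw [h5, natDegree_zero]; omega
        · rw [hdeg] at h4
          exact natDegree_lt_natDegree h5 h4
      have h6 : (C c * (Q.comp (X + 1) - Q)).natDegree ≤ (Q.comp (X + 1) - Q).natDegree := natDegree_C_mul_le _ _
      omega

end A1

open A1

theorem expPoly_indep {G : Type*} [Field G] [CharZero G] (s : Finset G) (hs : ∀ c ∈ s, c ≠ 0)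
    (Q : G → Polynomial G) (h : ∀ i : ℕ, ∑ c ∈ s, c ^ i * (Q c).eval (i : G) = 0) : ∀ c ∈ s, Q c = 0 := by
  intro c hc
  have hind := (iSupIndep_iff_finsetSum_eq_zero_imp_eq_zero _).mp (Module.End.independent_maxGenEigenspace (shift G))
  have h1 := hind s (fun c => fun i : ℕ => c ^ i * (Q c).eval (i : G)) (fun a _ => by
    rw [Module.End.mem_maxGenEigenspace]
    exact ⟨(Q a).natDegree + 1, mem_gen a _ _ (Nat.lt_succ_self _)⟩) (by
      funext i
      rw [Finset.sum_apply]
      exact h i) c hc
  apply Polynomial.eq_zero_of_infinite_isRoot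
  refine Set.Infinite.mono ?_ (Set.infinite_range_of_injective (Nat.cast_injective (R := G)))
  rintro _ ⟨i, rfl⟩
  have h2 := congrFun h1 i
  simp only [Pi.zero_apply] at h2
  rcases mul_eq_zero.mp h2 with h3 | h3
  · exact absurd h3 (pow_ne_zero _ (hs c hc))
  · exact h3

end Pool.Agent.H40ZL
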