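import Mathlib
import Pool.Agent.H40ZL.Defs
import Pool.Agent.H40ZL.A1

/-!
# Stub A2: the unipotent part of `g` is tangent
-/

set_option autoImplicit false
set_option linter.unusedSectionVars false

namespace Pool.Agent.H40ZL

open Matrix Polynomial

namespace A2

section bin

variable (G : Type*) [Field G]

/-- the binomial coefficient as a polynomial -/
noncomputable def bin (j : ℕ) : Polynomial G := C ((j.factorial : G)⁻¹) * descPochhammer G j

variable [CharZero G]

theorem bin_eval (j i : ℕ) : (bin G j).eval (i : G) = (i.choose j : G) := by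
  have h0 : (j.factorial : G) ≠ 0 := by exact_mod_cast j.factorial_ne_zero
  rw [bin, eval_mul, eval_C, descPochhammer_eval_eq_descFactorial, Nat.descFactorial_eq_factorial_mul_choose]
  push_cast
  field_simp

theorem bin_zero (j : ℕ) : (bin G j).eval 0 = if j = 0 then 1 else 0 := by
  rw [bin, eval_mul, eval_C, descPochhammer_eval_zero]
  split_ifs with h
  · subst h; simp
  · simp

theorem desc_neg_one (j : ℕ) : (descPochhammer G j).eval (-1) = (-1) ^ j * (j.factorial : G) := by
  induction j with
  | zero => simp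
  | succ j ih =>
    rw [descPochhammer_succ_eval, ih, Nat.factorial_succ]
    push_cast
    ring

theorem bin_der (j : ℕ) : (derivative (bin G (j + 1))).eval 0 = (-1) ^ j / ((j + 1 : ℕ) : G) := by
  have h0 : (j.factorial : G) ≠ 0 := by exact_mod_cast j.factorial_ne_zero
  have h1 : ((j + 1 : ℕ) : G) ≠ 0 := by exact_mod_cast j.succ_ne_zero
  rw [bin, derivative_C_mul, descPochhammer_succ_left, derivative_mul, derivative_X, one_mul, eval_mul, eval_C,
    eval_add, eval_mul, eval_X, zero_mul, add_zero, eval_comp]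
  simp only [eval_sub, eval_X, eval_one, zero_sub]
  rw [desc_neg_one, Nat.factorial_succ]
  push_cast at h1 ⊢
  field_simp

theorem bin_der_zero : (derivative (bin G 0)).eval 0 = 0 := by
  simp [bin]

end bin

variable {G : Type*} [Field G] [CharZero G] {n : Type*} [Fintype n] [DecidableEq n]

theorem nilp_pow (N : Matrix n n G) (h : IsNilpotent N) : N ^ Fintype.card n = 0 := by
  have h1 := Matrix.isNilpotent_charpoly_sub_pow_of_isNilpotent h
  have h2 : N.charpoly = X ^ Fintype.card n := sub_eq_zero.mp h1.eq_zero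
  have h3 := Matrix.aeval_self_charpoly N
  rw [h2] at h3
  simpa using h3

theorem nilp_pow_of_le (N : Matrix n n G) (h : IsNilpotent N) (j : ℕ) (hj : Fintype.card n ≤ j) : N ^ j = 0 := by
  obtain ⟨l, rfl⟩ := Nat.exists_eq_add_of_le hj
  rw [pow_add, nilp_pow N h, zero_mul]

theorem pow_unip (u : Matrix n n G) (hu : IsNilpotent (u - 1)) (i : ℕ) :
    u ^ i = ∑ j ∈ Finset.range (Fintype.card n + 1), (i.choose j : G) • (u - 1) ^ j := by
  have h1 : u ^ i = ∑ j ∈ Finset.range (i + 1), (i.choose j : G) • (u - 1) ^ j := by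
    have h2 : u = (u - 1) + 1 := by abel
    conv_lhs => rw [h2]
    rw [(Commute.one_right (u - 1)).add_pow]
    refine Finset.sum_congr rfl fun j _ => ?_
    rw [one_pow, mul_one, Nat.cast_smul_eq_nsmul, nsmul_eq_mul, (Nat.cast_commute _ _).eq]
  rw [h1]
  have h2 : ∑ j ∈ Finset.range (i + 1), (i.choose j : G) • (u - 1) ^ j =
      ∑ j ∈ Finset.range (max (i + 1) (Fintype.card n + 1)), (i.choose j : G) • (u - 1) ^ j := by
    refine Finset.sum_subset (Finset.range_mono (le_max_left _ _)) fun j _ hj => ?_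
    rw [Finset.mem_range, not_lt] at hj
    rw [Nat.choose_eq_zero_of_lt (by omega)]
    simp
  have h3 : ∑ j ∈ Finset.range (Fintype.card n + 1), (i.choose j : G) • (u - 1) ^ j =
      ∑ j ∈ Finset.range (max (i + 1) (Fintype.card n + 1)), (i.choose j : G) • (u - 1) ^ j := by
    refine Finset.sum_subset (Finset.range_mono (le_max_right _ _)) fun j _ hj => ?_
    rw [Finset.mem_range, not_lt] at hj
    rw [nilp_pow_of_le _ hu j (by omega), smul_zero]
  rw [h2, h3]

/-- the algebra homomorphism `[c] ↦ c ^ i` -/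
noncomputable def ev (G : Type*) [Field G] (i : ℕ) : MonoidAlgebra G[X] Gˣ →ₐ[G] G[X] :=
  (MonoidAlgebra.lift G[X] G[X] Gˣ
    { toFun := fun c => C ((c : G) ^ i)
      map_one' := by simp
      map_mul' := fun a b => by simp [mul_pow] }).restrictScalars G

theorem ev_single (i : ℕ) (c : Gˣ) (p : G[X]) : ev G i (MonoidAlgebra.single c p) = p * C ((c : G) ^ i) := by
  simp [ev]

theorem ev_apply (i : ℕ) (f : MonoidAlgebra G[X] Gˣ) :
    ev G i f = ∑ c ∈ f.coeff.support, f.coeff c * C ((c : G) ^ i) := by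
  show (MonoidAlgebra.lift G[X] G[X] Gˣ _) f = _
  rw [MonoidAlgebra.lift_apply]
  rfl

theorem eq_zero_of_ev (f : MonoidAlgebra G[X] Gˣ) (h : ∀ i : ℕ, (ev G i f).eval (i : G) = 0) : f = 0 := by
  classical
  have key := expPoly_indep (f.coeff.support.image (fun c : Gˣ => (c : G)))
    (fun c hc => by
      obtain ⟨a, -, rfl⟩ := Finset.mem_image.mp hc
      exact a.ne_zero)
    (fun c => if hc : c = 0 then 0 else f.coeff (Units.mk0 c hc))
    (fun i => by
      rw [Finset.sum_image (fun a _ b _ hab => Units.ext hab)]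
      have h1 := h i
      rw [ev_apply, eval_finsetSum] at h1
      refine Eq.trans ?_ h1
      refine Finset.sum_congr rfl fun c _ => ?_
      simp [mul_comm])
  rw [← MonoidAlgebra.coeff_eq_zero]
  ext1 c
  by_contra hc
  have h2 := key c (Finset.mem_image.mpr ⟨c, Finsupp.mem_support_iff.mpr hc, rfl⟩)
  simp only [Units.ne_zero, dite_false, Units.mk0_val] at h2
  exact hc h2

theorem chain (y ν : Matrix n n G) (v : n × n → G[X]) (h0 : ∀ q, (v q).eval 0 = y q.1 q.2)
    (h1 : ∀ q, (derivative (v q)).eval 0 = (y * ν) q.1 q.2) (P : MvPolynomial (n × n) G) :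
    (MvPolynomial.aeval v P).eval 0 = evm y P ∧
      (derivative (MvPolynomial.aeval v P)).eval 0 = evm y (genD ν P) := by
  have hD : ∀ q : n × n, evm y (genD ν (MvPolynomial.X q)) = (y * ν) q.1 q.2 := by
    intro q
    rw [genD, MvPolynomial.mkDerivation_X, map_sum, Matrix.mul_apply]
    refine Finset.sum_congr rfl fun l _ => ?_
    rw [map_mul, evm, MvPolynomial.aeval_X, MvPolynomial.aeval_C]
    rfl
  induction P using MvPolynomial.induction_on with
  | C a =>
    constructor
    · simp [evm]
    · have : genD ν (MvPolynomial.C a : MvPolynomial (n × n) G) = 0 := by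
        have := (genD ν).map_algebraMap a
        simpa using this
      rw [this]
      simp
  | add p q hp hq =>
    refine ⟨?_, ?_⟩
    · rw [map_add, eval_add, hp.1, hq.1, map_add]
    · rw [map_add, derivative_add, eval_add, hp.2, hq.2, map_add, map_add]
  | mul_X p q hp =>
    have hX : evm y (MvPolynomial.X q : MvPolynomial (n × n) G) = y q.1 q.2 := by
      rw [evm, MvPolynomial.aeval_X]
    refine ⟨?_, ?_⟩
    · rw [map_mul, eval_mul, hp.1, map_mul, MvPolynomial.aeval_X, h0, hX]
    · rw [map_mul, MvPolynomial.aeval_X, derivative_mul, eval_add, eval_mul, eval_mul, hp.1, hp.2, h0, h1,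
        (genD ν).leibniz, map_add, smul_eq_mul, smul_eq_mul, map_mul, map_mul, hX, hD]
      ring

end A2

open A2

theorem tangent_unip {G : Type*} [Field G] [CharZero G] {n : Type*} [Fintype n] [DecidableEq n]
    (S : Set (Matrix n n G)) (g s u P : Matrix n n G) (d : n → G) (hS : ∀ y ∈ S, ∀ i : ℕ, y * g ^ i ∈ S)
    (hg : g = s * u) (hc : s * u = u * s) (hd : ∀ a, d a ≠ 0) (hP : IsUnit P) (hs : P * s = Matrix.diagonal d * P)
    (hu : IsNilpotent (u - 1)) :
    IsTangent S (∑ j ∈ Finset.Icc 1 (Fintype.card n), ((-1) ^ (j - 1) / (j : G)) • (u - 1) ^ j) := by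
  classical
  intro P₀ hP₀ y hy
  obtain ⟨Pu, rfl⟩ := hP
  set P : Matrix n n G := (Pu : Matrix n n G) with hPdef
  set Q : Matrix n n G := ((Pu⁻¹ : (Matrix n n G)ˣ) : Matrix n n G) with hQdef
  have hPQ : P * Q = 1 := Pu.mul_inv
  have hQP : Q * P = 1 := Pu.inv_mul
  have hs' : ∀ i : ℕ, s ^ i = Q * Matrix.diagonal (fun a => d a ^ i) * P := by
    intro i
    have h1 : P * s ^ i = Matrix.diagonal (fun a => d a ^ i) * P := by
      induction i with
      | zero => simp
      | succ i ih =>
        rw [pow_succ, ← mul_assoc, ih, mul_assoc, hs, ← mul_assoc, Matrix.diagonal_mul_diagonal]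
        simp only [pow_succ]
    rw [mul_assoc, ← h1, ← mul_assoc, hQP, one_mul]
  set b := Fintype.card n with hb
  have hgi : ∀ i : ℕ, y * g ^ i = ∑ j ∈ Finset.range (b + 1), (i.choose j : G) •
      ((y * Q) * Matrix.diagonal (fun a => d a ^ i) * (P * (u - 1) ^ j)) := by
    intro i
    rw [hg, (show Commute s u from hc).mul_pow, hs' i, pow_unip u hu i, Finset.mul_sum, Finset.mul_sum]
    refine Finset.sum_congr rfl fun j _ => ?_
    rw [Matrix.mul_smul, Matrix.mul_smul]
    simp only [Matrix.mul_assoc]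
  -- the generic entries
  let E : n × n → MonoidAlgebra G[X] Gˣ := fun q => ∑ l, MonoidAlgebra.single (Units.mk0 (d l) (hd l))
    (∑ j ∈ Finset.range (b + 1), bin G j * C ((y * Q) q.1 l * (P * (u - 1) ^ j) l q.2))
  have hE : ∀ (i : ℕ) (q : n × n), ev G i (E q) = ∑ l, ∑ j ∈ Finset.range (b + 1),
      bin G j * C ((y * Q) q.1 l * (P * (u - 1) ^ j) l q.2) * C (d l ^ i) := by
    intro i q
    rw [map_sum]
    refine Finset.sum_congr rfl fun l _ => ?_
    rw [ev_single, Finset.sum_mul]
    rfl
  have hEi : ∀ (i : ℕ) (q : n × n), (ev G i (E q)).eval (i : G) = (y * g ^ i) q.1 q.2 := by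
    intro i q
    rw [hE, hgi, Finset.sum_comm, eval_finsetSum, Matrix.sum_apply]
    refine Finset.sum_congr rfl fun j _ => ?_
    rw [eval_finsetSum, Matrix.smul_apply, Matrix.mul_apply, Finset.smul_sum]
    refine Finset.sum_congr rfl fun l _ => ?_
    rw [eval_mul, eval_mul, eval_C, eval_C, bin_eval, Matrix.mul_diagonal, smul_eq_mul]
    ring
  have hE0 : ∀ q : n × n, ev G 0 (E q) = ∑ j ∈ Finset.range (b + 1),
      bin G j * C ((y * (u - 1) ^ j) q.1 q.2) := by
    intro q
    rw [hE, Finset.sum_comm]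
    refine Finset.sum_congr rfl fun j _ => ?_
    have h1 : y * (u - 1) ^ j = (y * Q) * (P * (u - 1) ^ j) := by
      rw [mul_assoc y, ← mul_assoc Q, hQP, one_mul]
    rw [h1, Matrix.mul_apply, map_sum, Finset.mul_sum]
    refine Finset.sum_congr rfl fun l _ => ?_
    rw [pow_zero, C_1, mul_one]
  have hΦ : MvPolynomial.aeval E P₀ = 0 := by
    apply eq_zero_of_ev
    intro i
    have h1 : (ev G i (MvPolynomial.aeval E P₀)).eval (i : G) = evm (y * g ^ i) P₀ := by
      have h2 : ((Polynomial.aeval (i : G)).comp ((ev G i).comp (MvPolynomial.aeval E)) :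
          MvPolynomial (n × n) G →ₐ[G] G) = evm (y * g ^ i) := by
        apply MvPolynomial.algHom_ext
        intro q
        rw [AlgHom.comp_apply, AlgHom.comp_apply, MvPolynomial.aeval_X, Polynomial.coe_aeval_eq_eval, hEi, evm,
          MvPolynomial.aeval_X]
      have h3 := congrArg (fun φ : MvPolynomial (n × n) G →ₐ[G] G => φ P₀) h2
      simpa [Polynomial.coe_aeval_eq_eval] using h3
    rw [h1]
    exact hP₀ _ (hS y hy i)
  have h4 : MvPolynomial.aeval (fun q => ev G 0 (E q)) P₀ = 0 := by
    have h5 : MvPolynomial.aeval (fun q => ev G 0 (E q)) P₀ = ev G 0 (MvPolynomial.aeval E P₀) := by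
      have h6 : (MvPolynomial.aeval (fun q => ev G 0 (E q)) : MvPolynomial (n × n) G →ₐ[G] G[X]) =
          (ev G 0).comp (MvPolynomial.aeval E) := by
        apply MvPolynomial.algHom_ext
        intro q
        rw [AlgHom.comp_apply, MvPolynomial.aeval_X, MvPolynomial.aeval_X]
      rw [h6]; rfl
    rw [h5, hΦ, map_zero]
  have h7 := chain y (∑ j ∈ Finset.Icc 1 b, ((-1) ^ (j - 1) / (j : G)) • (u - 1) ^ j)
    (fun q => ev G 0 (E q)) ?_ ?_ P₀
  · rw [← h7.2, h4]
    simp
  · intro q
    simp only [hE0]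
    rw [eval_finsetSum, Finset.sum_eq_single 0]
    · rw [eval_mul, eval_C, bin_zero]
      simp
    · intro j _ hj
      rw [eval_mul, bin_zero, if_neg hj, zero_mul]
    · intro h
      simp at h
  · intro q
    simp only [hE0]
    rw [derivative_sum, eval_finsetSum, Finset.sum_range_succ', Finset.mul_sum, Matrix.sum_apply]
    rw [derivative_mul, derivative_C, mul_zero, add_zero, eval_mul, bin_der_zero, zero_mul, add_zero]
    rw [← Finset.sum_subset (s₁ := (Finset.range b).image (fun j => j + 1)) (s₂ := Finset.Icc 1 b)]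
    rotate_left
    · intro j hj
      obtain ⟨a, ha, rfl⟩ := Finset.mem_image.mp hj
      rw [Finset.mem_range] at ha
      rw [Finset.mem_Icc]; omega
    · intro j hj hj'
      exfalso
      apply hj'
      rw [Finset.mem_Icc] at hj
      exact Finset.mem_image.mpr ⟨j - 1, by rw [Finset.mem_range]; omega, by omega⟩
    rw [Finset.sum_image (fun a _ c _ hac => by simpa using hac)]
    refine Finset.sum_congr rfl fun j _ => ?_
    rw [derivative_mul, derivative_C, mul_zero, add_zero, eval_mul, eval_C, bin_der, Matrix.mul_smul,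
      Matrix.smul_apply, smul_eq_mul, Nat.add_sub_cancel]

end Pool.Agent.H40ZL
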