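import Mathlib
import Pool.Agent.H40ZL.Defs

set_option autoImplicit false

namespace Pool.Agent.H40ZL

open Matrix

section

variable {k : Type*} [Field k] {n : Type*} [Fintype n] [DecidableEq n]

theorem genD_X (X : Matrix n n k) (q : n × n) :
    genD X (MvPolynomial.X q) = ∑ l, MvPolynomial.X (q.1, l) * MvPolynomial.C (X l q.2) := by
  rw [genD, MvPolynomial.mkDerivation_X]

theorem genD_add (X Y : Matrix n n k) : genD (X + Y) = genD X + genD Y := by
  refine MvPolynomial.derivation_ext fun q => ?_
  rw [Derivation.add_apply, genD_X, genD_X, genD_X, ← Finset.sum_add_distrib]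
  refine Finset.sum_congr rfl fun l _ => ?_
  rw [Matrix.add_apply, map_add, mul_add]

theorem genD_smul (c : k) (X : Matrix n n k) : genD (c • X) = c • genD X := by
  refine MvPolynomial.derivation_ext fun q => ?_
  rw [Derivation.smul_apply, genD_X, genD_X, Finset.smul_sum]
  refine Finset.sum_congr rfl fun l _ => ?_
  rw [Matrix.smul_apply, smul_eq_mul, map_mul, MvPolynomial.smul_eq_C_mul]
  ring

theorem genD_lie (X Y : Matrix n n k) : genD (X * Y - Y * X) = ⁅genD X, genD Y⁆ := by
  refine MvPolynomial.derivation_ext fun q => ?_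
  have key : ∀ A B : Matrix n n k, genD A (genD B (MvPolynomial.X q)) =
      ∑ l, MvPolynomial.X (q.1, l) * MvPolynomial.C ((A * B) l q.2) := by
    intro A B
    rw [genD_X, map_sum]
    have h1 : ∀ l : n, genD A (MvPolynomial.X (q.1, l) * MvPolynomial.C (B l q.2)) =
        ∑ j, MvPolynomial.X (q.1, j) * MvPolynomial.C (A j l * B l q.2) := by
      intro l
      rw [Derivation.leibniz, MvPolynomial.derivation_C, smul_zero, zero_add, genD_X, smul_eq_mul,
        Finset.mul_sum]
      refine Finset.sum_congr rfl fun j _ => ?_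
      rw [map_mul]
      ring
    rw [Finset.sum_congr rfl fun l _ => h1 l, Finset.sum_comm]
    refine Finset.sum_congr rfl fun j _ => ?_
    rw [← Finset.mul_sum, ← map_sum, Matrix.mul_apply]
  rw [Derivation.commutator_apply, key, key, genD_X, ← Finset.sum_sub_distrib]
  refine Finset.sum_congr rfl fun l _ => ?_
  rw [Matrix.sub_apply, map_sub, mul_sub]

end

/-- **L1.** The tangent vectors form a Lie subalgebra. -/
theorem tangent_add {k : Type*} [Field k] {n : Type*} [Fintype n] [DecidableEq n] (S : Set (Matrix n n k))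
    (X Y : Matrix n n k) (hX : IsTangent S X) (hY : IsTangent S Y) :
    IsTangent S (X + Y) ∧ (∀ c : k, IsTangent S (c • X)) ∧ IsTangent S (X * Y - Y * X) := by
  refine ⟨fun P hP x hx => ?_, fun c P hP x hx => ?_, fun P hP x hx => ?_⟩
  · rw [genD_add, Derivation.add_apply, map_add, hX P hP x hx, hY P hP x hx, add_zero]
  · rw [genD_smul, Derivation.smul_apply, map_smul, hX P hP x hx, smul_zero]
  · rw [genD_lie, Derivation.commutator_apply, map_sub, hX _ (hY P hP) x hx, hY _ (hX P hP) x hx,
      sub_zero]

end Pool.Agent.H40ZL
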