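import Mathlib
import Pool.Agent.H40ZL.Defs
import Pool.Agent.H40ZL.L1

set_option autoImplicit false

namespace Pool.Agent.H40ZL

open Matrix

/-- **A3.** Descent of tangent vectors. -/
theorem tangent_descent {k G : Type*} [Field k] [Field G] [Algebra k G] {n : Type*} [Fintype n] [DecidableEq n]
    (S : Set (Matrix n n k)) (X : Matrix n n k)
    (h : IsTangent ((fun x : Matrix n n k => x.map (algebraMap k G)) '' S) (X.map (algebraMap k G))) :
    IsTangent S X := by
  have hev : ∀ (x : Matrix n n k) (P : MvPolynomial (n × n) k),
      evm (x.map (algebraMap k G)) (MvPolynomial.map (algebraMap k G) P) =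
        algebraMap k G (evm x P) := by
    intro x P
    rw [evm, evm, MvPolynomial.aeval_map_algebraMap]
    have h1 : (fun q : n × n => x.map (algebraMap k G) q.1 q.2) =
        fun q : n × n => algebraMap k G (x q.1 q.2) := rfl
    rw [h1]
    exact MvPolynomial.aeval_algebraMap_apply G (fun q : n × n => x q.1 q.2) P
  have hder : ∀ P : MvPolynomial (n × n) k,
      genD (X.map (algebraMap k G)) (MvPolynomial.map (algebraMap k G) P) =
        MvPolynomial.map (algebraMap k G) (genD X P) := by
    intro P
    induction P using MvPolynomial.induction_on with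
    | C a =>
      rw [MvPolynomial.map_C, MvPolynomial.derivation_C, MvPolynomial.derivation_C, map_zero]
    | add P Q hP hQ =>
      rw [map_add, map_add, map_add, map_add, hP, hQ]
    | mul_X P ij hP =>
      rw [map_mul, MvPolynomial.map_X, Derivation.leibniz, Derivation.leibniz, hP, smul_eq_mul,
        smul_eq_mul, smul_eq_mul, smul_eq_mul, map_add, map_mul, map_mul, MvPolynomial.map_X,
        genD_X, genD_X, map_sum]
      congr 2
      refine Finset.sum_congr rfl fun l _ => ?_
      rw [map_mul, MvPolynomial.map_X, MvPolynomial.map_C]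
      rfl
  intro P hP x hx
  have h1 := h (MvPolynomial.map (algebraMap k G) P) (by
    rintro _ ⟨y, hy, rfl⟩
    have h2 := hev y P
    rw [hP y hy, map_zero] at h2
    exact h2) (x.map (algebraMap k G)) ⟨x, hx, rfl⟩
  rw [hder, hev] at h1
  exact (algebraMap k G).injective (by rw [h1, map_zero])

end Pool.Agent.H40ZL
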