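import Mathlib
import Pool.Agent.H40ZL.Defs
import Pool.Agent.H40ZL.A2
import Pool.Agent.H40ZL.A3

set_option autoImplicit false

namespace Pool.Agent.H40ZL

open Matrix

namespace A4

/-- a semisimple matrix over an algebraically closed field is diagonalizable -/
lemma diag {G : Type*} [Field G] [IsAlgClosed G] {n : Type*} [Fintype n] [DecidableEq n]
    (s : Matrix n n G) (hs : Module.End.IsSemisimple (Matrix.toLin' s)) :
    ∃ (P : Matrix n n G) (d : n → G), IsUnit P ∧ P * s = Matrix.diagonal d * P := by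
  classical
  obtain ⟨E, hE⟩ : ∃ E : Set (n → G), E = {v | ∃ μ : G, Matrix.toLin' s v = μ • v} := ⟨_, rfl⟩
  have hspan : ⊤ ≤ Submodule.span G E := by
    rw [← hs.iSup_eigenspace_eq_top]
    refine iSup_le fun μ v hv => Submodule.subset_span ?_
    rw [hE]
    exact ⟨μ, Module.End.mem_eigenspace_iff.1 hv⟩
  obtain ⟨b0, hb0⟩ : ∃ b0 : Module.Basis
      ((linearIndepOn_empty G (id : (n → G) → (n → G))).extend (Set.empty_subset E)) G (n → G),
      ∀ a, b0 a ∈ E := by
    refine ⟨Module.Basis.ofSpan hspan, fun a => ?_⟩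
    exact Module.Basis.ofSpan_subset hspan ⟨a, rfl⟩
  obtain ⟨b, hb⟩ : ∃ b : Module.Basis n G (n → G), ∀ a, b a ∈ E :=
    ⟨b0.reindex (b0.indexEquiv (Pi.basisFun G n)), fun a => by
      rw [Module.Basis.reindex_apply]; exact hb0 _⟩
  rw [hE] at hb
  choose d hd using hb
  have h1 : s * (Pi.basisFun G n).toMatrix b = (Pi.basisFun G n).toMatrix b * Matrix.diagonal d := by
    ext i a
    rw [Matrix.mul_diagonal, Matrix.mul_apply]
    have h2 := congrFun (hd a) i
    rw [Matrix.toLin'_apply] at h2
    simp only [Module.Basis.toMatrix_apply, Pi.basisFun_repr]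
    change ∑ j, s i j * b a j = d a * b a i at h2
    rw [h2, mul_comm]
  have h2 : b.toMatrix (Pi.basisFun G n) * (Pi.basisFun G n).toMatrix b = 1 :=
    Module.Basis.toMatrix_mul_toMatrix_flip _ _
  have h3 : (Pi.basisFun G n).toMatrix b * b.toMatrix (Pi.basisFun G n) = 1 :=
    Module.Basis.toMatrix_mul_toMatrix_flip _ _
  refine ⟨b.toMatrix (Pi.basisFun G n), d, ⟨⟨_, _, h2, h3⟩, rfl⟩, ?_⟩
  calc b.toMatrix (Pi.basisFun G n) * s
      = b.toMatrix (Pi.basisFun G n) * s * ((Pi.basisFun G n).toMatrix b *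
          b.toMatrix (Pi.basisFun G n)) := by rw [h3, mul_one]
    _ = b.toMatrix (Pi.basisFun G n) * (s * (Pi.basisFun G n).toMatrix b) *
          b.toMatrix (Pi.basisFun G n) := by simp only [mul_assoc]
    _ = (b.toMatrix (Pi.basisFun G n) * (Pi.basisFun G n).toMatrix b) * Matrix.diagonal d *
          b.toMatrix (Pi.basisFun G n) := by rw [h1]; simp only [mul_assoc]
    _ = _ := by rw [h2, one_mul]

/-- base change of semisimple matrices -/
lemma semisimple_map {k G : Type*} [Field k] [PerfectField k] [Field G] [Algebra k G] {n : Type*} [Fintype n]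
    [DecidableEq n] (s : Matrix n n k) (hs : Module.End.IsSemisimple (Matrix.toLin' s)) :
    Module.End.IsSemisimple (Matrix.toLin' (s.map (algebraMap k G))) := by
  classical
  have h1 : Squarefree (minpoly k s) := by
    have h := hs.minpoly_squarefree
    rwa [Matrix.minpoly_toLin'] at h
  have h2 : (minpoly k s).Separable := PerfectField.separable_iff_squarefree.2 h1
  have h3 : ((minpoly k s).map (algebraMap k G)).Separable := h2.map
  refine Module.End.isSemisimple_of_squarefree_aeval_eq_zero h3.squarefree ?_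
  have h4 : Polynomial.aeval (s.map (algebraMap k G)) ((minpoly k s).map (algebraMap k G)) = 0 := by
    rw [Polynomial.aeval_map_algebraMap]
    have h5 := Polynomial.aeval_algHom_apply ((Algebra.ofId k G).mapMatrix (m := n)) s (minpoly k s)
    rw [minpoly.aeval, map_zero] at h5
    exact h5
  have h5 := Polynomial.aeval_algHom_apply (Matrix.toLinAlgEquiv' (R := G) (n := n)).toAlgHom
    (s.map (algebraMap k G)) ((minpoly k s).map (algebraMap k G))
  rw [h4, map_zero] at h5
  exact h5

end A4

/-- **A4.** -/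
theorem exists_tangent {k : Type*} [Field k] [CharZero k] {n : Type*} [Fintype n] [DecidableEq n]
    (S : Set (Matrix n n k)) (g : Matrix n n k) (hg : IsUnit g) (hS : ∀ y ∈ S, ∀ i : ℕ, y * g ^ i ∈ S) :
    ∃ (ν : Matrix n n k) (q : Polynomial k), ν = Polynomial.aeval g q ∧ IsNilpotent ν ∧ IsTangent S ν ∧
      (ν = 0 → Module.End.IsSemisimple (Matrix.toLin' g)) := by
  classical
  -- the Jordan decomposition
  obtain ⟨n₀, hn₀, s₀, hs₀, hnil, hss, hf⟩ :=
    Module.End.exists_isNilpotent_isSemisimple (f := Matrix.toLin' g)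
  rw [Algebra.adjoin_singleton_eq_range_aeval] at hn₀ hs₀
  obtain ⟨qn, rfl⟩ := hn₀
  obtain ⟨qs, rfl⟩ := hs₀
  have htr : ∀ q : Polynomial k, Polynomial.aeval (Matrix.toLin' g) q =
      Matrix.toLin' (Polynomial.aeval g q) := fun q =>
    Polynomial.aeval_algHom_apply (Matrix.toLinAlgEquiv' (R := k) (n := n)).toAlgHom g q
  have htr' : ∀ q : Polynomial k, (Polynomial.aeval (Matrix.toLin' g)).toRingHom q =
      Matrix.toLin' (Polynomial.aeval g q) := htr
  change IsNilpotent (Polynomial.aeval (Matrix.toLin' g) qn) at hnil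
  change Module.End.IsSemisimple (Polynomial.aeval (Matrix.toLin' g) qs) at hss
  change Matrix.toLin' g = Polynomial.aeval (Matrix.toLin' g) qn +
    Polynomial.aeval (Matrix.toLin' g) qs at hf
  rw [htr] at hnil hss
  rw [htr, htr, ← map_add] at hf
  have hgns : g = Polynomial.aeval g qn + Polynomial.aeval g qs := Matrix.toLin'.injective hf
  obtain ⟨N, hN⟩ : ∃ N : Matrix n n k, N = Polynomial.aeval g qn := ⟨_, rfl⟩
  obtain ⟨s, hs⟩ : ∃ s : Matrix n n k, s = Polynomial.aeval g qs := ⟨_, rfl⟩
  have hNnil : IsNilpotent N := by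
    obtain ⟨m, hm⟩ := hnil
    refine ⟨m, ?_⟩
    rw [← hN] at hm
    have h1 : Matrix.toLin' (N ^ m) = 0 := by
      rw [Matrix.toLin'_pow]; exact hm
    exact Matrix.toLin'.injective (by rw [h1, map_zero])
  rw [← hs] at hss
  rw [← hN, ← hs] at hgns
  have hcomm : ∀ a b : Polynomial k, Commute (Polynomial.aeval g a) (Polynomial.aeval g b) :=
    fun a b => by
      change _ * _ = _ * _
      rw [← map_mul, ← map_mul, mul_comm]
  have hNs : Commute N s := by rw [hN, hs]; exact hcomm _ _
  have hgN : Commute g N := by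
    have h := hcomm Polynomial.X qn
    rwa [Polynomial.aeval_X, ← hN] at h
  -- `s` is invertible
  have hsu : IsUnit s := by
    have h1 : s = g + -N := by rw [hgns]; abel
    rw [h1]
    exact hNnil.neg.isUnit_add_left_of_commute hg (hgN.neg_right).symm
  -- the inverse of `s` is a polynomial in `g`
  obtain ⟨qt, ht⟩ : ∃ qt : Polynomial k, s * Polynomial.aeval g qt = 1 := by
    have hW : ∀ x ∈ LinearMap.range (Polynomial.aeval (R := k) g).toLinearMap,
        LinearMap.mulLeft k s x ∈ LinearMap.range (Polynomial.aeval (R := k) g).toLinearMap := by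
      rintro _ ⟨a, rfl⟩
      refine ⟨qs * a, ?_⟩
      rw [AlgHom.toLinearMap_apply, AlgHom.toLinearMap_apply, map_mul, LinearMap.mulLeft_apply, hs]
    have hinj : Function.Injective ((LinearMap.mulLeft k s).restrict hW) := by
      intro a b hab
      have h1 := congrArg Subtype.val hab
      exact Subtype.ext (hsu.mul_left_cancel h1)
    obtain ⟨⟨_, qt, rfl⟩, hx⟩ := LinearMap.injective_iff_surjective.1 hinj
      ⟨1, 1, by rw [AlgHom.toLinearMap_apply, map_one]⟩
    exact ⟨qt, congrArg Subtype.val hx⟩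
  obtain ⟨t, ht'⟩ : ∃ t : Matrix n n k, t = Polynomial.aeval g qt := ⟨_, rfl⟩
  rw [← ht'] at ht
  have hts : t * s = 1 := by
    have h := hcomm qt qs
    rw [← hs, ← ht'] at h
    rw [h.eq, ht]
  have htN : Commute t N := by rw [ht', hN]; exact hcomm _ _
  obtain ⟨w, hw⟩ : ∃ w : Matrix n n k, w = t * N := ⟨_, rfl⟩
  obtain ⟨qw, hqw⟩ : ∃ qw : Polynomial k, w = Polynomial.aeval g qw :=
    ⟨qt * qn, by rw [hw, ht', hN, map_mul]⟩
  have hwnil : IsNilpotent w := by rw [hw]; exact htN.isNilpotent_mul_left hNnil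
  obtain ⟨u, hu⟩ : ∃ u : Matrix n n k, u = 1 + w := ⟨_, rfl⟩
  have hgu : g = s * u := by
    rw [hu, hw, mul_add, mul_one, ← mul_assoc, ht, one_mul, hgns, add_comm]
  have hcu : s * u = u * s := by
    have h := hcomm qs (1 + qw)
    rw [map_add, map_one, ← hqw, ← hs, ← hu] at h
    exact h.eq
  have hu1 : u - 1 = w := by rw [hu]; abel
  obtain ⟨c, hc⟩ : ∃ c : ℕ → k, c = fun j : ℕ => (-1 : k) ^ (j - 1) / (j : k) := ⟨_, rfl⟩
  refine ⟨∑ j ∈ Finset.Icc 1 (Fintype.card n), c j • (u - 1) ^ j,
    ∑ j ∈ Finset.Icc 1 (Fintype.card n), Polynomial.C (c j) * qw ^ j, ?_, ?_, ?_, ?_⟩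
  · rw [map_sum]
    refine Finset.sum_congr rfl fun j _ => ?_
    rw [map_mul, map_pow, ← hqw, hu1, Polynomial.aeval_C, Algebra.smul_def]
  · rw [hu1]
    have h1 : ∑ j ∈ Finset.Icc 1 (Fintype.card n), c j • w ^ j =
        w * ∑ j ∈ Finset.Icc 1 (Fintype.card n), c j • w ^ (j - 1) := by
      rw [Finset.mul_sum]
      refine Finset.sum_congr rfl fun j hj => ?_
      rw [mul_smul_comm, ← pow_succ', Nat.sub_add_cancel (Finset.mem_Icc.1 hj).1]
    rw [h1]
    refine Commute.isNilpotent_mul_right ?_ hwnil
    exact Commute.sum_right _ _ _ fun j _ => ((Commute.refl w).pow_right _).smul_right _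
  · refine tangent_descent (G := AlgebraicClosure k) S _ ?_
    obtain ⟨P, d, hP, hPs⟩ := A4.diag (s.map (algebraMap k (AlgebraicClosure k)))
      (A4.semisimple_map s hss)
    have hmu : ∀ a b : Matrix n n k, (a * b).map (algebraMap k (AlgebraicClosure k)) =
        a.map (algebraMap k (AlgebraicClosure k)) * b.map (algebraMap k (AlgebraicClosure k)) :=
      fun a b => Matrix.map_mul
    have hpo : ∀ (a : Matrix n n k) (i : ℕ), (a ^ i).map (algebraMap k (AlgebraicClosure k)) =
        a.map (algebraMap k (AlgebraicClosure k)) ^ i :=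
      fun a i => map_pow (algebraMap k (AlgebraicClosure k)).mapMatrix a i
    have hone : (1 : Matrix n n k).map (algebraMap k (AlgebraicClosure k)) = 1 :=
      map_one (algebraMap k (AlgebraicClosure k)).mapMatrix
    have hsub : (u - 1).map (algebraMap k (AlgebraicClosure k)) =
        u.map (algebraMap k (AlgebraicClosure k)) - 1 := by
      rw [← hone]
      exact map_sub (algebraMap k (AlgebraicClosure k)).mapMatrix u 1
    have hd : ∀ a, d a ≠ 0 := by
      have h1 : IsUnit (s.map (algebraMap k (AlgebraicClosure k))) :=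
        hsu.map (algebraMap k (AlgebraicClosure k)).mapMatrix
      have h2 : IsUnit (Matrix.diagonal d) := by
        obtain ⟨Pu, hPu⟩ := hP
        have h3 : Matrix.diagonal d = P * s.map (algebraMap k (AlgebraicClosure k)) *
            (↑Pu⁻¹ : Matrix n n (AlgebraicClosure k)) := by
          rw [hPs, ← hPu, mul_assoc, Units.mul_inv, mul_one]
        rw [h3, ← hPu]
        exact (Pu.isUnit.mul h1).mul Pu⁻¹.isUnit
      rw [Matrix.isUnit_diagonal, Pi.isUnit_iff] at h2
      exact fun a => (h2 a).ne_zero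
    have h1 := tangent_unip ((fun x : Matrix n n k => x.map (algebraMap k (AlgebraicClosure k))) '' S)
      (g.map (algebraMap k (AlgebraicClosure k))) (s.map (algebraMap k (AlgebraicClosure k)))
      (u.map (algebraMap k (AlgebraicClosure k))) P d ?_ ?_ ?_ hd hP hPs ?_
    · have h2 : (∑ j ∈ Finset.Icc 1 (Fintype.card n), c j • (u - 1) ^ j).map
          (algebraMap k (AlgebraicClosure k)) = ∑ j ∈ Finset.Icc 1 (Fintype.card n),
            ((-1) ^ (j - 1) / (j : AlgebraicClosure k)) •
              (u.map (algebraMap k (AlgebraicClosure k)) - 1) ^ j := by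
        have h3 := map_sum (algebraMap k (AlgebraicClosure k)).mapMatrix
          (fun j => c j • (u - 1) ^ j) (Finset.Icc 1 (Fintype.card n))
        refine h3.trans (Finset.sum_congr rfl fun j _ => ?_)
        rw [← hsub, ← hpo]
        ext a b
        rw [RingHom.mapMatrix_apply, Matrix.map_apply, Matrix.smul_apply, Matrix.smul_apply,
          Matrix.map_apply, smul_eq_mul, smul_eq_mul, map_mul, hc]
        congr 1
        simp
      rw [h2]
      exact h1
    · rintro _ ⟨y, hy, rfl⟩ i
      exact ⟨y * g ^ i, hS y hy i, by dsimp only; rw [hmu, hpo]⟩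
    · rw [← hmu, ← hgu]
    · rw [← hmu, ← hmu, hcu]
    · rw [← hsub]
      exact (show IsNilpotent (u - 1) by rw [hu1]; exact hwnil).map
        (algebraMap k (AlgebraicClosure k)).mapMatrix
  · intro hν
    have hN0 : N = 0 := by
      rcases Nat.eq_zero_or_pos (Fintype.card n) with h0 | hpos
      · have : IsEmpty n := Fintype.card_eq_zero_iff.1 h0
        exact Subsingleton.elim _ _
      · rw [hu1] at hν
        have h1 : ∑ j ∈ Finset.Icc 1 (Fintype.card n), c j • w ^ j =
            w * (1 + ∑ j ∈ Finset.Icc 2 (Fintype.card n), c j • w ^ (j - 1)) := by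
          rw [← Finset.add_sum_Ioc_eq_sum_Icc hpos, mul_add, mul_one, Finset.mul_sum]
          congr 1
          · rw [hc]; simp
          · refine Finset.sum_congr rfl fun j hj => ?_
            rw [mul_smul_comm, ← pow_succ', Nat.sub_add_cancel (by
              have := (Finset.mem_Ioc.1 hj).1; omega)]
        have h2 : IsNilpotent (∑ j ∈ Finset.Icc 2 (Fintype.card n), c j • w ^ (j - 1)) := by
          have h3 : ∑ j ∈ Finset.Icc 2 (Fintype.card n), c j • w ^ (j - 1) =
              w * ∑ j ∈ Finset.Icc 2 (Fintype.card n), c j • w ^ (j - 2) := by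
            rw [Finset.mul_sum]
            refine Finset.sum_congr rfl fun j hj => ?_
            rw [mul_smul_comm, ← pow_succ']
            congr 2
            have := (Finset.mem_Icc.1 hj).1
            omega
          rw [h3]
          refine Commute.isNilpotent_mul_right ?_ hwnil
          exact Commute.sum_right _ _ _ fun j _ => ((Commute.refl w).pow_right _).smul_right _
        have h3 : IsUnit (1 + ∑ j ∈ Finset.Icc 2 (Fintype.card n), c j • w ^ (j - 1)) :=
          h2.isUnit_one_add
        rw [h1] at hν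
        have hw0 : w = 0 := by
          have h4 := h3.mul_left_eq_zero.1 hν
          exact h4
        rw [hw] at hw0
        have h5 : s * (t * N) = 0 := by rw [hw0, mul_zero]
        rwa [← mul_assoc, ht, one_mul] at h5
    rw [hgns, hN0, zero_add]
    exact hss

end Pool.Agent.H40ZL
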