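import Mathlib
import Pool.Agent.H40ZL.Defs

/-!
# Stub B: the main computation
-/

set_option autoImplicit false

namespace Pool.Agent.H40ZL

open Matrix

namespace BAux

lemma hmap {R S : Type*} [CommRing R] [CommRing S] (f : R →+* S) {n : Type*} [Fintype n] [DecidableEq n]
    (m : ℕ) (N : Matrix n n R) : (hank m N).map f = hank m (N.map f) := by
  unfold hank
  rw [← Polynomial.coe_mapRingHom, RingHom.map_det]
  congr 1
  ext1 i j
  rw [RingHom.mapMatrix_apply, Matrix.map_apply, Matrix.of_apply, Matrix.of_apply]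
  split_ifs
  · rw [Polynomial.coe_mapRingHom, Polynomial.map_C]
    congr 1
    rw [← RingHom.mapMatrix_apply, ← map_pow, RingHom.mapMatrix_apply, AddMonoidHom.map_trace]
  · rw [Polynomial.coe_mapRingHom, Polynomial.map_pow, Polynomial.map_X]

lemma aeval_map {R S : Type*} [CommRing R] [CommRing S] (φ : R →+* S) {n : Type*} [Fintype n] [DecidableEq n]
    (N : Matrix n n R) (f : Polynomial R) :
    (Polynomial.aeval N f).map φ = Polynomial.aeval (N.map φ) (f.map φ) := by
  rw [← RingHom.mapMatrix_apply, ← RingHom.mapMatrix_apply, Polynomial.aeval_def, Polynomial.aeval_def,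
    Polynomial.hom_eval₂, Polynomial.eval₂_map]
  congr 1
  ext r i j
  rw [RingHom.comp_apply, RingHom.comp_apply, RingHom.mapMatrix_apply, Matrix.map_apply,
    Matrix.algebraMap_matrix_apply, Matrix.algebraMap_matrix_apply]
  split_ifs
  · rfl
  · exact map_zero φ

section der

variable {R : Type*} [CommRing R] {n : Type*} [Fintype n] [DecidableEq n]

omit [DecidableEq n] in
lemma dmul (D : Derivation ℤ R R) (A B : Matrix n n R) :
    (A * B).map D = A.map D * B + A * B.map D := by
  ext i j
  rw [Matrix.map_apply, Matrix.mul_apply, map_sum, Matrix.add_apply, Matrix.mul_apply, Matrix.mul_apply,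
    ← Finset.sum_add_distrib]
  apply Finset.sum_congr rfl
  intro l _
  rw [Derivation.leibniz, Matrix.map_apply, Matrix.map_apply, smul_eq_mul, smul_eq_mul]
  ring

omit [Fintype n] in
lemma done (D : Derivation ℤ R R) : (1 : Matrix n n R).map D = 0 := by
  ext i j
  rw [Matrix.map_apply, Matrix.one_apply]
  split_ifs
  · simp
  · simp

lemma dpow (D : Derivation ℤ R R) (M Y : Matrix n n R) (hY : M.map D = Y) (i : ℕ) : ∀ a : ℕ,
    Matrix.trace ((M ^ i).map D * M ^ a) = i * Matrix.trace (M ^ (i - 1 + a) * Y) := by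
  induction i with
  | zero =>
    intro a
    rw [pow_zero, done, Matrix.zero_mul, Matrix.trace_zero, Nat.cast_zero, zero_mul]
  | succ i ih =>
    intro a
    rw [pow_succ, dmul, hY, Matrix.add_mul, Matrix.trace_add, Matrix.mul_assoc, ← pow_succ' M a, ih (a + 1)]
    have h1 : Matrix.trace (M ^ i * Y * M ^ a) = Matrix.trace (M ^ (i + a) * Y) := by
      rw [Matrix.trace_mul_comm, ← Matrix.mul_assoc, ← pow_add, add_comm a i]
    rw [h1, Nat.add_sub_cancel]
    rcases Nat.eq_zero_or_pos i with rfl | hi
    · simp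
    · have h2 : i - 1 + (a + 1) = i + a := by omega
      rw [h2]
      push_cast
      ring

lemma dtrace (D : Derivation ℤ R R) (δ : Derivation ℤ (Polynomial R) (Polynomial R))
    (hδ : ∀ p i, (δ p).coeff i = D (p.coeff i)) (M Y : Matrix n n R) (hY : M.map D = Y) (f : Polynomial R) :
    D (Matrix.trace (Polynomial.aeval M f)) = Matrix.trace (Polynomial.aeval M (δ f)) +
      Matrix.trace (Polynomial.aeval M (Polynomial.derivative f) * Y) := by
  induction f using Polynomial.induction_on' with
  | add p q hp hq =>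
    rw [map_add, Matrix.trace_add, map_add, hp, hq, map_add, map_add, Matrix.trace_add, Polynomial.derivative_add,
      map_add, Matrix.add_mul, Matrix.trace_add]
    ring
  | monomial i c =>
    have h1 : δ (Polynomial.monomial i c) = Polynomial.monomial i (D c) := by
      ext j
      rw [hδ, Polynomial.coeff_monomial, Polynomial.coeff_monomial]
      split_ifs
      · rfl
      · exact map_zero D
    have h2 : ∀ (i : ℕ) (c : R), Polynomial.aeval M (Polynomial.monomial i c) = c • M ^ i := by
      intro i c
      rw [Polynomial.aeval_monomial, Algebra.smul_def]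
    have h3 : D (Matrix.trace (M ^ i)) = i * Matrix.trace (M ^ (i - 1) * Y) := by
      have h4 := dpow D M Y hY i 0
      rw [pow_zero, Matrix.mul_one, add_zero] at h4
      rw [← h4]
      unfold Matrix.trace
      rw [map_sum]
      rfl
    rw [h1, h2, h2, Polynomial.derivative_monomial, h2, Matrix.trace_smul, Matrix.trace_smul, Matrix.smul_mul,
      Matrix.trace_smul, smul_eq_mul, smul_eq_mul, smul_eq_mul, Derivation.leibniz, smul_eq_mul, smul_eq_mul, h3]
    ring

end der

end BAux

/-- **B.** (the main computation) Let `S` be a set of invertible matrices, `Q x := hank m x`, such that `Q x (x)` is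
nilpotent for all `x ∈ S`, and let `X` be tangent to `S`.  Let `g ∈ S` be such that `Q g` is separable.  Then
`tr (q(g) X) = 0` for all `q ∈ k[T]` divisible by `Q g`. -/
theorem trace_orth {k : Type*} [Field k] [CharZero k] {n : Type*} [Fintype n] [DecidableEq n] (m : ℕ)
    (S : Set (Matrix n n k)) (hS : ∀ x ∈ S, IsNilpotent (Polynomial.aeval x (hank m x))) (X : Matrix n n k)
    (hX : IsTangent S X) (g : Matrix n n k) (hg : g ∈ S) (hu : IsUnit g) (hsep : (hank m g).Separable)
    (q : Polynomial k) (hq : hank m g ∣ q) : Matrix.trace (Polynomial.aeval g q * X) = 0 := by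
  classical
  set M : Matrix n n (MvPolynomial (n × n) k) := Matrix.mvPolynomialX n n k with hM
  set Dk : Derivation k (MvPolynomial (n × n) k) (MvPolynomial (n × n) k) := genD X with hDk
  let D : Derivation ℤ (MvPolynomial (n × n) k) (MvPolynomial (n × n) k) := Dk.restrictScalars ℤ
  have hD : ∀ P, D P = genD X P := fun P => rfl
  have hMx : ∀ x : Matrix n n k, M.map (evm x : MvPolynomial (n × n) k →+* k) = x := by
    intro x
    ext i j
    rw [Matrix.map_apply, hM, Matrix.mvPolynomialX_apply]
    unfold evm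
    simp
  obtain ⟨δ, hδ⟩ : ∃ δ : Derivation ℤ (Polynomial (MvPolynomial (n × n) k)) (Polynomial (MvPolynomial (n × n) k)), ∀ p i, (δ p).coeff i = D (p.coeff i) := by
    let _ : Differential (MvPolynomial (n × n) k) := ⟨D⟩
    exact ⟨Differential.mapCoeffs, fun p i => rfl⟩
  have hY : M.map D = M * X.map (MvPolynomial.C : k →+* MvPolynomial (n × n) k) := by
    ext1 i j
    rw [Matrix.map_apply, hD, hM, Matrix.mvPolynomialX_apply, Matrix.mul_apply]
    unfold genD
    rw [MvPolynomial.mkDerivation_X]
    rfl
  set 𝒬 : Polynomial (MvPolynomial (n × n) k) := hank m M with h𝒬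
  have hQx : ∀ x : Matrix n n k, 𝒬.map (evm x : MvPolynomial (n × n) k →+* k) = hank m x := by
    intro x
    rw [h𝒬, BAux.hmap, hMx]
  set Q := hank m g with hQ
  -- traces of nilpotent elements
  have htr0 : ∀ (x : Matrix n n k) (a b : Polynomial k), IsNilpotent (Polynomial.aeval x a) →
      Matrix.trace (Polynomial.aeval x (a * b)) = 0 := by
    intro x a b ha
    have h1 : IsNilpotent (Polynomial.aeval x (a * b)) := by
      rw [map_mul]
      apply Commute.isNilpotent_mul_right _ ha
      show Polynomial.aeval x a * Polynomial.aeval x b = Polynomial.aeval x b * Polynomial.aeval x a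
      rw [← map_mul, ← map_mul, mul_comm]
    exact (Matrix.isNilpotent_trace_of_isNilpotent h1).eq_zero
  have hnil : ∀ x ∈ S, ∀ (j : ℕ) (b : Polynomial k),
      Matrix.trace (Polynomial.aeval x (hank m x ^ (j + 1) * b)) = 0 := by
    intro x hx j b
    apply htr0
    rw [map_pow]
    exact (hS x hx).pow_succ j
  -- (*)
  have hstar : ∀ (j : ℕ) (h : Polynomial k), 1 ≤ j →
      Matrix.trace (Polynomial.aeval g (Polynomial.derivative (Q ^ (j + 1) * h)) * (g * X)) = 0 := by
    intro j h hj
    set ht : Polynomial (MvPolynomial (n × n) k) := h.map (MvPolynomial.C : k →+* MvPolynomial (n × n) k) with hht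
    have hhx : ∀ x : Matrix n n k, ht.map (evm x : MvPolynomial (n × n) k →+* k) = h := by
      intro x
      rw [hht, Polynomial.map_map]
      have : ((evm x : MvPolynomial (n × n) k →+* k).comp (MvPolynomial.C : k →+* MvPolynomial (n × n) k)) = RingHom.id k := by
        ext c
        simp [evm]
      rw [this, Polynomial.map_id]
    have h1 : ∀ x ∈ S, evm x (Matrix.trace (Polynomial.aeval M (𝒬 ^ (j + 1) * ht))) = 0 := by
      intro x hx
      have h2 : evm x (Matrix.trace (Polynomial.aeval M (𝒬 ^ (j + 1) * ht))) =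
          Matrix.trace ((Polynomial.aeval M (𝒬 ^ (j + 1) * ht)).map (evm x : MvPolynomial (n × n) k →+* k)) :=
        AddMonoidHom.map_trace (evm x : MvPolynomial (n × n) k →+* k) _
      rw [h2, BAux.aeval_map, hMx, Polynomial.map_mul, Polynomial.map_pow, hQx, hhx]
      exact hnil x hx j h
    have h3 := (congrArg (evm g) (BAux.dtrace D δ hδ M _ hY (𝒬 ^ (j + 1) * ht))).symm.trans (hX _ h1 g hg)
    rw [map_add] at h3
    have h4 : evm g (Matrix.trace (Polynomial.aeval M (δ (𝒬 ^ (j + 1) * ht)))) = 0 := by
      have h5 : δ ht = 0 := by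
        ext i
        rw [hδ, hht, Polynomial.coeff_map, hD]
        simp
      have h6 : δ (𝒬 ^ (j + 1) * ht) = 𝒬 ^ j * ((j + 1 : ℕ) * δ 𝒬 * ht) := by
        rw [Derivation.leibniz, h5, smul_zero, zero_add, Derivation.leibniz_pow, Nat.add_sub_cancel, nsmul_eq_mul,
          smul_eq_mul, smul_eq_mul]
        ring
      have h2 : evm g (Matrix.trace (Polynomial.aeval M (δ (𝒬 ^ (j + 1) * ht)))) =
          Matrix.trace ((Polynomial.aeval M (δ (𝒬 ^ (j + 1) * ht))).map (evm g : MvPolynomial (n × n) k →+* k)) :=
        AddMonoidHom.map_trace (evm g : MvPolynomial (n × n) k →+* k) _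
      obtain ⟨j', rfl⟩ : ∃ j', j = j' + 1 := ⟨j - 1, by omega⟩
      rw [h2, BAux.aeval_map, hMx, h6, Polynomial.map_mul, Polynomial.map_pow, hQx]
      exact hnil g hg j' _
    have h7 : evm g (Matrix.trace (Polynomial.aeval M (Polynomial.derivative (𝒬 ^ (j + 1) * ht)) *
        (M * X.map (MvPolynomial.C : k →+* MvPolynomial (n × n) k)))) =
        Matrix.trace (Polynomial.aeval g (Polynomial.derivative (Q ^ (j + 1) * h)) * (g * X)) := by
      have h2 : evm g (Matrix.trace (Polynomial.aeval M (Polynomial.derivative (𝒬 ^ (j + 1) * ht)) *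
          (M * X.map (MvPolynomial.C : k →+* MvPolynomial (n × n) k)))) =
          Matrix.trace ((Polynomial.aeval M (Polynomial.derivative (𝒬 ^ (j + 1) * ht)) *
          (M * X.map (MvPolynomial.C : k →+* MvPolynomial (n × n) k))).map (evm g : MvPolynomial (n × n) k →+* k)) :=
        AddMonoidHom.map_trace (evm g : MvPolynomial (n × n) k →+* k) _
      have h8 : (X.map (MvPolynomial.C : k →+* MvPolynomial (n × n) k)).map (evm g : MvPolynomial (n × n) k →+* k) = X := by
        ext i j
        simp [evm]
      rw [h2, Matrix.map_mul, Matrix.map_mul, BAux.aeval_map, hMx, h8, ← Polynomial.derivative_map,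
        Polynomial.map_mul, Polynomial.map_pow, hQx, hhx]
    have h9 : evm g (Matrix.trace (Polynomial.aeval M (δ (𝒬 ^ (j + 1) * ht)))) +
        evm g (Matrix.trace (Polynomial.aeval M (Polynomial.derivative (𝒬 ^ (j + 1) * ht)) *
        (M * X.map (MvPolynomial.C : k →+* MvPolynomial (n × n) k)))) = 0 := h3
    rw [h4, zero_add, h7] at h9
    exact h9
  -- the claim
  obtain ⟨N, hN⟩ := hS g hg
  have hclaim : ∀ d : ℕ, ∀ j : ℕ, 1 ≤ j → N ≤ j + d → ∀ h : Polynomial k,
      Matrix.trace (Polynomial.aeval g (Q ^ j * h) * (g * X)) = 0 := by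
    intro d
    induction d with
    | zero =>
      intro j _ hj h
      rw [map_mul, map_pow, pow_eq_zero_of_le (by omega) hN, zero_mul, Matrix.zero_mul, Matrix.trace_zero]
    | succ d ih =>
      intro j hj hjd h
      obtain ⟨a, b, hab⟩ := hsep
      have h1 := hstar j (b * h) hj
      have h2 : Polynomial.derivative (Q ^ (j + 1) * (b * h)) = (((j + 1 : ℕ) : k)) • (Q ^ j * h) +
          Q ^ (j + 1) * (Polynomial.derivative (b * h) - ((j + 1 : ℕ) : Polynomial k) * a * h) := by
        rw [Polynomial.derivative_mul, Polynomial.derivative_pow, Nat.add_sub_cancel, Polynomial.smul_eq_C_mul,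
          Polynomial.C_eq_natCast]
        linear_combination (((j + 1 : ℕ) : Polynomial k) * Q ^ j * h) * hab
      have h3 := ih (j + 1) (by omega) (by omega)
        (Polynomial.derivative (b * h) - ((j + 1 : ℕ) : Polynomial k) * a * h)
      rw [h2, map_add, map_smul, Matrix.add_mul, Matrix.trace_add, h3, add_zero, Matrix.smul_mul,
        Matrix.trace_smul, smul_eq_mul] at h1
      exact (mul_eq_zero.1 h1).resolve_left (by exact_mod_cast (Nat.succ_ne_zero j))
  -- the inverse
  obtain ⟨c, hc⟩ : ∃ c : Polynomial k, Polynomial.aeval g c * g = 1 := by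
    have h1 := Matrix.aeval_self_charpoly g
    have h0 : g.charpoly.coeff 0 ≠ 0 := by
      intro h0
      have h2 := Matrix.det_eq_sign_charpoly_coeff g
      rw [h0, mul_zero] at h2
      exact ((Matrix.isUnit_iff_isUnit_det g).1 hu).ne_zero h2
    refine ⟨Polynomial.C (-(g.charpoly.coeff 0)⁻¹) * g.charpoly.divX, ?_⟩
    rw [← Polynomial.divX_mul_X_add g.charpoly, map_add, map_mul, Polynomial.aeval_X, Polynomial.aeval_C] at h1
    rw [map_mul, Polynomial.aeval_C, mul_assoc, eq_neg_of_add_eq_zero_left h1, mul_neg, ← map_mul, ← map_neg]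
    rw [neg_mul, neg_neg, inv_mul_cancel₀ h0, map_one]
  obtain ⟨q₁, rfl⟩ := hq
  have h1 := hclaim N 1 le_rfl (by omega) (q₁ * c)
  have e1 : Q * (q₁ * c) = (Q * q₁) * c := by ring
  rw [pow_one, e1, map_mul (Polynomial.aeval g) (Q * q₁) c, Matrix.mul_assoc, ← Matrix.mul_assoc _ g X, hc,
    Matrix.one_mul] at h1
  exact h1

end Pool.Agent.H40ZL
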