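import Mathlib
import Pool.Agent.H40ZL.Defs

/-! # Stub H1: `hank` commutes with ring homomorphisms -/

set_option autoImplicit false

namespace Pool.Agent.H40ZL

open Matrix

theorem hank_map {R S : Type*} [CommRing R] [CommRing S] (f : R →+* S) {n : Type*} [Fintype n] [DecidableEq n] (m : ℕ)
    (N : Matrix n n R) : (hank m N).map f = hank m (N.map f) := by
  unfold hank
  rw [← Polynomial.coe_mapRingHom, RingHom.map_det]
  congr 1
  ext i j : 2
  rw [RingHom.mapMatrix_apply, Matrix.map_apply, Matrix.of_apply, Matrix.of_apply]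
  split_ifs with h
  · rw [Polynomial.coe_mapRingHom, Polynomial.map_C]
    congr 1
    have h1 : (N.map f) ^ ((i : ℕ) + (j : ℕ)) = (N ^ ((i : ℕ) + (j : ℕ))).map f := by
      have := map_pow f.mapMatrix N ((i : ℕ) + (j : ℕ))
      rw [RingHom.mapMatrix_apply, RingHom.mapMatrix_apply] at this
      exact this.symm
    rw [h1, Matrix.trace, Matrix.trace, map_sum]
    rfl
  · rw [Polynomial.coe_mapRingHom, Polynomial.map_pow, Polynomial.map_X]

end Pool.Agent.H40ZL
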