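import Mathlib
import Pool.Agent.H40ZL.Defs

/-! # Stub H2: the Hankel polynomial as a product -/

set_option autoImplicit false

namespace Pool.Agent.H40ZL

open Matrix

theorem H2_prod {A : Type*} [CommMonoid A] {m : ℕ} (f : Fin (m + 1) → A) (i : Fin m) :
    ∏ j ∈ Finset.Ioi (Fin.castSucc i), f j = (∏ j ∈ Finset.Ioi i, f (Fin.castSucc j)) * f (Fin.last m) := by
  have e1 : Finset.Ioi (Fin.castSucc i) = Finset.univ.filter (fun j => Fin.castSucc i < j) := by ext; simp
  have e2 : Finset.Ioi i = Finset.univ.filter (fun j => i < j) := by ext; simp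
  rw [e1, e2, Finset.prod_filter, Finset.prod_filter, Fin.prod_univ_castSucc]
  simp [Fin.castSucc_lt_castSucc_iff, Fin.castSucc_lt_last]

theorem H2_vdm {R : Type*} [CommRing R] {m : ℕ} (x : Fin m → R) :
    (Matrix.vandermonde (Fin.snoc (fun l => Polynomial.C (x l)) Polynomial.X : Fin (m + 1) → Polynomial R)).det =
      Polynomial.C (Matrix.vandermonde x).det * ∏ l, (Polynomial.X - Polynomial.C (x l)) := by
  rw [Matrix.det_vandermonde, Matrix.det_vandermonde, Fin.prod_univ_castSucc]
  have h2 : ∏ j ∈ Finset.Ioi (Fin.last m),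
      ((Fin.snoc (fun l => Polynomial.C (x l)) Polynomial.X : Fin (m + 1) → Polynomial R) j
        - (Fin.snoc (fun l => Polynomial.C (x l)) Polynomial.X : Fin (m + 1) → Polynomial R) (Fin.last m)) = 1 := by
    have : Finset.Ioi (Fin.last m) = ∅ := by
      ext j
      simp [Fin.le_last]
    rw [this, Finset.prod_empty]
  rw [h2, mul_one, map_prod, ← Finset.prod_mul_distrib]
  refine Finset.prod_congr rfl fun i _ => ?_
  rw [H2_prod, map_prod]
  simp [Fin.snoc_castSucc, Fin.snoc_last]

/-- the left factor -/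
noncomputable def H2_B {R : Type*} [CommRing R] {m : ℕ} (x μ : Fin m → R) :
    Matrix (Fin (m + 1)) (Fin (m + 1)) (Polynomial R) :=
  Matrix.of fun i l => Fin.lastCases (motive := fun _ => Polynomial R)
    (Fin.lastCases (motive := fun _ => Polynomial R) 1 (fun _ => 0) l)
    (fun i' => Fin.lastCases (motive := fun _ => Polynomial R) 0
      (fun l' => Polynomial.C (μ l' * x l' ^ (i' : ℕ))) l) i

theorem H2_detB {R : Type*} [CommRing R] {m : ℕ} (x μ : Fin m → R) :
    (H2_B x μ).det = Polynomial.C ((∏ l, μ l) * (Matrix.vandermonde x).det) := by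
  rw [Matrix.det_succ_row (H2_B x μ) (Fin.last m), Fin.sum_univ_castSucc, Finset.sum_eq_zero, zero_add]
  · have h1 : (H2_B x μ).submatrix (Fin.last m).succAbove (Fin.last m).succAbove =
        (Polynomial.C : R →+* Polynomial R).mapMatrix ((Matrix.vandermonde x)ᵀ * Matrix.diagonal μ) := by
      refine Matrix.ext fun i l => ?_
      rw [Matrix.submatrix_apply, Fin.succAbove_last, RingHom.mapMatrix_apply, Matrix.map_apply,
        Matrix.mul_diagonal, Matrix.transpose_apply, Matrix.vandermonde_apply]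
      simp [H2_B, mul_comm]
    rw [h1, ← RingHom.map_det, Matrix.det_mul, Matrix.det_transpose, Matrix.det_diagonal]
    have h2 : H2_B x μ (Fin.last m) (Fin.last m) = 1 := by simp [H2_B]
    rw [h2, mul_one, mul_comm (Matrix.vandermonde x).det]
    have h3 : ((-1 : Polynomial R)) ^ ((Fin.last m : ℕ) + (Fin.last m : ℕ)) = 1 := by
      rw [← two_mul, pow_mul]; simp
    rw [h3, one_mul]
  · intro l _
    have h2 : H2_B x μ (Fin.last m) (Fin.castSucc l) = 0 := by simp [H2_B]
    rw [h2]; ring

theorem hank_eq {R : Type*} [CommRing R] {n : Type*} [Fintype n] [DecidableEq n] (m : ℕ) (N : Matrix n n R)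
    (x μ : Fin m → R) (h : ∀ j : ℕ, Matrix.trace (N ^ j) = ∑ l, μ l * x l ^ j) :
    hank m N = Polynomial.C ((∏ l, μ l) * (Matrix.vandermonde x).det ^ 2) *
      ∏ l, (Polynomial.X - Polynomial.C (x l)) := by
  have hAB : (Matrix.of fun i j : Fin (m + 1) =>
      if (i : ℕ) < m then Polynomial.C (Matrix.trace (N ^ ((i : ℕ) + (j : ℕ)))) else Polynomial.X ^ (j : ℕ)) =
      H2_B x μ * Matrix.vandermonde
        (Fin.snoc (fun l => Polynomial.C (x l)) Polynomial.X : Fin (m + 1) → Polynomial R) := by
    refine Matrix.ext fun i j => ?_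
    rw [Matrix.of_apply, Matrix.mul_apply, Fin.sum_univ_castSucc]
    refine Fin.lastCases ?_ (fun i' => ?_) i
    · rw [if_neg (by simp)]
      simp [H2_B, Matrix.vandermonde_apply]
    · rw [if_pos (by simp), h]
      simp only [H2_B, Matrix.of_apply, Fin.lastCases_castSucc, Fin.lastCases_last, zero_mul, add_zero,
        Matrix.vandermonde_apply, Fin.snoc_castSucc, map_sum]
      refine Finset.sum_congr rfl fun l _ => ?_
      rw [Fin.val_castSucc, pow_add, ← mul_assoc, map_mul, map_pow]
  unfold hank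
  rw [hAB, Matrix.det_mul, H2_detB, H2_vdm, ← mul_assoc, ← map_mul]
  congr 2
  ring

end Pool.Agent.H40ZL
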