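import Mathlib
import Pool.Agent.H40ZL.Defs

/-!
# Stub H3: distinct nodes with multiplicities
-/

set_option autoImplicit false

namespace Pool.Agent.H40ZL

section H3

open Polynomial

variable {K : Type*} [Field K] [IsAlgClosed K]

variable {n : Type*} [Fintype n] [DecidableEq n]

theorem H3_card_roots' (A : Matrix n n K) : A.charpoly.roots.card = Fintype.card n := by
  rw [← Matrix.charpoly_natDegree_eq_dim A]
  exact (Polynomial.splits_iff_card_roots.1 (IsAlgClosed.splits A.charpoly))

omit [IsAlgClosed K] in
theorem H3_prod_flip (s : Multiset K) (μ : K) :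
    (-1) ^ s.card * (s.map fun l => μ - l).prod = (s.map fun l => l - μ).prod := by
  induction s using Multiset.induction_on with
  | empty => simp
  | cons a s ih =>
    rw [Multiset.card_cons, Multiset.map_cons, Multiset.map_cons, Multiset.prod_cons,
      Multiset.prod_cons, ← ih]
    ring

theorem H3_det_lin (A : Matrix n n K) (μ : K) :
    (aeval A (X - C μ)).det = (A.charpoly.roots.map fun l => (X - C μ : K[X]).eval l).prod := by
  have h1 : aeval A (X - C μ) = -(Matrix.scalar n μ - A) := by
    rw [map_sub, aeval_X, aeval_C, neg_sub]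
    rfl
  rw [h1, Matrix.det_neg, ← Matrix.eval_charpoly,
    (IsAlgClosed.splits A.charpoly).eval_eq_prod_roots_of_monic A.charpoly_monic μ,
    ← H3_card_roots' A]
  simp only [eval_sub, eval_X, eval_C]
  exact H3_prod_flip _ _

omit [IsAlgClosed K] in
theorem H3_det_mul' (A : Matrix n n K) (f g : K[X])
    (hf : (aeval A f).det = (A.charpoly.roots.map fun l => f.eval l).prod)
    (hg : (aeval A g).det = (A.charpoly.roots.map fun l => g.eval l).prod) :
    (aeval A (f * g)).det = (A.charpoly.roots.map fun l => (f * g).eval l).prod := by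
  rw [map_mul, Matrix.det_mul, hf, hg, ← Multiset.prod_map_mul]
  simp only [eval_mul]

theorem H3_det_monic (A : Matrix n n K) (f : K[X]) (hf : f.Monic) :
    (aeval A f).det = (A.charpoly.roots.map fun l => f.eval l).prod := by
  have h1 : ∀ s : Multiset K, (aeval A (s.map fun a => X - C a).prod).det =
      (A.charpoly.roots.map fun l => ((s.map fun a => X - C a).prod : K[X]).eval l).prod := by
    intro s
    induction s using Multiset.induction_on with
    | empty => simp
    | cons a s ih =>
      rw [Multiset.map_cons, Multiset.prod_cons]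
      exact H3_det_mul' A _ _ (H3_det_lin A a) ih
  have h2 := (IsAlgClosed.splits f).eq_prod_roots_of_monic hf
  rw [h2]
  exact h1 _

theorem H3_charpoly_pow [CharZero K] (A : Matrix n n K) (k : ℕ) (hk : k ≠ 0) :
    (A ^ k).charpoly = (A.charpoly.roots.map fun l => X - C (l ^ k)).prod := by
  refine Polynomial.funext fun x => ?_
  have h1 : Matrix.scalar n x - A ^ k = -(aeval A (X ^ k - C x)) := by
    rw [map_sub, map_pow, aeval_X, aeval_C, neg_sub]
    rfl
  rw [Matrix.eval_charpoly, h1, Matrix.det_neg, H3_det_monic A _ (monic_X_pow_sub_C x hk),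
    ← H3_card_roots' A, eval_multiset_prod, Multiset.map_map]
  simp only [Function.comp_def, eval_sub, eval_X, eval_C, eval_pow]
  have h2 := H3_prod_flip (A.charpoly.roots.map fun l => l ^ k) x
  rw [Multiset.card_map, Multiset.map_map, Multiset.map_map] at h2
  simp only [Function.comp_def] at h2
  rw [← h2, ← mul_assoc, ← pow_add, ← two_mul, pow_mul]
  norm_num

theorem H3_trace_pow [CharZero K] (A : Matrix n n K) (k : ℕ) :
    (A ^ k).trace = (A.charpoly.roots.map fun l => l ^ k).sum := by
  rcases Nat.eq_zero_or_pos k with hk | hk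
  · subst hk
    simp only [pow_zero, Multiset.map_const', Multiset.sum_replicate, H3_card_roots',
      Matrix.trace_one, nsmul_eq_mul, mul_one]
  · rw [Matrix.trace_eq_sum_roots_charpoly, H3_charpoly_pow A k hk.ne']
    have h1 : (A.charpoly.roots.map fun l => X - C (l ^ k)).prod =
        ((A.charpoly.roots.map fun l => l ^ k).map fun a => X - C a).prod := by
      rw [Multiset.map_map]
      rfl
    rw [h1, Polynomial.roots_multiset_prod_X_sub_C]

end H3

open Matrix

/-- **H3.** -/
theorem exists_nodes {G : Type*} [Field G] [IsAlgClosed G] [CharZero G] {n : Type*} [Fintype n] [DecidableEq n]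
    (N : Matrix n n G) (m : ℕ) (h : nd G N ≤ m) : ∃ (x : Fin m → G) (μ : Fin m → ℕ), Function.Injective x ∧
      N.charpoly = ∏ l, (Polynomial.X - Polynomial.C (x l)) ^ μ l ∧
      ∀ j : ℕ, Matrix.trace (N ^ j) = ∑ l, (μ l : G) * x l ^ j := by
  classical
  have h' : N.charpoly.roots.toFinset.card ≤ m := by
    refine le_trans (le_of_eq ?_) h
    unfold nd
    rw [Algebra.algebraMap_self, Polynomial.map_id]
  obtain ⟨t, hst, htm⟩ := Infinite.exists_superset_card_eq N.charpoly.roots.toFinset m h'
  have hcount : ∀ a ∈ t, a ∉ N.charpoly.roots.toFinset → N.charpoly.roots.count a = 0 := by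
    intro a _ ha
    rw [Multiset.mem_toFinset] at ha
    exact Multiset.count_eq_zero_of_notMem ha
  let e : t ≃ Fin m := t.equivFinOfCardEq htm
  have hprod : ∀ {M : Type _} [CommMonoid M] (f : G → M), ∏ l, f (e.symm l : G) = ∏ a ∈ t, f a := by
    intro M _ f
    rw [← Finset.prod_coe_sort t f]
    exact e.symm.prod_comp (fun a : t => f a)
  have hsum : ∀ (f : G → G), ∑ l, f (e.symm l : G) = ∑ a ∈ t, f a := by
    intro f
    rw [← Finset.sum_coe_sort t f]
    exact e.symm.sum_comp (fun a : t => f a)
  refine ⟨fun l => (e.symm l : G), fun l => N.charpoly.roots.count (e.symm l : G), ?_, ?_, ?_⟩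
  · intro a b hab
    exact e.symm.injective (Subtype.ext hab)
  · rw [hprod (fun a => (Polynomial.X - Polynomial.C a) ^ N.charpoly.roots.count a)]
    conv_lhs => rw [(IsAlgClosed.splits N.charpoly).eq_prod_roots_of_monic N.charpoly_monic]
    rw [Finset.prod_multiset_map_count]
    refine Finset.prod_subset hst fun a ha ha' => ?_
    rw [hcount a ha ha', pow_zero]
  · intro j
    rw [hsum (fun a => (N.charpoly.roots.count a : G) * a ^ j), H3_trace_pow, Finset.sum_multiset_map_count]
    simp only [nsmul_eq_mul]
    refine Finset.sum_subset hst fun a ha ha' => ?_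
    rw [hcount a ha ha', Nat.cast_zero, zero_mul]

end Pool.Agent.H40ZL
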