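import Mathlib
import Pool.Agent.H40ZL.Defs

/-!
Project ZL: common lemmas for the stubs H4, H5, H6 (helper19).
-/

set_option autoImplicit false

namespace Pool.Agent.H40ZL

open Matrix

namespace H456

/-- the shape of `hank` and the characteristic polynomial over the algebraically closed field -/
def Shape {k G : Type*} [Field k] [Field G] [Algebra k G] {n : Type*} [Fintype n] [DecidableEq n]
    (N : Matrix n n k) (m : ℕ) (x : Fin m → G) (μ : Fin m → ℕ) : Prop :=
  Function.Injective x ∧ (N.map (algebraMap k G)).charpoly =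
      ∏ l, (Polynomial.X - Polynomial.C (x l)) ^ μ l ∧
    (hank m N).map (algebraMap k G) = Polynomial.C ((∏ l, (μ l : G)) * (Matrix.vandermonde x).det ^ 2) *
      ∏ l, (Polynomial.X - Polynomial.C (x l))

theorem nd_map {k G : Type*} [Field k] [Field G] [Algebra k G] {n : Type*} [Fintype n] [DecidableEq n]
    (N : Matrix n n k) : nd G (N.map (algebraMap k G)) = nd G N := by
  unfold nd
  simp only [Matrix.charpoly_map, Algebra.algebraMap_self, Polynomial.map_id]

theorem nilp {k G : Type*} [Field k] [Field G] [Algebra k G] {n : Type*} [Fintype n]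
    [DecidableEq n] {N : Matrix n n k} {m : ℕ} {x : Fin m → G} {μ : Fin m → ℕ} (h : Shape N m x μ) :
    IsNilpotent (Polynomial.aeval N (hank m N)) := by
  obtain ⟨hx, hc, hh⟩ := h
  set f := algebraMap k G with hf
  have h1 : IsNilpotent (Polynomial.aeval (N.map f) (∏ l, (Polynomial.X - Polynomial.C (x l)))) := by
    refine ⟨∑ l, μ l, ?_⟩
    have h2 : (N.map f).charpoly ∣ (∏ l, (Polynomial.X - Polynomial.C (x l))) ^ (∑ l, μ l) := by
      rw [hc, ← Finset.prod_pow]
      refine Finset.prod_dvd_prod_of_dvd _ _ fun l _ => ?_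
      exact pow_dvd_pow _ (Finset.single_le_sum (f := μ) (fun _ _ => Nat.zero_le _) (Finset.mem_univ l))
    obtain ⟨r, hr⟩ := h2
    rw [← map_pow, hr, map_mul, Matrix.aeval_self_charpoly, zero_mul]
  have h3 : IsNilpotent (Polynomial.aeval (N.map f) ((hank m N).map f)) := by
    rw [hh, map_mul]
    refine Commute.isNilpotent_mul_left ?_ h1
    rw [commute_iff_eq, ← map_mul, mul_comm, map_mul]
  have h4 : Polynomial.aeval (N.map f) ((hank m N).map f) =
      (Polynomial.aeval N (hank m N)).map f := by
    have := Polynomial.aeval_algHom_apply ((Algebra.ofId k G).mapMatrix (m := n)) N (hank m N)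
    rw [Polynomial.aeval_map_algebraMap]
    exact this
  obtain ⟨j, hj⟩ := h3
  refine ⟨j, ?_⟩
  rw [h4] at hj
  have h5 : ((Polynomial.aeval N (hank m N)) ^ j).map f = 0 := by
    rw [← hj]
    exact map_pow (f.mapMatrix) _ _
  ext a b
  have h6 := congrFun (congrFun h5 a) b
  simp only [Matrix.map_apply, Matrix.zero_apply] at h6
  simpa using h6

theorem mu_ne {k G : Type*} [Field k] [Field G] [Algebra k G] {n : Type*} [Fintype n]
    [DecidableEq n] {N : Matrix n n k} {m : ℕ} {x : Fin m → G} {μ : Fin m → ℕ} (h : Shape N m x μ)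
    (hn : nd G N = m) (l : Fin m) : μ l ≠ 0 := by
  classical
  obtain ⟨hx, hc, hh⟩ := h
  intro h0
  have h1 : (N.charpoly.map (algebraMap k G)).roots.toFinset ⊆
      (Finset.univ.erase l).image x := by
    intro y hy
    rw [Multiset.mem_toFinset, Polynomial.mem_roots', ← Matrix.charpoly_map, hc, Polynomial.IsRoot.def,
      Polynomial.eval_prod, Finset.prod_eq_zero_iff] at hy
    obtain ⟨-, a, -, ha⟩ := hy
    rw [Polynomial.eval_pow, Polynomial.eval_sub, Polynomial.eval_X, Polynomial.eval_C] at ha
    have ha0 : μ a ≠ 0 := by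
      intro h
      rw [h, pow_zero] at ha
      exact one_ne_zero ha
    have hy' : y = x a := sub_eq_zero.1 (pow_eq_zero_iff ha0 |>.1 ha)
    rw [Finset.mem_image]
    refine ⟨a, Finset.mem_erase.2 ⟨?_, Finset.mem_univ _⟩, hy'.symm⟩
    rintro rfl
    exact ha0 h0
  have h2 := Finset.card_le_card h1
  have h3 : (N.charpoly.map (algebraMap k G)).roots.toFinset.card = m := by
    have h4 : nd G N = (N.charpoly.map (algebraMap k G)).roots.toFinset.card := by
      unfold nd
      congr!
    rw [← h4]
    exact hn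
  rw [h3] at h2
  have h5 : ((Finset.univ.erase l).image x).card ≤ m - 1 := by
    refine Finset.card_image_le.trans ?_
    rw [Finset.card_erase_of_mem (Finset.mem_univ _), Finset.card_univ, Fintype.card_fin]
  have := l.pos
  omega

theorem const_ne {k G : Type*} [Field k] [Field G] [Algebra k G] [CharZero k] {n : Type*} [Fintype n]
    [DecidableEq n] {N : Matrix n n k} {m : ℕ} {x : Fin m → G} {μ : Fin m → ℕ} (h : Shape N m x μ)
    (hn : nd G N = m) : (∏ l, (μ l : G)) * (Matrix.vandermonde x).det ^ 2 ≠ 0 := by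
  have : CharZero G := charZero_of_injective_algebraMap (algebraMap k G).injective
  refine mul_ne_zero ?_ (pow_ne_zero _ (Matrix.det_vandermonde_ne_zero_iff.2 h.1))
  rw [Finset.prod_ne_zero_iff]
  intro l _
  exact_mod_cast mu_ne h hn l

theorem sep {k G : Type*} [Field k] [Field G] [Algebra k G] [CharZero k] {n : Type*} [Fintype n]
    [DecidableEq n] {N : Matrix n n k} {m : ℕ} {x : Fin m → G} {μ : Fin m → ℕ} (h : Shape N m x μ)
    (hn : nd G N = m) : (hank m N).Separable := by
  have h0 := const_ne h hn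
  obtain ⟨hx, hc, hh⟩ := h
  rw [← Polynomial.separable_map (algebraMap k G), hh]
  have h1 : (∏ l, (Polynomial.X - Polynomial.C (x l))).Separable :=
    Polynomial.separable_prod_X_sub_C_iff.2 hx
  exact Polynomial.Separable.unit_mul (Polynomial.isUnit_C.2 (isUnit_iff_ne_zero.2 h0)) h1

theorem dvd {k G : Type*} [Field k] [Field G] [Algebra k G] [CharZero k] {n : Type*} [Fintype n]
    [DecidableEq n] {N : Matrix n n k} {m : ℕ} {x : Fin m → G} {μ : Fin m → ℕ} (h : Shape N m x μ)
    (hn : nd G N = m) (q : Polynomial k) (hq : IsNilpotent (Polynomial.aeval N q)) :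
    hank m N ∣ q := by
  have h0 := const_ne h hn
  have hμ := mu_ne h hn
  obtain ⟨hx, hc, hh⟩ := h
  rw [← Polynomial.map_dvd_map' (algebraMap k G), hh]
  set f := algebraMap k G with hf
  rw [IsUnit.mul_left_dvd (Polynomial.isUnit_C.2 (isUnit_iff_ne_zero.2 h0))]
  refine Finset.prod_dvd_of_coprime ?_ ?_
  · exact (Polynomial.pairwise_coprime_X_sub_C hx).set_pairwise _
  intro l _
  rw [Polynomial.dvd_iff_isRoot]
  have h1 : x l ∈ spectrum G (N.map f) := by
    rw [Matrix.mem_spectrum_iff_isRoot_charpoly, hc, Polynomial.IsRoot.def, Polynomial.eval_prod,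
      Finset.prod_eq_zero_iff]
    exact ⟨l, Finset.mem_univ _, by simp [hμ l]⟩
  have h2 := spectrum.subset_polynomial_aeval (N.map f) (q.map f) ⟨x l, h1, rfl⟩
  have h3 : IsNilpotent (Polynomial.aeval (N.map f) (q.map f)) := by
    have h4 : Polynomial.aeval (N.map f) (q.map f) = (Algebra.ofId k G).mapMatrix (Polynomial.aeval N q) := by
      have := Polynomial.aeval_algHom_apply ((Algebra.ofId k G).mapMatrix (m := n)) N q
      rw [Polynomial.aeval_map_algebraMap]
      exact this
    rw [h4]
    exact hq.map _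
  by_contra h5
  have h6 : (q.map f).eval (x l) ≠ 0 := h5
  rw [spectrum.mem_iff] at h2
  apply h2
  have h7 : IsUnit (algebraMap G (Matrix n n G) ((q.map f).eval (x l))) :=
    (isUnit_iff_ne_zero.2 h6).map _
  rw [sub_eq_add_neg]
  refine IsNilpotent.isUnit_add_left_of_commute (IsNilpotent.neg h3) h7 ?_
  exact (Algebra.commutes _ _).symm

end H456

end Pool.Agent.H40ZL
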