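import Mathlib
import Pool.Agent.H40ZL.Defs
import Pool.Agent.H40ZL.H456
import Pool.Agent.H40ZL.H1
import Pool.Agent.H40ZL.H2
import Pool.Agent.H40ZL.H3

/-!
Project ZL: stub H4 (helper19).
-/

set_option autoImplicit false

namespace Pool.Agent.H40ZL

open Matrix

theorem exists_shape {k G : Type*} [Field k] [Field G] [Algebra k G] [IsAlgClosed G] [CharZero k] {n : Type*} [Fintype n]
    [DecidableEq n] (N : Matrix n n k) (m : ℕ) (h : nd G N ≤ m) : ∃ (x : Fin m → G) (μ : Fin m → ℕ),
      H456.Shape N m x μ := by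
  have : CharZero G := charZero_of_injective_algebraMap (algebraMap k G).injective
  obtain ⟨x, μ, hx, h1, h2⟩ := exists_nodes (N.map (algebraMap k G)) m (by rw [H456.nd_map]; exact h)
  refine ⟨x, μ, hx, h1, ?_⟩
  rw [hank_map]
  exact hank_eq m _ x (fun l => (μ l : G)) h2

theorem hank_nilp {k G : Type*} [Field k] [Field G] [Algebra k G] [IsAlgClosed G] [CharZero k] {n : Type*} [Fintype n]
    [DecidableEq n] (N : Matrix n n k) (m : ℕ) (h : nd G N ≤ m) : IsNilpotent (Polynomial.aeval N (hank m N)) := by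
  obtain ⟨x, μ, hs⟩ := exists_shape N m h
  exact H456.nilp hs

end Pool.Agent.H40ZL
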