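import Mathlib
import Pool.Agent.H40ZL.Defs
import Pool.Agent.H40ZL.H4

/-!
Project ZL: stub H5 (helper19).
-/

set_option autoImplicit false

namespace Pool.Agent.H40ZL

open Matrix

theorem hank_sep {k G : Type*} [Field k] [Field G] [Algebra k G] [IsAlgClosed G] [CharZero k] {n : Type*} [Fintype n]
    [DecidableEq n] (N : Matrix n n k) (m : ℕ) (h : nd G N = m) : (hank m N).Separable := by
  obtain ⟨x, μ, hs⟩ := exists_shape N m h.le
  exact H456.sep hs h

end Pool.Agent.H40ZL
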