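import Mathlib
import Pool.Agent.H40ZL.Defs
import Pool.Agent.H40ZL.H4

/-!
Project ZL: stub H6 (helper19).
-/

set_option autoImplicit false

namespace Pool.Agent.H40ZL

open Matrix

theorem hank_dvd {k G : Type*} [Field k] [Field G] [Algebra k G] [IsAlgClosed G] [CharZero k] {n : Type*} [Fintype n]
    [DecidableEq n] (N : Matrix n n k) (m : ℕ) (h : nd G N = m) (q : Polynomial k)
    (hq : IsNilpotent (Polynomial.aeval N q)) : hank m N ∣ q := by
  obtain ⟨x, μ, hs⟩ := exists_shape N m h.le
  exact H456.dvd hs h q hq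

end Pool.Agent.H40ZL
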