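import Mathlib
import Pool.Agent.H40ZL.Defs
import Pool.Agent.H40ZL.L1

set_option autoImplicit false

namespace Pool.Agent.H40ZL

open Matrix

/-- **L2.** Conjugation of tangent vectors. -/
theorem tangent_conj {k : Type*} [Field k] {n : Type*} [Fintype n] [DecidableEq n] (S : Set (Matrix n n k))
    (p q : Matrix n n k) (hpq : p * q = 1) (hS : ∀ x ∈ S, p * x * q ∈ S) (hS' : ∀ x ∈ S, q * x * p ∈ S)
    (X : Matrix n n k) (hX : IsTangent S X) : IsTangent S (p * X * q) := by
  have hqp : q * p = 1 := mul_eq_one_comm.1 hpq
  -- the generic matrix and the substitution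
  set M : Matrix n n (MvPolynomial (n × n) k) := Matrix.of fun i j => MvPolynomial.X (i, j) with hM
  set c : Matrix n n k → Matrix n n (MvPolynomial (n × n) k) := fun A => A.map MvPolynomial.C with hc
  have hcm : ∀ A B : Matrix n n k, c (A * B) = c A * c B := fun A B => by
    rw [hc]; exact Matrix.map_mul
  have hc1 : c 1 = 1 := by rw [hc]; exact Matrix.map_one _ (map_zero _) (map_one _)
  set φ : MvPolynomial (n × n) k →ₐ[k] MvPolynomial (n × n) k :=
    MvPolynomial.aeval fun ij : n × n => (c p * M * c q) ij.1 ij.2 with hφ
  have hφX : ∀ ij : n × n, φ (MvPolynomial.X ij) = (c p * M * c q) ij.1 ij.2 := fun ij => by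
    rw [hφ, MvPolynomial.aeval_X]
  have hφC : ∀ a : k, φ (MvPolynomial.C a) = MvPolynomial.C a := fun a => by
    rw [hφ, MvPolynomial.aeval_C]
    rfl
  -- evaluation
  have hev : ∀ (x : Matrix n n k) (P : MvPolynomial (n × n) k), evm x (φ P) = evm (p * x * q) P := by
    intro x P
    have h1 : (evm x).comp φ = evm (p * x * q) := by
      refine MvPolynomial.algHom_ext fun ij => ?_
      rw [AlgHom.comp_apply, hφX, evm, evm, MvPolynomial.aeval_X, Matrix.mul_apply, map_sum,
        Matrix.mul_apply]
      refine Finset.sum_congr rfl fun b _ => ?_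
      rw [map_mul, Matrix.mul_apply, map_sum, Matrix.mul_apply]
      congr 1
      · refine Finset.sum_congr rfl fun a _ => ?_
        rw [map_mul, hc, hM]
        simp
      · rw [hc]
        simp
    exact DFunLike.congr_fun h1 P
  -- the derivation
  have hDM : ∀ A : Matrix n n k, ∀ i j, genD A (M i j) = (M * c A) i j := by
    intro A i j
    rw [hM, hc, Matrix.mul_apply]
    exact genD_X A (i, j)
  have hder : ∀ P : MvPolynomial (n × n) k, genD X (φ P) = φ (genD (p * X * q) P) := by
    intro P
    induction P using MvPolynomial.induction_on with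
    | C a =>
      rw [hφC, MvPolynomial.derivation_C, MvPolynomial.derivation_C, map_zero]
    | add P Q hP hQ =>
      rw [map_add, map_add, map_add, map_add, hP, hQ]
    | mul_X P ij hP =>
      rw [map_mul, Derivation.leibniz, Derivation.leibniz, hP, smul_eq_mul, smul_eq_mul, smul_eq_mul,
        smul_eq_mul, map_add, map_mul, map_mul]
      congr 2
      rw [hφX, genD_X, Matrix.mul_apply, map_sum]
      have h1 : ∀ b, genD X ((c p * M) ij.1 b * c q b ij.2) = (c p * M * c X) ij.1 b * c q b ij.2 := by
        intro b
        have h2 : c q b ij.2 = MvPolynomial.C (q b ij.2) := rfl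
        rw [h2, Derivation.leibniz, MvPolynomial.derivation_C, smul_zero, zero_add, smul_eq_mul, mul_comm]
        congr 1
        rw [Matrix.mul_apply, map_sum, Matrix.mul_assoc, Matrix.mul_apply]
        refine Finset.sum_congr rfl fun a _ => ?_
        have h3 : c p ij.1 a = MvPolynomial.C (p ij.1 a) := rfl
        rw [h3, Derivation.leibniz, MvPolynomial.derivation_C, smul_zero, add_zero, smul_eq_mul,
          hDM]
      rw [Finset.sum_congr rfl fun b _ => h1 b, ← Matrix.mul_apply, map_sum]
      have h4 : c p * M * c X * c q = (c p * M * c q) * c (p * X * q) := by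
        rw [hcm, hcm]
        have : c q * c p = 1 := by rw [← hcm, hqp, hc1]
        calc c p * M * c X * c q = c p * M * 1 * c X * c q := by rw [mul_one]
          _ = c p * M * (c q * c p) * c X * c q := by rw [this]
          _ = _ := by simp only [Matrix.mul_assoc]
      rw [h4, Matrix.mul_apply]
      refine Finset.sum_congr rfl fun l _ => ?_
      rw [map_mul, hφX, hφC]
      rfl
  intro P hP y hy
  have h1 : ∀ x ∈ S, evm x (φ P) = 0 := fun x hx => by
    rw [hev]
    exact hP _ (hS x hx)
  have h2 := hX (φ P) h1 (q * y * p) (hS' y hy)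
  rw [hder, hev] at h2
  have h3 : p * (q * y * p) * q = y := by
    calc p * (q * y * p) * q = (p * q) * y * (p * q) := by simp only [Matrix.mul_assoc]
      _ = y := by rw [hpq, one_mul, mul_one]
  rwa [h3] at h2

end Pool.Agent.H40ZL
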