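import Mathlib
import Pool.Agent.H40ZL.Defs
import Pool.Agent.H40ZL.L1

set_option autoImplicit false

namespace Pool.Agent.H40ZL

open Matrix

/-- **L3.** If `1 ∈ S`, tangent vectors are in the linear span of `S`. -/
theorem tangent_mem_span {k : Type*} [Field k] {n : Type*} [Fintype n] [DecidableEq n] (S : Set (Matrix n n k))
    (h1 : (1 : Matrix n n k) ∈ S) (X : Matrix n n k) (hX : IsTangent S X) : X ∈ Submodule.span k S := by
  by_contra hmem
  obtain ⟨f, hf, hbot⟩ := Submodule.exists_dual_map_eq_bot_of_notMem hmem inferInstance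
  have hfS : ∀ x ∈ S, f x = 0 := by
    intro x hx
    have h2 : f x ∈ (Submodule.span k S).map f := ⟨x, Submodule.subset_span hx, rfl⟩
    rw [hbot] at h2
    exact (Submodule.mem_bot k).1 h2
  have hfe : ∀ x : Matrix n n k, f x = ∑ i, ∑ j, f (Matrix.single i j 1) * x i j := by
    intro x
    conv_lhs => rw [Matrix.matrix_eq_sum_single x]
    rw [map_sum]
    refine Finset.sum_congr rfl fun i _ => ?_
    rw [map_sum]
    refine Finset.sum_congr rfl fun j _ => ?_
    have h3 : Matrix.single i j (x i j) = x i j • Matrix.single i j (1 : k) := by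
      rw [Matrix.smul_single, smul_eq_mul, mul_one]
    rw [h3, map_smul, smul_eq_mul, mul_comm]
  set P : MvPolynomial (n × n) k :=
    ∑ i, ∑ j, MvPolynomial.C (f (Matrix.single i j 1)) * MvPolynomial.X (i, j) with hP
  have hPe : ∀ x ∈ S, evm x P = 0 := by
    intro x hx
    rw [hP, evm]
    simp only [map_sum, map_mul, MvPolynomial.aeval_X, MvPolynomial.aeval_C,
      Algebra.algebraMap_self, RingHom.id_apply]
    rw [← hfe x]
    exact hfS x hx
  have h4 := hX P hPe 1 h1
  apply hf
  rw [hfe X, ← h4, hP]
  rw [map_sum, map_sum]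
  refine Finset.sum_congr rfl fun i _ => ?_
  rw [map_sum, map_sum]
  refine Finset.sum_congr rfl fun j _ => ?_
  rw [Derivation.leibniz, MvPolynomial.derivation_C, smul_zero, add_zero, genD_X, smul_eq_mul,
    map_mul, map_sum]
  have h5 : ∀ l : n, evm (1 : Matrix n n k) (MvPolynomial.X (i, l) * MvPolynomial.C (X l j)) =
      (if i = l then X l j else 0) := by
    intro l
    rw [evm, map_mul, MvPolynomial.aeval_X, MvPolynomial.aeval_C, Matrix.one_apply]
    simp
  rw [Finset.sum_congr rfl fun l _ => h5 l]
  simp [evm]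

end Pool.Agent.H40ZL
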