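import Mathlib
import Pool.Agent.H40ZL.Defs

/-! Project ZL, stub P1 (helper79): adding a semisimple element which normalises. -/

set_option autoImplicit false

namespace Pool.Agent.H40ZL

open Matrix Polynomial

namespace P1

variable {k : Type*} [Field k] {n : Type*} [Fintype n] [DecidableEq n]

/-- a subspace stable under an invertible matrix is stable under the inverse -/
lemma inv_stable {σ τ : Matrix n n k} (hστ : σ * τ = 1) (U : Submodule k (n → k)) (hU : ∀ v ∈ U, σ *ᵥ v ∈ U) :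
    ∀ v ∈ U, τ *ᵥ v ∈ U := by
  have hτσ : τ * σ = 1 := mul_eq_one_comm.1 hστ
  have hinj : Function.Injective ((Matrix.toLin' σ).restrict (p := U) (q := U) hU) := by
    intro x y hxy
    have h1 : σ *ᵥ (x : n → k) = σ *ᵥ (y : n → k) := congrArg Subtype.val hxy
    have h2 := congrArg (fun z => τ *ᵥ z) h1
    simp only [mulVec_mulVec, hτσ, one_mulVec] at h2
    exact Subtype.ext h2
  have hsurj := LinearMap.injective_iff_surjective.1 hinj
  intro v hv
  obtain ⟨w, hw⟩ := hsurj ⟨v, hv⟩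
  have h1 : σ *ᵥ (w : n → k) = v := congrArg Subtype.val hw
  rw [← h1, mulVec_mulVec, hτσ, one_mulVec]
  exact w.2

lemma semi_inv {σ τ : Matrix n n k} (hστ : σ * τ = 1) (hσ : Module.End.IsSemisimple (Matrix.toLin' σ)) :
    Module.End.IsSemisimple (Matrix.toLin' τ) := by
  have hτσ : τ * σ = 1 := mul_eq_one_comm.1 hστ
  rw [Module.End.isSemisimple_iff] at hσ ⊢
  intro p hp
  obtain ⟨q, hq1, hq2⟩ := hσ p (inv_stable hτσ p hp)
  exact ⟨q, inv_stable hστ q hq1, hq2⟩

lemma aeval_zero {σ : Matrix n n k} {P : k[X]} (h : aeval (Matrix.toLin' σ) P = 0) : aeval σ P = 0 := by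
  have h1 : aeval (Matrix.toLinAlgEquiv' σ) P = Matrix.toLinAlgEquiv' (aeval σ P) :=
    aeval_algHom_apply (Matrix.toLinAlgEquiv' : Matrix n n k ≃ₐ[k] _).toAlgHom σ P
  have h2 : Matrix.toLinAlgEquiv' (aeval σ P) = 0 := h1.symm.trans h
  exact (map_eq_zero_iff _ (Matrix.toLinAlgEquiv' : Matrix n n k ≃ₐ[k] _).injective).1 h2

lemma aeval_left (σ : Matrix n n k) (P : k[X]) (p : Matrix n n k) :
    (aeval (LinearMap.mulLeft k σ) P) p = aeval σ P * p := by
  induction P using Polynomial.induction_on' generalizing p with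
  | add a b ha hb => rw [map_add, map_add, LinearMap.add_apply, ha, hb, add_mul]
  | monomial i a =>
    rw [aeval_monomial, aeval_monomial, Module.End.mul_apply, LinearMap.pow_mulLeft, LinearMap.mulLeft_apply,
      Module.algebraMap_end_apply, mul_assoc, Algebra.smul_def]

lemma aeval_right (σ : Matrix n n k) (P : k[X]) (p : Matrix n n k) :
    (aeval (LinearMap.mulRight k σ) P) p = p * aeval σ P := by
  induction P using Polynomial.induction_on' generalizing p with
  | add a b ha hb => rw [map_add, map_add, LinearMap.add_apply, ha, hb, mul_add]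
  | monomial i a =>
    rw [aeval_monomial, aeval_monomial, Module.End.mul_apply, LinearMap.pow_mulRight, LinearMap.mulRight_apply,
      Module.algebraMap_end_apply, Algebra.smul_def, ← mul_assoc, ← mul_assoc, Algebra.commutes]

lemma semi_left [PerfectField k] {σ : Matrix n n k} (hσ : Module.End.IsSemisimple (Matrix.toLin' σ)) :
    Module.End.IsSemisimple (LinearMap.mulLeft k σ) := by
  refine Module.End.isSemisimple_of_squarefree_aeval_eq_zero hσ.minpoly_squarefree ?_
  refine LinearMap.ext fun p => ?_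
  rw [aeval_left, aeval_zero (minpoly.aeval k (Matrix.toLin' σ)), zero_mul]
  rfl

lemma semi_right [PerfectField k] {σ : Matrix n n k} (hσ : Module.End.IsSemisimple (Matrix.toLin' σ)) :
    Module.End.IsSemisimple (LinearMap.mulRight k σ) := by
  refine Module.End.isSemisimple_of_squarefree_aeval_eq_zero hσ.minpoly_squarefree ?_
  refine LinearMap.ext fun p => ?_
  rw [aeval_right, aeval_zero (minpoly.aeval k (Matrix.toLin' σ)), mul_zero]
  rfl

end P1

open P1 in
theorem ssimple_insert {k : Type*} [Field k] [CharZero k] {n : Type*} [Fintype n] [DecidableEq n]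
    (A : Set (Matrix n n k)) (hA : SSimple A) (σ τ : Matrix n n k) (hστ : σ * τ = 1)
    (hσ : Module.End.IsSemisimple (Matrix.toLin' σ)) (h1 : ∀ x ∈ A, σ * x * τ ∈ A) (h2 : ∀ x ∈ A, τ * x * σ ∈ A) :
    SSimple (insert σ A) := by
  have hτσ : τ * σ = 1 := mul_eq_one_comm.1 hστ
  intro W hW
  have hWA : Stable A W := fun x hx v hv => hW x (Set.mem_insert_of_mem _ hx) v hv
  have hWσ : ∀ v ∈ W, σ *ᵥ v ∈ W := fun v hv => hW σ (Set.mem_insert _ _) v hv
  have hWτ : ∀ v ∈ W, τ *ᵥ v ∈ W := inv_stable hστ W hWσ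
  -- the conjugation
  have hc : Module.End.IsSemisimple (LinearMap.mulLeft k σ * LinearMap.mulRight k τ) :=
    Module.End.IsSemisimple.mul_of_commute (LinearMap.commute_mulLeft_right (R := k) σ τ) (semi_left hσ)
      (semi_right (semi_inv hστ hσ))
  have hca : ∀ p : Matrix n n k, (LinearMap.mulLeft k σ * LinearMap.mulRight k τ) p = σ * p * τ := by
    intro p
    rw [Module.End.mul_apply, LinearMap.mulRight_apply, LinearMap.mulLeft_apply, mul_assoc]
  set c := LinearMap.mulLeft k σ * LinearMap.mulRight k τ with hcdef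
  -- the maps which are zero on W
  let H0 : Submodule k (Matrix n n k) :=
    { carrier := {p | (∀ x ∈ A, x * p = p * x) ∧ (∀ v, p *ᵥ v ∈ W) ∧ ∀ v ∈ W, p *ᵥ v = 0}
      add_mem' := by
        rintro p q ⟨a1, a2, a3⟩ ⟨b1, b2, b3⟩
        refine ⟨fun x hx => by rw [mul_add, add_mul, a1 x hx, b1 x hx], fun v => ?_, fun v hv => ?_⟩
        · rw [add_mulVec]; exact W.add_mem (a2 v) (b2 v)
        · rw [add_mulVec, a3 v hv, b3 v hv, add_zero]
      zero_mem' := by
        refine ⟨fun x hx => by rw [mul_zero, zero_mul], fun v => ?_, fun v _ => ?_⟩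
        · rw [zero_mulVec]; exact W.zero_mem
        · rw [zero_mulVec]
      smul_mem' := by
        rintro r p ⟨a1, a2, a3⟩
        refine ⟨fun x hx => by rw [mul_smul_comm, smul_mul_assoc, a1 x hx], fun v => ?_, fun v hv => ?_⟩
        · rw [smul_mulVec]; exact W.smul_mem _ (a2 v)
        · rw [smul_mulVec, a3 v hv, smul_zero] }
  have hmem : ∀ p, p ∈ H0 ↔ (∀ x ∈ A, x * p = p * x) ∧ (∀ v, p *ᵥ v ∈ W) ∧ ∀ v ∈ W, p *ᵥ v = 0 := fun p => Iff.rfl
  -- conjugation preserves the commutant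
  have hcomm : ∀ p : Matrix n n k, (∀ x ∈ A, x * p = p * x) → ∀ x ∈ A, x * (σ * p * τ) = (σ * p * τ) * x := by
    intro p hp x hx
    have h3 := hp _ (h2 x hx)
    calc x * (σ * p * τ) = (σ * τ) * (x * (σ * p * τ)) := by rw [hστ, one_mul]
      _ = σ * ((τ * x * σ) * p) * τ := by simp only [mul_assoc]
      _ = σ * (p * (τ * x * σ)) * τ := by rw [h3]
      _ = (σ * p * τ) * x * (σ * τ) := by simp only [mul_assoc]
      _ = (σ * p * τ) * x := by rw [hστ, mul_one]
  have hcW : ∀ p : Matrix n n k, (∀ v, p *ᵥ v ∈ W) → ∀ v, (σ * p * τ) *ᵥ v ∈ W := by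
    intro p hp v
    rw [← mulVec_mulVec, ← mulVec_mulVec]
    exact hWσ _ (hp _)
  have hH0c : H0 ≤ H0.comap c := by
    intro p hp
    obtain ⟨a1, a2, a3⟩ := (hmem p).1 hp
    rw [Submodule.mem_comap, hca, hmem]
    refine ⟨hcomm p a1, hcW p a2, fun v hv => ?_⟩
    rw [← mulVec_mulVec, ← mulVec_mulVec, a3 _ (hWτ v hv), mulVec_zero]
  obtain ⟨q, hq1, hq2⟩ := (Module.End.isSemisimple_iff.1 hc) H0 hH0c
  -- the projection
  obtain ⟨W', hW', hcompl⟩ := hA W hWA
  set pr : (n → k) →ₗ[k] (n → k) := W.subtype ∘ₗ W.projectionOnto W' hcompl with hpr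
  have pr1 : ∀ v, pr v ∈ W := fun v => (W.projectionOnto W' hcompl v).2
  have pr2 : ∀ v ∈ W, pr v = v := by
    intro v hv
    have := Submodule.projectionOnto_apply_left hcompl ⟨v, hv⟩
    rw [hpr, LinearMap.comp_apply]
    rw [this]
    rfl
  have pr3 : ∀ v ∈ W', pr v = 0 := by
    intro v hv
    rw [hpr, LinearMap.comp_apply, (Submodule.projectionOnto_apply_eq_zero_iff hcompl).2 hv, map_zero]
  set p0 : Matrix n n k := LinearMap.toMatrix' pr with hp0
  have p0a : ∀ v, p0 *ᵥ v = pr v := by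
    intro v
    rw [hp0, ← Matrix.toLin'_apply, Matrix.toLin'_toMatrix']
  have hp0c : ∀ x ∈ A, x * p0 = p0 * x := by
    intro x hx
    apply (Matrix.toLin' (R := k) (m := n) (n := n)).injective
    refine LinearMap.ext fun v => ?_
    rw [Matrix.toLin'_apply, Matrix.toLin'_apply, ← mulVec_mulVec, ← mulVec_mulVec, p0a, p0a]
    have hv : v ∈ W ⊔ W' := by rw [hcompl.sup_eq_top]; trivial
    obtain ⟨w, hw, w', hw', rfl⟩ := Submodule.mem_sup.1 hv
    rw [map_add, pr2 w hw, pr3 w' hw', add_zero, mulVec_add, map_add, pr2 _ (hWA x hx w hw), pr3 _ (hW' x hx w' hw'),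
      add_zero]
  have hp0m : p0 ∈ H0 ⊔ q := by rw [hq2.sup_eq_top]; trivial
  obtain ⟨h, hh, p1, hp1, hsum⟩ := Submodule.mem_sup.1 hp0m
  obtain ⟨a1, a2, a3⟩ := (hmem h).1 hh
  have e1 : p1 = p0 - h := by rw [← hsum, add_sub_cancel_left]
  have b1 : ∀ x ∈ A, x * p1 = p1 * x := fun x hx => by rw [e1, mul_sub, sub_mul, hp0c x hx, a1 x hx]
  have b2 : ∀ v, p1 *ᵥ v ∈ W := fun v => by
    rw [e1, sub_mulVec, p0a]
    exact W.sub_mem (pr1 v) (a2 v)
  have b3 : ∀ v ∈ W, p1 *ᵥ v = v := fun v hv => by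
    rw [e1, sub_mulVec, p0a, pr2 v hv, a3 v hv, sub_zero]
  have hfix : σ * p1 * τ = p1 := by
    have c1 : c p1 - p1 ∈ q := q.sub_mem (hq1 hp1) hp1
    have c2 : c p1 - p1 ∈ H0 := by
      rw [hca, hmem]
      refine ⟨fun x hx => ?_, fun v => ?_, fun v hv => ?_⟩
      · rw [mul_sub, sub_mul, hcomm p1 b1 x hx, b1 x hx]
      · rw [sub_mulVec]
        exact W.sub_mem (hcW p1 b2 v) (b2 v)
      · rw [sub_mulVec, ← mulVec_mulVec, ← mulVec_mulVec, b3 _ (hWτ v hv), mulVec_mulVec, hστ, one_mulVec, b3 v hv,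
          sub_self]
    have c3 := (Submodule.disjoint_def.1 hq2.disjoint) _ c2 c1
    rw [hca] at c3
    exact sub_eq_zero.1 c3
  have hfix' : σ * p1 = p1 * σ := by
    calc σ * p1 = σ * p1 * (τ * σ) := by rw [hτσ, mul_one]
      _ = σ * p1 * τ * σ := by simp only [mul_assoc]
      _ = p1 * σ := by rw [hfix]
  refine ⟨LinearMap.ker (Matrix.toLin' p1), ?_, ?_⟩
  · intro x hx v hv
    rw [LinearMap.mem_ker, Matrix.toLin'_apply] at hv ⊢
    have h3 : x * p1 = p1 * x := by
      rcases hx with rfl | hx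
      · exact hfix'
      · exact b1 x hx
    rw [mulVec_mulVec, ← h3, ← mulVec_mulVec, hv, mulVec_zero]
  · constructor
    · rw [Submodule.disjoint_def]
      intro v hv hv'
      rw [LinearMap.mem_ker, Matrix.toLin'_apply, b3 v hv] at hv'
      exact hv'
    · rw [codisjoint_iff, eq_top_iff]
      intro v _
      rw [Submodule.mem_sup]
      refine ⟨p1 *ᵥ v, b2 v, v - p1 *ᵥ v, ?_, by rw [add_sub_cancel]⟩
      rw [LinearMap.mem_ker, Matrix.toLin'_apply, mulVec_sub, b3 _ (b2 v), sub_self]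

end Pool.Agent.H40ZL
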