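import Mathlib
import Pool.Agent.H40ZL.Defs

/-! Project ZL, stub P2 (helper79): a relative version of the theorem of Maschke. -/

set_option autoImplicit false

namespace Pool.Agent.H40ZL

open Matrix

namespace P2

variable {k : Type*} [Field k] {n : Type*} [Fintype n] [DecidableEq n]

/-- a projection which commutes gives a stable complement -/
lemma compl_of_proj {A : Set (Matrix n n k)} {W : Submodule k (n → k)} (p : Matrix n n k) (b1 : ∀ x ∈ A, x * p = p * x)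
    (b2 : ∀ v, p *ᵥ v ∈ W) (b3 : ∀ v ∈ W, p *ᵥ v = v) : ∃ U' : Submodule k (n → k), Stable A U' ∧ IsCompl W U' := by
  refine ⟨LinearMap.ker (Matrix.toLin' p), ?_, ?_⟩
  · intro x hx v hv
    rw [LinearMap.mem_ker, Matrix.toLin'_apply] at hv ⊢
    rw [mulVec_mulVec, ← b1 x hx, ← mulVec_mulVec, hv, mulVec_zero]
  · constructor
    · rw [Submodule.disjoint_def]
      intro v hv hv'
      rw [LinearMap.mem_ker, Matrix.toLin'_apply, b3 v hv] at hv'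
      exact hv'
    · rw [codisjoint_iff, eq_top_iff]
      intro v _
      rw [Submodule.mem_sup]
      refine ⟨p *ᵥ v, b2 v, v - p *ᵥ v, ?_, by rw [add_sub_cancel]⟩
      rw [LinearMap.mem_ker, Matrix.toLin'_apply, mulVec_sub, b3 _ (b2 v), sub_self]

/-- a stable complement gives a projection which commutes -/
lemma proj_of_compl {A : Set (Matrix n n k)} {W W' : Submodule k (n → k)} (hW : Stable A W) (hW' : Stable A W')
    (hcompl : IsCompl W W') : ∃ p : Matrix n n k, (∀ x ∈ A, x * p = p * x) ∧ (∀ v, p *ᵥ v ∈ W) ∧ ∀ v ∈ W, p *ᵥ v = v := by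
  set pr : (n → k) →ₗ[k] (n → k) := W.subtype ∘ₗ W.projectionOnto W' hcompl with hpr
  have pr1 : ∀ v, pr v ∈ W := fun v => (W.projectionOnto W' hcompl v).2
  have pr2 : ∀ v ∈ W, pr v = v := by
    intro v hv
    have := Submodule.projectionOnto_apply_left hcompl ⟨v, hv⟩
    rw [hpr, LinearMap.comp_apply]
    rw [this]
    rfl
  have pr3 : ∀ v ∈ W', pr v = 0 := by
    intro v hv
    rw [hpr, LinearMap.comp_apply, (Submodule.projectionOnto_apply_eq_zero_iff hcompl).2 hv, map_zero]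
  have p0a : ∀ v, (LinearMap.toMatrix' pr) *ᵥ v = pr v := by
    intro v
    rw [← Matrix.toLin'_apply, Matrix.toLin'_toMatrix']
  refine ⟨LinearMap.toMatrix' pr, ?_, fun v => by rw [p0a]; exact pr1 v, fun v hv => by rw [p0a]; exact pr2 v hv⟩
  intro x hx
  apply (Matrix.toLin' (R := k) (m := n) (n := n)).injective
  refine LinearMap.ext fun v => ?_
  rw [Matrix.toLin'_apply, Matrix.toLin'_apply, ← mulVec_mulVec, ← mulVec_mulVec, p0a, p0a]
  have hv : v ∈ W ⊔ W' := by rw [hcompl.sup_eq_top]; trivial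
  obtain ⟨w, hw, w', hw', rfl⟩ := Submodule.mem_sup.1 hv
  rw [map_add, pr2 w hw, pr3 w' hw', add_zero, mulVec_add, map_add, pr2 _ (hW x hx w hw), pr3 _ (hW' x hx w' hw'),
    add_zero]

end P2

open P2 in
theorem ssimple_of_index {k : Type*} [Field k] [CharZero k] {n : Type*} [Fintype n] [DecidableEq n]
    {Γ : Type*} [Group Γ] (ρ : Γ →* Matrix n n k) (Δ : Subgroup Γ) [Δ.FiniteIndex]
    (h : SSimple (ρ '' (Δ : Set Γ))) : SSimple (Set.range ρ) := by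
  classical
  haveI : Fintype (Γ ⧸ Δ) := Fintype.ofFinite _
  intro U hU
  have hUΔ : Stable (ρ '' (Δ : Set Γ)) U := by
    rintro x ⟨δ, _, rfl⟩ v hv
    exact hU _ ⟨δ, rfl⟩ v hv
  obtain ⟨U', hU', hcompl⟩ := h U hUΔ
  obtain ⟨p, hp1, hp2, hp3⟩ := proj_of_compl hUΔ hU' hcompl
  have hinv : ∀ γ : Γ, ρ γ * ρ γ⁻¹ = 1 := fun γ => by rw [← map_mul, mul_inv_cancel, map_one]
  set F : Γ ⧸ Δ → Matrix n n k := fun q => ρ q.out * p * ρ (q.out)⁻¹ with hF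
  have hFm : ∀ γ : Γ, F (γ : Γ ⧸ Δ) = ρ γ * p * ρ γ⁻¹ := by
    intro γ
    obtain ⟨δ, hδ⟩ := QuotientGroup.mk_out_eq_mul Δ γ
    have h1 : ρ (δ : Γ) * p = p * ρ (δ : Γ) := hp1 _ ⟨δ, δ.2, rfl⟩
    show ρ (γ : Γ ⧸ Δ).out * p * ρ ((γ : Γ ⧸ Δ).out)⁻¹ = _
    rw [hδ, _root_.mul_inv_rev, map_mul, map_mul]
    calc ρ γ * ρ (δ : Γ) * p * (ρ (δ : Γ)⁻¹ * ρ γ⁻¹) = ρ γ * (ρ (δ : Γ) * p) * ρ (δ : Γ)⁻¹ * ρ γ⁻¹ := by
          simp only [mul_assoc]
      _ = ρ γ * p * (ρ (δ : Γ) * ρ (δ : Γ)⁻¹) * ρ γ⁻¹ := by rw [h1]; simp only [mul_assoc]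
      _ = _ := by rw [hinv, mul_one]
  set S : Matrix n n k := ∑ q : Γ ⧸ Δ, F q with hS
  have hN : ((Fintype.card (Γ ⧸ Δ) : ℕ) : k) ≠ 0 := by
    exact_mod_cast (Fintype.card_pos_iff.2 ⟨((1 : Γ) : Γ ⧸ Δ)⟩).ne'
  have hSc : ∀ γ : Γ, ρ γ * S = S * ρ γ := by
    intro γ
    have h1 : ∀ q : Γ ⧸ Δ, ρ γ * F q = F (γ • q) * ρ γ := by
      intro q
      obtain ⟨g, rfl⟩ := QuotientGroup.mk_surjective q
      have h2 : γ • (g : Γ ⧸ Δ) = ((γ * g : Γ) : Γ ⧸ Δ) := rfl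
      rw [h2, hFm, hFm, _root_.mul_inv_rev, map_mul, map_mul]
      have h3 : ρ γ⁻¹ * ρ γ = 1 := by rw [← map_mul, inv_mul_cancel, map_one]
      calc ρ γ * (ρ g * p * ρ g⁻¹) = ρ γ * ρ g * p * ρ g⁻¹ * 1 := by rw [mul_one]; simp only [mul_assoc]
        _ = _ := by rw [← h3]; simp only [mul_assoc]
    rw [hS, Finset.mul_sum, Finset.sum_mul, Finset.sum_congr rfl fun q _ => h1 q]
    exact Equiv.sum_comp (MulAction.toPerm γ) (fun q => F q * ρ γ)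
  have hFU : ∀ q : Γ ⧸ Δ, ∀ v, F q *ᵥ v ∈ U := by
    intro q v
    show (ρ q.out * p * ρ (q.out)⁻¹) *ᵥ v ∈ U
    rw [← mulVec_mulVec, ← mulVec_mulVec]
    exact hU _ ⟨q.out, rfl⟩ _ (hp2 _)
  have hFid : ∀ q : Γ ⧸ Δ, ∀ v ∈ U, F q *ᵥ v = v := by
    intro q v hv
    show (ρ q.out * p * ρ (q.out)⁻¹) *ᵥ v = v
    rw [← mulVec_mulVec, ← mulVec_mulVec, hp3 _ (hU _ ⟨(q.out)⁻¹, rfl⟩ v hv), mulVec_mulVec, hinv, one_mulVec]
  refine compl_of_proj (((Fintype.card (Γ ⧸ Δ) : ℕ) : k)⁻¹ • S) ?_ ?_ ?_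
  · rintro x ⟨γ, rfl⟩
    rw [mul_smul_comm, smul_mul_assoc, hSc]
  · intro v
    rw [smul_mulVec, hS, Matrix.sum_mulVec]
    exact U.smul_mem _ (U.sum_mem fun q _ => hFU q v)
  · intro v hv
    rw [smul_mulVec, hS, Matrix.sum_mulVec, Finset.sum_congr rfl fun q _ => hFid q v hv, Finset.sum_const,
      Finset.card_univ, ← Nat.cast_smul_eq_nsmul k, smul_smul, inv_mul_cancel₀ hN, one_smul]

end Pool.Agent.H40ZL
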