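import Mathlib
import Pool.Agent.H40ZL.Defs
import Pool.Agent.H40ZL.A4
import Pool.Agent.H40ZL.B
import Pool.Agent.H40ZL.C
import Pool.Agent.H40ZL.H1
import Pool.Agent.H40ZL.H2
import Pool.Agent.H40ZL.H3
import Pool.Agent.H40ZL.H4
import Pool.Agent.H40ZL.H5
import Pool.Agent.H40ZL.H6
import Pool.Agent.H40ZL.L1
import Pool.Agent.H40ZL.L2
import Pool.Agent.H40ZL.L3
import Pool.Agent.H40ZL.P1
import Pool.Agent.H40ZL.P2

/-!
# Elements with the maximal number of distinct eigenvalues in a semisimple representation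
-/

set_option autoImplicit false

namespace Pool.Agent.H40ZL

open Matrix

theorem tangent_zero {k : Type*} [Field k] {n : Type*} [Fintype n] [DecidableEq n] (S : Set (Matrix n n k)) :
    IsTangent S (0 : Matrix n n k) := by
  intro P _ x _
  have h1 : genD (0 : Matrix n n k) = 0 := by
    apply MvPolynomial.derivation_ext
    intro q
    unfold genD
    rw [MvPolynomial.mkDerivation_X]
    simp
  rw [h1]
  simp

/-- the tangent vectors -/
def tanS {k : Type*} [Field k] {n : Type*} [Fintype n] [DecidableEq n] (S : Set (Matrix n n k)) :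
    Submodule k (Matrix n n k) where
  carrier := {X | IsTangent S X}
  add_mem' := fun {X Y} hX hY => (tangent_add S X Y hX hY).1
  zero_mem' := tangent_zero S
  smul_mem' := fun c X hX => (tangent_add S X X hX hX).2.1 c

/-- **General theorem.** In a semisimple representation of a group over a field of characteristic zero, an element of a
normal subgroup `D` with the maximal number of distinct eigenvalues among the elements of `D` is semisimple. -/
theorem semisimple_of_max {k G : Type*} [Field k] [Field G] [Algebra k G] [IsAlgClosed G] [CharZero k]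
    {n : Type*} [Fintype n] [DecidableEq n] {Γ : Type*} [Group Γ] (ρ : Γ →* Matrix n n k)
    (hss : SSimple (Set.range ρ)) (D : Subgroup Γ) [hDn : D.Normal] (g : Γ) (hg : g ∈ D)
    (hmax : ∀ x ∈ D, nd G (ρ x) ≤ nd G (ρ g)) : Module.End.IsSemisimple (Matrix.toLin' (ρ g)) := by
  have hinv : ∀ x : Γ, ρ x * ρ x⁻¹ = 1 := fun x => by rw [← map_mul, mul_inv_cancel, map_one]
  have hinv' : ∀ x : Γ, ρ x⁻¹ * ρ x = 1 := fun x => by rw [← map_mul, inv_mul_cancel, map_one]
  have hunit : ∀ x : Γ, IsUnit (ρ x) := fun x => ⟨⟨ρ x, ρ x⁻¹, hinv x, hinv' x⟩, rfl⟩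
  obtain ⟨ν, q, hνq, hν, htan, hfin⟩ := exists_tangent (ρ '' (D : Set Γ)) (ρ g) (hunit g) (by
    rintro _ ⟨y, hy, rfl⟩ i
    exact ⟨y * g ^ i, D.mul_mem hy (D.pow_mem hg i), by rw [map_mul, map_pow]⟩)
  apply hfin
  refine nilp_eq_zero (Set.range ρ) hss ?_ (tanS (ρ '' (D : Set Γ))) ?_ ?_ ?_ ν htan hν ?_
  · rintro _ ⟨x, rfl⟩
    exact ⟨ρ x⁻¹, ⟨_, rfl⟩, hinv x⟩
  · intro X hX Y hY
    exact (tangent_add _ X Y hX hY).2.2
  · rintro _ ⟨a, rfl⟩ _ ⟨b, rfl⟩ hab X hX
    have h1 : ρ b = ρ a⁻¹ := by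
      calc ρ b = (ρ a⁻¹ * ρ a) * ρ b := by rw [hinv', one_mul]
        _ = ρ a⁻¹ := by rw [mul_assoc, hab, mul_one]
    refine tangent_conj _ (ρ a) (ρ b) hab ?_ ?_ X hX
    · rintro _ ⟨y, hy, rfl⟩
      exact ⟨a * y * a⁻¹, hDn.conj_mem y hy a, by rw [map_mul, map_mul, h1]⟩
    · rintro _ ⟨y, hy, rfl⟩
      refine ⟨a⁻¹ * y * a, ?_, by rw [map_mul, map_mul, h1]⟩
      have := hDn.conj_mem y hy a⁻¹
      rwa [inv_inv] at this
  · intro X hX
    have h1 := tangent_mem_span (ρ '' (D : Set Γ)) ⟨1, D.one_mem, map_one ρ⟩ X hX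
    exact Submodule.span_mono (Set.image_subset_range ρ _) h1
  · intro X hX
    rw [hνq]
    refine trace_orth (nd G (ρ g)) (ρ '' (D : Set Γ)) ?_ X hX (ρ g) ⟨g, hg, rfl⟩ (hunit g)
      (hank_sep (G := G) (ρ g) _ rfl) q (hank_dvd (G := G) (ρ g) _ rfl q (by rw [← hνq]; exact hν))
    rintro _ ⟨x, hx, rfl⟩
    exact hank_nilp (G := G) (ρ x) _ (hmax x hx)

end Pool.Agent.H40ZL
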