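import Mathlib
import Pool.Agent.H40ZL.Gen
import Pool.Agent.H40LT.Null2

/-!
# The number of distinct eigenvalues is maximal outside a set of measure zero
-/

set_option autoImplicit false
set_option linter.unusedSectionVars false
set_option linter.style.haveILetI false

namespace Pool.Agent.H40ZL

open Matrix MeasureTheory Pool.Agent.H40GO Pool.Agent.H40LT

theorem nd_bc {F G : Type*} [Field F] [Field G] [Algebra F G] {n : Type*} [Fintype n] [DecidableEq n]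
    (N : Matrix n n F) : nd G (N.map (algebraMap F G)) = nd G N := by
  unfold nd
  rw [Matrix.charpoly_map, Algebra.algebraMap_self, Polynomial.map_id]

theorem nd_le {F G : Type*} [Field F] [Field G] [Algebra F G] {n : Type*} [Fintype n] [DecidableEq n]
    (N : Matrix n n F) : nd G N ≤ Fintype.card n := by
  classical
  unfold nd
  refine (Multiset.toFinset_card_le _).trans ((Polynomial.card_roots' _).trans ?_)
  rw [Polynomial.natDegree_map, Matrix.charpoly_natDegree_eq_dim]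

theorem hank_zero {G : Type*} [Field G] [IsAlgClosed G] [CharZero G] {n : Type*} [Fintype n] [DecidableEq n]
    (N : Matrix n n G) (m : ℕ) (h : nd G N < m) : hank m N = 0 := by
  classical
  obtain ⟨x, μ, hx, hN, htr⟩ := exists_nodes N m h.le
  have h0 : ∃ l, μ l = 0 := by
    by_contra hcon
    push Not at hcon
    apply absurd h
    rw [not_lt]
    unfold nd
    rw [Algebra.algebraMap_self, Polynomial.map_id, hN]
    have h1 : Finset.univ.image x ⊆ (∏ l, (Polynomial.X - Polynomial.C (x l)) ^ μ l).roots.toFinset := by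
      intro z hz
      obtain ⟨l, -, rfl⟩ := Finset.mem_image.mp hz
      rw [Multiset.mem_toFinset, Polynomial.mem_roots (by rw [← hN]; exact (Matrix.charpoly_monic N).ne_zero),
        Polynomial.IsRoot.def, Polynomial.eval_prod]
      refine Finset.prod_eq_zero (Finset.mem_univ l) ?_
      simp [hcon l]
    have h2 := Finset.card_le_card h1
    rw [Finset.card_image_of_injective _ hx, Finset.card_univ, Fintype.card_fin] at h2
    convert h2
  obtain ⟨l, hl⟩ := h0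
  rw [hank_eq m N x (fun l => (μ l : G)) htr, Finset.prod_eq_zero (Finset.mem_univ l) (by rw [hl, Nat.cast_zero]),
    zero_mul, Polynomial.C_0, zero_mul]

theorem hank_ne_zero {G : Type*} [Field G] [IsAlgClosed G] [CharZero G] {n : Type*} [Fintype n] [DecidableEq n]
    (N : Matrix n n G) : hank (nd G N) N ≠ 0 := (hank_sep (G := G) N _ rfl).ne_zero

section

variable {F : Type*} [Field F] [CharZero F] [TopologicalSpace F] {G : Type*} [Field G] [Algebra F G]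
  [TopologicalSpace G] [IsTopologicalRing G] [T2Space G] [IsAlgClosed G] {Γ : Type*} [Group Γ] [TopologicalSpace Γ]
  [IsTopologicalGroup Γ] [CompactSpace Γ] [MeasurableSpace Γ] [BorelSpace Γ]

theorem generic_of_conn (hFG : Continuous (algebraMap F G)) (μ : Measure Γ) [IsFiniteMeasure μ]
    [μ.IsMulLeftInvariant] [μ.InnerRegularCompactLTTop] {n : Type*} [Fintype n] [DecidableEq n]
    (ρ : Γ →* Matrix n n F) (hρ : Continuous ρ) (Δ : Subgroup Γ) (hΔn : Δ.Normal) (hΔo : IsOpen (Δ : Set Γ))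
    (hΔ : ConnOn (coefAlg (bc G ρ) 1) Δ) :
      ∃ Z : Set Γ, IsClosed Z ∧ μ Z = 0 ∧ (∀ x ∈ Z, ∀ τ, τ * x * τ⁻¹ ∈ Z) ∧
        ∀ x ∈ Δ, x ∉ Z → ∀ y ∈ Δ, nd G (ρ y) ≤ nd G (ρ x) := by
  classical
  have hchar : CharZero G := charZero_of_injective_algebraMap (algebraMap F G).injective
  have hU := bc_cont (G := G) hFG ρ hρ
  obtain ⟨R, hR⟩ : ∃ R, R = coefAlg (bc G ρ) 1 := ⟨_, rfl⟩
  -- the maximum
  obtain ⟨m, ⟨x₁, hx₁, hm⟩, hmax⟩ : ∃ m : ℕ, (∃ x ∈ Δ, nd G (ρ x) = m) ∧ ∀ y ∈ Δ, nd G (ρ y) ≤ m := by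
    have hne : {m : ℕ | ∃ x ∈ Δ, nd G (ρ x) = m}.Nonempty := ⟨_, 1, Δ.one_mem, rfl⟩
    have hbd : BddAbove {m : ℕ | ∃ x ∈ Δ, nd G (ρ x) = m} :=
      ⟨Fintype.card n, by rintro _ ⟨x, -, rfl⟩; exact nd_le _⟩
    exact ⟨_, Nat.sSup_mem hne hbd, fun y hy => le_csSup hbd ⟨y, hy, rfl⟩⟩
  have hndU : ∀ x, nd G (bc G ρ x) = nd G (ρ x) := fun x => nd_bc (ρ x)
  have hmem : ∀ i j, (fun x => bc G ρ x i j) ∈ R := by
    intro i j
    rw [hR]
    exact mem1 (bc G ρ) 1 i j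
  obtain ⟨j, hj⟩ : ∃ j, (hank m (bc G ρ x₁)).coeff j ≠ 0 := by
    by_contra hcon
    push Not at hcon
    have h1 := hank_ne_zero (bc G ρ x₁)
    rw [hndU, hm] at h1
    exact h1 (Polynomial.ext hcon)
  obtain ⟨f, hf, hfe⟩ : ∃ f : Γ → G, f ∈ R ∧ ∀ x, f x = (hank m (bc G ρ x)).coeff j := by
    refine ⟨((hank m (matA R (bc G ρ) hmem)).coeff j : R), Subtype.property _, fun x => ?_⟩
    have h1 := hank_map ((ev R x : R →ₐ[G] G) : R →+* G) m (matA R (bc G ρ) hmem)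
    have h2 : (matA R (bc G ρ) hmem).map ((ev R x : R →ₐ[G] G) : R →+* G) = bc G ρ x := matA_ev R (bc G ρ) hmem x
    rw [h2] at h1
    rw [← h1, Polynomial.coeff_map]
    rfl
  have hopf := coefAlg_hopf (bc G ρ) 1
  rw [← hR] at hopf
  haveI : Algebra.FiniteType G R := R.fg_iff_finiteType.mp hopf.fg
  haveI : IsNoetherianRing R := Algebra.FiniteType.isNoetherianRing G R
  have hcont : ∀ r ∈ R, Continuous r := by
    rw [hR]
    exact cont_coefAlg _ hU
  have hnull : μ ({x | f x = 0} ∩ Δ) = 0 := by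
    by_contra hcon
    have h1 := null_zero_on μ R hopf.comul hcont Δ hΔo (by rw [hR]; exact hΔ) f hf hcon x₁ hx₁
    rw [hfe] at h1
    exact hj h1
  have hclosed : IsClosed ({x | f x = 0} ∩ (Δ : Set Γ)) :=
    (isClosed_singleton.preimage (hcont f hf)).inter (Δ.isClosed_of_isOpen hΔo)
  obtain ⟨B, hB⟩ : ∃ B : Set Γ, B = {x | x ∈ Δ ∧ nd G (ρ x) < m} := ⟨_, rfl⟩
  have hBsub : closure B ⊆ {x | f x = 0} ∩ (Δ : Set Γ) := by
    refine closure_minimal ?_ hclosed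
    rw [hB]
    rintro x ⟨hx1, hx2⟩
    refine ⟨?_, hx1⟩
    change f x = 0
    rw [hfe, hank_zero _ _ (by rw [hndU]; exact hx2), Polynomial.coeff_zero]
  have hBconj : ∀ x ∈ B, ∀ τ, τ * x * τ⁻¹ ∈ B := by
    rw [hB]
    rintro x ⟨hx1, hx2⟩ τ
    refine ⟨hΔn.conj_mem x hx1 τ, ?_⟩
    have h1 : (ρ (τ * x * τ⁻¹)).charpoly = (ρ x).charpoly := by
      have h2 : ρ τ * ρ τ⁻¹ = 1 := by rw [← map_mul, mul_inv_cancel, map_one]
      have h3 : ρ τ⁻¹ * ρ τ = 1 := by rw [← map_mul, inv_mul_cancel, map_one]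
      rw [map_mul, map_mul]
      have h4 := Matrix.charpoly_units_conj (⟨ρ τ, ρ τ⁻¹, h2, h3⟩ : (Matrix n n F)ˣ) (ρ x)
      rw [← Matrix.coe_units_inv] at h4
      exact h4
    unfold nd at hx2 ⊢
    rw [h1]
    exact hx2
  refine ⟨closure B, isClosed_closure, measure_mono_null hBsub hnull, ?_, ?_⟩
  · intro x hx τ
    have hc : Continuous fun y : Γ => τ * y * τ⁻¹ := by fun_prop
    exact map_mem_closure (f := fun y : Γ => τ * y * τ⁻¹) hc hx fun y hy => hBconj y hy τ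
  · intro x hx hxZ y hy
    refine (hmax y hy).trans ?_
    by_contra hcon
    apply hxZ
    apply subset_closure
    rw [hB]
    exact ⟨hx, not_le.mp hcon⟩

theorem exists_generic (hFG : Continuous (algebraMap F G)) (μ : Measure Γ) [IsFiniteMeasure μ]
    [μ.IsMulLeftInvariant] [μ.InnerRegularCompactLTTop] {n : Type*} [Fintype n] [DecidableEq n]
    (ρ : Γ →* Matrix n n F) (hρ : Continuous ρ) :
    ∃ Δ : Subgroup Γ, Δ.Normal ∧ IsOpen (Δ : Set Γ) ∧ (Rigid (bc G ρ) ⊤ → Δ = ⊤) ∧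
      ∃ Z : Set Γ, IsClosed Z ∧ μ Z = 0 ∧ (∀ x ∈ Z, ∀ τ, τ * x * τ⁻¹ ∈ Z) ∧
        ∀ x ∈ Δ, x ∉ Z → ∀ y ∈ Δ, nd G (ρ y) ≤ nd G (ρ x) := by
  obtain ⟨Δ, hΔn, hΔo, hΔ, hΔt⟩ := exists_delta (bc G ρ) (bc_cont (G := G) hFG ρ hρ)
  exact ⟨Δ, hΔn, hΔo, hΔt, generic_of_conn hFG μ ρ hρ Δ hΔn hΔo hΔ⟩

end

end Pool.Agent.H40ZL
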