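import Mathlib
import Pool.Agent.H40ZL.NullSet

/-!
# One semisimple element outside the geometric fundamental group
-/

set_option autoImplicit false
set_option linter.unusedSectionVars false
set_option linter.style.haveILetI false

namespace Pool.Agent.H40ZL

open Matrix Pool.Agent.H40GO Pool.Agent.H40LT

section

variable {F : Type*} [Field F] [CharZero F] [TopologicalSpace F] [IsTopologicalRing F] [T1Space F]
  {Γ : Type*} [Group Γ] [TopologicalSpace Γ] [IsTopologicalGroup Γ] {n : Type*} [Fintype n] [DecidableEq n]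

theorem closed_sub (U : Submodule F (n → F)) : IsClosed (U : Set (n → F)) := by
  have h1 : (U : Set (n → F)) = ⋂ f ∈ U.dualAnnihilator, {v | f v = 0} := by
    ext v
    simp only [SetLike.mem_coe, Set.mem_iInter, Set.mem_ofPred_eq]
    constructor
    · intro hv f hf
      exact (Submodule.mem_dualAnnihilator f).mp hf v hv
    · intro hv
      rw [← Subspace.dualAnnihilator_dualCoannihilator_eq (W := U), Submodule.mem_dualCoannihilator]
      exact hv
  rw [h1]
  refine isClosed_biInter fun f _ => ?_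
  exact isClosed_singleton.preimage (LinearMap.continuous_on_pi f)

/-- the stabiliser of a subspace -/
def stab (ρ : Γ →* Matrix n n F) (U : Submodule F (n → F)) : Subgroup Γ where
  carrier := {g | (∀ v ∈ U, ρ g *ᵥ v ∈ U) ∧ ∀ v ∈ U, ρ g⁻¹ *ᵥ v ∈ U}
  mul_mem' := by
    rintro a b ⟨ha, ha'⟩ ⟨hb, hb'⟩
    refine ⟨fun v hv => ?_, fun v hv => ?_⟩
    · rw [map_mul, ← Matrix.mulVec_mulVec]
      exact ha _ (hb v hv)
    · rw [_root_.mul_inv_rev, map_mul, ← Matrix.mulVec_mulVec]
      exact hb' _ (ha' v hv)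
  one_mem' := by
    refine ⟨fun v hv => ?_, fun v hv => ?_⟩
    · rwa [map_one, Matrix.one_mulVec]
    · rwa [inv_one, map_one, Matrix.one_mulVec]
  inv_mem' := by
    rintro a ⟨ha, ha'⟩
    exact ⟨ha', by simpa using ha⟩

theorem stab_closed (ρ : Γ →* Matrix n n F) (hρ : Continuous ρ) (U : Submodule F (n → F)) :
    IsClosed (stab ρ U : Set Γ) := by
  have h1 : (stab ρ U : Set Γ) = (⋂ v ∈ U, {g | ρ g *ᵥ v ∈ U}) ∩ ⋂ v ∈ U, {g | ρ g⁻¹ *ᵥ v ∈ U} := by
    ext g
    simp only [Set.mem_inter_iff, Set.mem_iInter, Set.mem_ofPred_eq]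
    rfl
  rw [h1]
  have hc : ∀ v : n → F, Continuous fun g => ρ g *ᵥ v := fun v => hρ.matrix_mulVec continuous_const
  refine (isClosed_biInter fun v _ => ?_).inter (isClosed_biInter fun v _ => ?_)
  · exact (closed_sub U).preimage (hc v)
  · exact (closed_sub U).preimage ((hc v).comp continuous_inv)

theorem ssimple_of_closure (ρ : Γ →* Matrix n n F) (hρ : Continuous ρ) (N : Subgroup Γ) [hN : N.Normal]
    (hss : SSimple (ρ '' (N : Set Γ))) (σ₀ : Γ) (hσ : Module.End.IsSemisimple (Matrix.toLin' (ρ σ₀))) :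
    SSimple (ρ '' ((N ⊔ Subgroup.zpowers σ₀).topologicalClosure : Set Γ)) := by
  have hinv : ∀ x : Γ, ρ x * ρ x⁻¹ = 1 := fun x => by rw [← map_mul, mul_inv_cancel, map_one]
  have hinv' : ∀ x : Γ, ρ x⁻¹ * ρ x = 1 := fun x => by rw [← map_mul, inv_mul_cancel, map_one]
  have h1 : SSimple (insert (ρ σ₀) (ρ '' (N : Set Γ))) := by
    refine ssimple_insert _ hss (ρ σ₀) (ρ σ₀⁻¹) (hinv σ₀) hσ ?_ ?_
    · rintro _ ⟨x, hx, rfl⟩
      exact ⟨σ₀ * x * σ₀⁻¹, hN.conj_mem x hx σ₀, by rw [map_mul, map_mul]⟩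
    · rintro _ ⟨x, hx, rfl⟩
      refine ⟨σ₀⁻¹ * x * σ₀, ?_, by rw [map_mul, map_mul]⟩
      have := hN.conj_mem x hx σ₀⁻¹
      rwa [inv_inv] at this
  intro U hU
  obtain ⟨U', hU', hc⟩ := h1 U (by
    rintro x (rfl | ⟨y, hy, rfl⟩) v hv
    · refine hU _ ⟨σ₀, ?_, rfl⟩ v hv
      exact Subgroup.le_topologicalClosure _ (Subgroup.mem_sup_right (Subgroup.mem_zpowers σ₀))
    · exact hU _ ⟨y, Subgroup.le_topologicalClosure _ (Subgroup.mem_sup_left hy), rfl⟩ v hv)
  refine ⟨U', ?_, hc⟩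
  have h2 : (N ⊔ Subgroup.zpowers σ₀).topologicalClosure ≤ stab ρ U' := by
    refine Subgroup.topologicalClosure_minimal _ ?_ (stab_closed ρ hρ U')
    refine sup_le ?_ ?_
    · intro x hx
      exact ⟨fun v hv => hU' _ (Set.mem_insert_of_mem _ ⟨x, hx, rfl⟩) v hv,
        fun v hv => hU' _ (Set.mem_insert_of_mem _ ⟨x⁻¹, N.inv_mem hx, rfl⟩) v hv⟩
    · rw [Subgroup.zpowers_le]
      have h3 : ∀ v ∈ U', ρ σ₀ *ᵥ v ∈ U' := fun v hv => hU' _ (Set.mem_insert _ _) v hv
      refine ⟨h3, ?_⟩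
      -- the restriction is injective, so onto
      let f : U' →ₗ[F] U' := (Matrix.toLin' (ρ σ₀)).restrict (p := U') (q := U') (by
        intro v hv
        rw [Matrix.toLin'_apply]
        exact h3 v hv)
      have hf : Function.Injective f := by
        intro a b hab
        have h4 : ρ σ₀ *ᵥ (a : n → F) = ρ σ₀ *ᵥ (b : n → F) := by
          have := congrArg Subtype.val hab
          rwa [LinearMap.coe_restrict_apply, LinearMap.coe_restrict_apply, Matrix.toLin'_apply,
            Matrix.toLin'_apply] at this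
        have h5 := congrArg (fun w => ρ σ₀⁻¹ *ᵥ w) h4
        simp only [Matrix.mulVec_mulVec, hinv', Matrix.one_mulVec] at h5
        exact Subtype.ext h5
      have hf' : Function.Surjective f := LinearMap.injective_iff_surjective.mp hf
      intro v hv
      obtain ⟨w, hw⟩ := hf' ⟨v, hv⟩
      have h6 : ρ σ₀ *ᵥ (w : n → F) = v := by
        have := congrArg Subtype.val hw
        rwa [LinearMap.coe_restrict_apply, Matrix.toLin'_apply] at this
      rw [← h6, Matrix.mulVec_mulVec, hinv', Matrix.one_mulVec]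
      exact w.2
  rintro _ ⟨x, hx, rfl⟩ v hv
  exact (h2 hx).1 v hv

theorem ssimple_all [CompactSpace Γ] (ρ : Γ →* Matrix n n F) (hρ : Continuous ρ) (N : Subgroup Γ) [N.Normal]
    (hss : SSimple (ρ '' (N : Set Γ))) (σ₀ : Γ) (hσ : Module.End.IsSemisimple (Matrix.toLin' (ρ σ₀)))
    (hopen : IsOpen ((N ⊔ Subgroup.zpowers σ₀).topologicalClosure : Set Γ)) : SSimple (Set.range ρ) := by
  haveI : Finite (Γ ⧸ (N ⊔ Subgroup.zpowers σ₀).topologicalClosure) := Subgroup.quotient_finite_of_isOpen _ hopen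
  haveI : (N ⊔ Subgroup.zpowers σ₀).topologicalClosure.FiniteIndex := Subgroup.finiteIndex_of_finite_quotient
  exact ssimple_of_index ρ _ (ssimple_of_closure ρ hρ N hss σ₀ hσ)

end

end Pool.Agent.H40ZL
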