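import Mathlib
import Pool.Agent.H40ZL.Fibre

/-!
# The eigenvalue one: invariants and the order of the pole
-/

set_option autoImplicit false
set_option linter.unusedSectionVars false
set_option linter.style.haveILetI false

namespace Pool.Agent.H40ZL

open Matrix MeasureTheory Module Pool.Agent.H40GO Pool.Agent.H40LT

section Alg

variable {k : Type*} [Field k] {n : Type*} [Fintype n] [DecidableEq n]

/-- the dimension of the kernel -/
noncomputable def nul (T : Matrix n n k) : ℕ := finrank k (LinearMap.ker (Matrix.toLin' T))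

theorem ker_le_mult (T : Matrix n n k) : nul T ≤ T.charpoly.rootMultiplicity 0 := by
  rw [← mz_iff, mz_iff_finrank]
  unfold nul
  refine Submodule.finrank_mono ?_
  intro v hv
  rw [LinearMap.mem_ker] at hv
  rw [mem_max]
  refine ⟨1, ?_⟩
  rw [pow_one]
  exact hv

theorem mz_of_ker (m : ℕ) (T B : Matrix n n k) (h : m ≤ nul T) : MZ m (T * B) := by
  rw [mz_iff, Matrix.charpoly_mul_comm]
  refine le_trans ?_ (ker_le_mult _)
  refine h.trans ?_
  unfold nul
  refine Submodule.finrank_mono ?_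
  intro v hv
  rw [LinearMap.mem_ker, Matrix.toLin'_apply] at hv ⊢
  rw [← Matrix.mulVec_mulVec, hv, Matrix.mulVec_zero]

theorem ker_of_mz (m : ℕ) (T : Matrix n n k) (h : ∀ B : Matrix n n k, MZ m (T * B)) : m ≤ nul T := by
  -- a projection onto the range
  obtain ⟨C, hC⟩ := Submodule.exists_isCompl (LinearMap.range (Matrix.toLin' T))
  obtain ⟨s, hs⟩ := (Matrix.toLin' T).rangeRestrict.exists_rightInverse_of_surjective
    (LinearMap.range_rangeRestrict _)
  obtain ⟨π, hπ⟩ : ∃ π : (n → k) →ₗ[k] LinearMap.range (Matrix.toLin' T),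
      ∀ x : LinearMap.range (Matrix.toLin' T), π (x : n → k) = x :=
    ⟨Submodule.projectionOnto _ C hC, fun x => Submodule.projectionOnto_apply_left hC x⟩
  obtain ⟨P, hP⟩ : ∃ P : (n → k) →ₗ[k] (n → k), P = (Matrix.toLin' T) ∘ₗ (s ∘ₗ π) := ⟨_, rfl⟩
  have hPπ : ∀ v, P v = (π v : n → k) := by
    intro v
    rw [hP]
    exact congrArg Subtype.val (LinearMap.congr_fun hs (π v))
  have hPP : ∀ v, P (P v) = P v := by
    intro v
    rw [hPπ (P v), hPπ v, hπ]
  have h1 := h (LinearMap.toMatrix' (s ∘ₗ π))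
  rw [mz_iff_finrank] at h1
  have h2 : Matrix.toLin' (T * LinearMap.toMatrix' (s ∘ₗ π)) = P := by
    rw [Matrix.toLin'_mul, Matrix.toLin'_toMatrix', hP]
  rw [h2] at h1
  have h3 : Module.End.maxGenEigenspace P 0 ≤ LinearMap.ker P := by
    intro v hv
    rw [mem_max] at hv
    obtain ⟨j, hj⟩ := hv
    rw [LinearMap.mem_ker]
    rcases Nat.eq_zero_or_pos j with rfl | hj0
    · rw [pow_zero] at hj
      have : v = 0 := hj
      rw [this, map_zero]
    · have h4 : ∀ i, 0 < i → (P ^ i) v = P v := by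
        intro i hi
        induction i with
        | zero => omega
        | succ i ih =>
          rcases Nat.eq_zero_or_pos i with rfl | hi0
          · rw [zero_add, pow_one]
          · rw [pow_succ', Module.End.mul_apply, ih hi0, hPP]
      rw [h4 j hj0] at hj
      exact hj
  have h5 : finrank k (LinearMap.ker P) = nul T := by
    have h6 : LinearMap.range P = LinearMap.range (Matrix.toLin' T) := by
      apply le_antisymm
      · rintro _ ⟨v, rfl⟩
        rw [hPπ]
        exact (π v).2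
      · intro v hv
        refine ⟨v, ?_⟩
        rw [hPπ]
        exact congrArg Subtype.val (hπ ⟨v, hv⟩)
    have h7 := LinearMap.finrank_range_add_finrank_ker P
    have h8 := LinearMap.finrank_range_add_finrank_ker (Matrix.toLin' T)
    unfold nul
    rw [h6] at h7
    omega
  rw [← h5]
  exact h1.trans (Submodule.finrank_mono h3)

/-- the multiplicity of the eigenvalue one -/
noncomputable def mult1 (N : Matrix n n k) : ℕ := N.charpoly.rootMultiplicity 1

theorem mult1_eq (N : Matrix n n k) : mult1 N = (N - 1).charpoly.rootMultiplicity 0 := by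
  unfold mult1
  have h1 : (N - 1).charpoly = N.charpoly.comp (Polynomial.X + Polynomial.C 1) := by
    have h2 := Matrix.charpoly_sub_scalar N 1
    rw [map_one] at h2
    exact h2
  rw [h1, Polynomial.rootMultiplicity_eq_rootMultiplicity]

theorem mult1_of_semisimple [CharZero k] (N : Matrix n n k) (h : Module.End.IsSemisimple (Matrix.toLin' N)) :
    nul (N - 1) = mult1 N := by
  rw [mult1_eq]
  apply le_antisymm (ker_le_mult _)
  have h0 := (mz_iff (m := (N - 1).charpoly.rootMultiplicity 0) (N - 1)).mpr le_rfl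
  rw [mz_iff_finrank] at h0
  refine h0.trans ?_
  unfold nul
  refine Submodule.finrank_mono ?_
  intro v hv
  have h1 : Matrix.toLin' (N - 1) = Matrix.toLin' N - (1 : k) • (1 : Module.End k (n → k)) := by
    rw [map_sub, Matrix.toLin'_one, one_smul]
    rfl
  have h2 : Module.End.IsFinitelySemisimple (Matrix.toLin' N) := h.isFinitelySemisimple
  have h3 := h2.maxGenEigenspace_eq_eigenspace (1 : k)
  rw [mem_max] at hv
  obtain ⟨j, hj⟩ := hv
  have h4 : v ∈ Module.End.maxGenEigenspace (Matrix.toLin' N) 1 := by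
    rw [Module.End.mem_maxGenEigenspace]
    exact ⟨j, by rw [← h1]; exact hj⟩
  rw [h3, Module.End.mem_eigenspace_iff] at h4
  rw [LinearMap.mem_ker, h1, LinearMap.sub_apply, h4, LinearMap.smul_apply]
  simp

end Alg

section Top

variable {F : Type*} [Field F] [CharZero F] [TopologicalSpace F] {G : Type*} [Field G] [Algebra F G]
  [TopologicalSpace G] [IsTopologicalRing G] [T2Space G] [IsAlgClosed G] {Γ : Type*} [Group Γ] [TopologicalSpace Γ]
  [IsTopologicalGroup Γ] [CompactSpace Γ] [MeasurableSpace Γ] [BorelSpace Γ] {n : Type*} [Fintype n] [DecidableEq n]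

/-- the coefficients of the characteristic polynomial of `(ρ x - 1) B` are representative functions -/
theorem coeff_mem (ρ : Γ →* Matrix n n F) (B : Matrix n n F) (j : ℕ) :
    ∃ f ∈ coefAlg (bc G ρ) 1, ∀ x, f x = algebraMap F G (((ρ x - 1) * B).charpoly.coeff j) := by
  obtain ⟨R, hR⟩ : ∃ R, R = coefAlg (bc G ρ) 1 := ⟨_, rfl⟩
  have hmem : ∀ i j, (fun x => bc G ρ x i j) ∈ R := by
    intro i j
    rw [hR]
    exact mem1 (bc G ρ) 1 i j
  rw [← hR]
  refine ⟨((((matA R (bc G ρ) hmem - 1) * B.map (algebraMap F R)).charpoly.coeff j : R) : Γ → G),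
    Subtype.property _, fun x => ?_⟩
  have h1 : ((ev R x : R →ₐ[G] G) : R →+* G).mapMatrix ((matA R (bc G ρ) hmem - 1) * B.map (algebraMap F R)) =
      ((ρ x - 1) * B).map (algebraMap F G) := by
    rw [map_mul, map_sub, matA_ev, map_one]
    have h2 : ((ev R x : R →ₐ[G] G) : R →+* G).mapMatrix (B.map (algebraMap F R)) = B.map (algebraMap F G) := by
      ext a c
      rfl
    rw [h2, Matrix.map_mul, Matrix.map_sub _ (fun a b => map_sub _ a b), Matrix.map_one _ (map_zero _) (map_one _)]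
    rfl
  have h3 := Matrix.charpoly_map ((matA R (bc G ρ) hmem - 1) * B.map (algebraMap F R))
    ((ev R x : R →ₐ[G] G) : R →+* G)
  have h4 := Matrix.charpoly_map ((ρ x - 1) * B) (algebraMap F G)
  have h5 : (((matA R (bc G ρ) hmem - 1) * B.map (algebraMap F R)).map ((ev R x : R →ₐ[G] G) : R →+* G)) =
      ((ρ x - 1) * B).map (algebraMap F G) := h1
  rw [h5, h4] at h3
  have h6 := congrArg (fun p => p.coeff j) h3
  simp only [Polynomial.coeff_map] at h6
  exact h6.symm

theorem pole (hFG : Continuous (algebraMap F G)) (μ : Measure Γ) [IsFiniteMeasure μ]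
    [μ.IsMulLeftInvariant] [μ.InnerRegularCompactLTTop] [μ.IsOpenPosMeasure]
    (ρ : Γ →* Matrix n n F) (hρ : Continuous ρ) (hss : SSimple (Set.range ρ)) :
    ∃ Δ : Subgroup Γ, Δ.Normal ∧ IsOpen (Δ : Set Γ) ∧ (Rigid (bc G ρ) ⊤ → Δ = ⊤) ∧
      ∃ m : ℕ, (∀ x ∈ Δ, m ≤ nul (ρ x - 1)) ∧
      ∃ Z : Set Γ, IsClosed Z ∧ μ Z = 0 ∧ (∀ x ∈ Z, ∀ τ, τ * x * τ⁻¹ ∈ Z) ∧
        ∀ x ∈ Δ, x ∉ Z → mult1 (ρ x) = m := by
  classical
  have hchar : CharZero G := charZero_of_injective_algebraMap (algebraMap F G).injective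
  have hU := bc_cont (G := G) hFG ρ hρ
  obtain ⟨Δ, hΔn, hΔo, hΔ, hΔt⟩ := exists_delta (bc G ρ) hU
  obtain ⟨R, hR⟩ : ∃ R, R = coefAlg (bc G ρ) 1 := ⟨_, rfl⟩
  have hopf := coefAlg_hopf (bc G ρ) 1
  rw [← hR] at hopf
  haveI : Algebra.FiniteType G R := R.fg_iff_finiteType.mp hopf.fg
  haveI : IsNoetherianRing R := Algebra.FiniteType.isNoetherianRing G R
  have hcont : ∀ r ∈ R, Continuous r := by
    rw [hR]
    exact cont_coefAlg _ hU
  have hnull : ∀ f ∈ R, (∃ x ∈ Δ, f x ≠ 0) → μ ({x | f x = 0} ∩ Δ) = 0 := by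
    intro f hf ⟨x, hx, hfx⟩
    by_contra hcon
    exact hfx (null_zero_on μ R hopf.comul hcont Δ hΔo (by rw [hR]; exact hΔ) f hf hcon x hx)
  have hcoef : ∀ B : Matrix n n F, ∀ j, ∃ f ∈ R, ∀ x, f x = algebraMap F G (((ρ x - 1) * B).charpoly.coeff j) := by
    rw [hR]
    exact coeff_mem ρ
  obtain ⟨m, ⟨x₁, hx₁, hm⟩, hmin⟩ : ∃ m : ℕ, (∃ x ∈ Δ, mult1 (ρ x) = m) ∧ ∀ y ∈ Δ, m ≤ mult1 (ρ y) := by
    have hne : {m : ℕ | ∃ x ∈ Δ, mult1 (ρ x) = m}.Nonempty := ⟨_, 1, Δ.one_mem, rfl⟩
    exact ⟨_, Nat.sInf_mem hne, fun y hy => Nat.sInf_le ⟨y, hy, rfl⟩⟩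
  have hmz : ∀ x j, MZ j (ρ x - 1) ↔ j ≤ mult1 (ρ x) := fun x j => by rw [mz_iff, mult1_eq]
  -- the order of the pole is minimal outside a null set
  obtain ⟨f, hf, hfe⟩ := hcoef 1 m
  have hf1 : f x₁ ≠ 0 := by
    intro h0
    rw [hfe, map_eq_zero, mul_one] at h0
    have h1 : MZ (m + 1) (ρ x₁ - 1) := by
      intro j hj
      rcases Nat.lt_succ_iff_lt_or_eq.mp hj with h | h
      · exact (hmz x₁ m).mpr hm.ge j h
      · rw [h]
        exact h0
    rw [hmz, hm] at h1
    omega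
  have hnf := hnull f hf ⟨x₁, hx₁, hf1⟩
  obtain ⟨Z₁, hZ₁c, hZ₁μ, hZ₁conj, hZ₁⟩ := generic_of_conn (G := G) hFG μ ρ hρ Δ hΔn hΔo hΔ
  refine ⟨Δ, hΔn, hΔo, hΔt, m, ?_, ?_⟩
  · -- semicontinuity of the rank
    intro x hx
    apply ker_of_mz
    intro B j hj
    obtain ⟨g, hg, hge⟩ := hcoef B j
    have h1 : μ ({x | g x = 0} ∩ Δ) ≠ 0 := by
      intro h0
      have h2 : (Δ : Set Γ) ⊆ ({x | g x = 0} ∩ Δ) ∪ (({x | f x = 0} ∩ Δ) ∪ Z₁) := by
        intro y hy
        by_cases h3 : y ∈ ({x | f x = 0} ∩ (Δ : Set Γ)) ∪ Z₁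
        · exact Or.inr h3
        · left
          refine ⟨?_, hy⟩
          rw [Set.mem_union, not_or] at h3
          have h4 : f y ≠ 0 := fun h => h3.1 ⟨h, hy⟩
          have h5 : mult1 (ρ y) = m := by
            apply le_antisymm _ (hmin y hy)
            by_contra hcon
            apply h4
            rw [hfe, mul_one, (hmz y (m + 1)).mpr (by omega) m (Nat.lt_succ_self m), map_zero]
          have h6 : nul (ρ y - 1) = m := by
            rw [mult1_of_semisimple _ (semisimple_of_max (G := G) ρ hss Δ (hDn := hΔn) y hy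
              (fun z hz => hZ₁ y hy h3.2 z hz)), h5]
          change g y = 0
          rw [hge, mz_of_ker m (ρ y - 1) B h6.ge j hj, map_zero]
      have h3 : μ (Δ : Set Γ) = 0 := by
        refine measure_mono_null h2 ?_
        rw [measure_union_null_iff, measure_union_null_iff]
        exact ⟨h0, hnf, hZ₁μ⟩
      exact (hΔo.measure_pos μ ⟨1, Δ.one_mem⟩).ne' h3
    have h2 := null_zero_on μ R hopf.comul hcont Δ hΔo (by rw [hR]; exact hΔ) g hg h1 x hx
    rw [hge, map_eq_zero] at h2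
    exact h2
  · have hclosed : IsClosed ({x | f x = 0} ∩ (Δ : Set Γ)) :=
      (isClosed_singleton.preimage (hcont f hf)).inter (Δ.isClosed_of_isOpen hΔo)
    obtain ⟨B, hB⟩ : ∃ B : Set Γ, B = {x | x ∈ Δ ∧ mult1 (ρ x) ≠ m} := ⟨_, rfl⟩
    have hBsub : closure B ⊆ {x | f x = 0} ∩ (Δ : Set Γ) := by
      refine closure_minimal ?_ hclosed
      rw [hB]
      rintro x ⟨hx1, hx2⟩
      refine ⟨?_, hx1⟩
      change f x = 0
      have h3 := hmin x hx1
      rw [hfe, mul_one, (hmz x (m + 1)).mpr (by omega) m (Nat.lt_succ_self m), map_zero]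
    have hBconj : ∀ x ∈ B, ∀ τ, τ * x * τ⁻¹ ∈ B := by
      rw [hB]
      rintro x ⟨hx1, hx2⟩ τ
      refine ⟨hΔn.conj_mem x hx1 τ, ?_⟩
      have h1 : (ρ (τ * x * τ⁻¹)).charpoly = (ρ x).charpoly := by
        have h2 : ρ τ * ρ τ⁻¹ = 1 := by rw [← map_mul, mul_inv_cancel, map_one]
        have h3 : ρ τ⁻¹ * ρ τ = 1 := by rw [← map_mul, inv_mul_cancel, map_one]
        rw [map_mul, map_mul]
        have h4 := Matrix.charpoly_units_conj (⟨ρ τ, ρ τ⁻¹, h2, h3⟩ : (Matrix n n F)ˣ) (ρ x)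
        rw [← Matrix.coe_units_inv] at h4
        exact h4
      unfold mult1 at hx2 ⊢
      rw [h1]
      exact hx2
    refine ⟨closure B, isClosed_closure, measure_mono_null hBsub hnf, ?_, ?_⟩
    · intro x hx τ
      have hc : Continuous fun y : Γ => τ * y * τ⁻¹ := by fun_prop
      exact map_mem_closure (f := fun y : Γ => τ * y * τ⁻¹) hc hx fun y hy => hBconj y hy τ
    · intro x hx hxZ
      by_contra hcon
      apply hxZ
      apply subset_closure
      rw [hB]
      exact ⟨hx, hcon⟩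

end Top

end Pool.Agent.H40ZL
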