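import Mathlib
import Pool.Agent.H40ZL.Defs

/-!
# Stubs: elements with the maximal number of distinct eigenvalues in a semisimple representation

Project ZL (MP_93fb11_ag, slot 4).  Target: if `ρ` is a semisimple representation of a group `Γ` over a field of
characteristic zero, then every `g` such that `ρ g` has the maximal number of distinct eigenvalues is semisimple.
-/

set_option autoImplicit false

namespace Pool.Agent.H40ZL

open Matrix

/-! ## the stubs -/

/-- **H1.** (short) `hank` commutes with ring homomorphisms.  (`RingHom.map_det`, `Matrix.trace_map`-like, `map_pow`.) -/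
theorem hank_map {R S : Type*} [CommRing R] [CommRing S] (f : R →+* S) {n : Type*} [Fintype n] [DecidableEq n] (m : ℕ)
    (N : Matrix n n R) : (hank m N).map f = hank m (N.map f) := by
  sorry

/-- **H2.** If the traces of the powers are `∑ μ_l x_l^j` with `m` nodes `x_l`, then the matrix of `hank` is the
product of the matrix `B` (`B i l = μ_l x_l^i` for `i, l < m`, `B m m = 1`, other entries 0) with the Vandermonde matrix
of the nodes `x_0, …, x_{m-1}, T` (`V l j = x_l^j`, `V m j = T^j`).  So its determinant is
`(∏ μ_l) det(vandermonde x) · det (vandermonde (x, T))` and `det (vandermonde (x, T)) = det(vandermonde x) ∏ (T - x_l)`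
(`Matrix.det_vandermonde`).  Index the matrices by `Fin (m+1)`, `Fin.snoc x T`, `Matrix.det_mul`, and block
triangularity or `Matrix.det_succ_row` at the last row for `B`. -/
theorem hank_eq {R : Type*} [CommRing R] {n : Type*} [Fintype n] [DecidableEq n] (m : ℕ) (N : Matrix n n R)
    (x μ : Fin m → R) (h : ∀ j : ℕ, Matrix.trace (N ^ j) = ∑ l, μ l * x l ^ j) :
    hank m N = Polynomial.C ((∏ l, μ l) * (Matrix.vandermonde x).det ^ 2) *
      ∏ l, (Polynomial.X - Polynomial.C (x l)) := by
  sorry

/-- **H3.** Over an algebraically closed field of characteristic zero: if `N` has at most `m` distinct eigenvalues, then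
they can be completed by dummy nodes with weight zero (the field is infinite) to `m` distinct nodes `x_l` with the
multiplicities `μ_l`.  (The charpoly splits; `Matrix.trace_eq_sum_roots_charpoly`, and the charpoly roots of `N ^ j` are
the `j`-th powers of the roots: look for `Matrix.charpoly` / `aeval` lemmas, e.g. through
`Matrix.IsUpperTriangular`-free way: `Polynomial.aeval` and `Module.End`; in the library
`Pool.Agent.H40GO`/`H40LT` there may be such a lemma, e.g. grep for `trace_pow`.) -/
theorem exists_nodes {G : Type*} [Field G] [IsAlgClosed G] [CharZero G] {n : Type*} [Fintype n] [DecidableEq n]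
    (N : Matrix n n G) (m : ℕ) (h : nd G N ≤ m) : ∃ (x : Fin m → G) (μ : Fin m → ℕ), Function.Injective x ∧
      N.charpoly = ∏ l, (Polynomial.X - Polynomial.C (x l)) ^ μ l ∧
      ∀ j : ℕ, Matrix.trace (N ^ j) = ∑ l, (μ l : G) * x l ^ j := by
  sorry

/-- **H4.** (uses H1-H3) Let `G` be an algebraic closure (any algebraically closed extension) of `k`, and let `N` have at
most `m` distinct eigenvalues in `G`.  Then `hank m N` at `N` is nilpotent.  Proof: over `G`, by H1, H2, H3 it is either
zero (some `μ_l = 0`) or a constant times `∏ (N - x_l)`, and the charpoly divides a power of `∏ (T - x_l)`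
(Cayley-Hamilton).  Nilpotency descends because `Matrix n n k → Matrix n n G` is injective. -/
theorem hank_nilp {k G : Type*} [Field k] [Field G] [Algebra k G] [IsAlgClosed G] [CharZero k] {n : Type*} [Fintype n]
    [DecidableEq n] (N : Matrix n n k) (m : ℕ) (h : nd G N ≤ m) : IsNilpotent (Polynomial.aeval N (hank m N)) := by
  sorry

/-- **H5.** (uses H1-H3) If `N` has exactly `m` distinct eigenvalues, `hank m N` is a nonzero constant times the
product of the `T - x_l` with distinct `x_l` over `G`, so it is coprime to its derivative (descend: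
`Polynomial.isCoprime_map`, `Polynomial.Separable`). -/
theorem hank_sep {k G : Type*} [Field k] [Field G] [Algebra k G] [IsAlgClosed G] [CharZero k] {n : Type*} [Fintype n]
    [DecidableEq n] (N : Matrix n n k) (m : ℕ) (h : nd G N = m) : (hank m N).Separable := by
  sorry

/-- **H6.** (uses H1-H3) If `N` has exactly `m` distinct eigenvalues and `h(N)` is nilpotent, then every root of the
charpoly is a root of `h` so `hank m N` divides `h` (over `G`, hence over `k`: `Polynomial.map_dvd_map'` or
`Polynomial.map_dvd_map`). -/
theorem hank_dvd {k G : Type*} [Field k] [Field G] [Algebra k G] [IsAlgClosed G] [CharZero k] {n : Type*} [Fintype n]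
    [DecidableEq n] (N : Matrix n n k) (m : ℕ) (h : nd G N = m) (q : Polynomial k)
    (hq : IsNilpotent (Polynomial.aeval N q)) : hank m N ∣ q := by
  sorry

/-- **B.** (the main computation) Let `S` be a set of invertible matrices, `Q x := hank m x`, such that `Q x (x)` is
nilpotent for all `x ∈ S`, and let `X` be tangent to `S`.  Let `g ∈ S` be such that `Q g` is separable.  Then
`tr (q(g) X) = 0` for all `q ∈ k[T]` divisible by `Q g`.

Proof.  Let `R = MvPolynomial (n × n) k`, `M` the generic matrix over `R` (`Matrix.mvPolynomialX n n k`), `D = genD X`,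
so that `D M = M X` entrywise, and `𝒬 = hank m M ∈ R[T]`; under evaluation at `x` it becomes `Q x` (H1).
(1) For every `f ∈ R[T]`: `D (tr f(M)) = tr ((D f)(M)) + tr (f'(M) M X)`, where `D f` is the polynomial with the
coefficients `D (coeff)`, `f'` the derivative.  (Linear in `f`; for `f = c T^i` use
`D (M^i) = ∑_{a+b=i-1} M^a (M X) M^b` and the cyclicity of the trace.)
(2) For `h ∈ k[T]` (constant coefficients) and `j ≥ 1` take `f = 𝒬^(j+1) h`.  For all `x ∈ S` the matrix
`Q_x(x)^(j+1) h(x)` is nilpotent, so its trace is zero; as `X` is tangent, `D (tr f(M))` vanishes at all `x ∈ S`.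
`D f = (j+1) 𝒬^j (D 𝒬) h` (the coefficients of `h` are constants); its value at `g` is `Q_g(g)^j` times a polynomial
in `g`, nilpotent, with trace zero.  Hence, with `Q = Q_g`:
`tr (((j+1) Q^j Q' h + Q^(j+1) h')(g) g X) = 0` for all `j ≥ 1`, `h ∈ k[T]`.   (*)
(3) Claim: `tr ((Q^j h)(g) g X) = 0` for all `j ≥ 1` and all `h`.  For `j` large `Q(g)^j = 0`.  Suppose it is true for
`j + 1`, `j ≥ 1`.  As `Q` is separable there are `h₁, r` with `Q' h₁ = h + Q r`; (*) with `h₁` and the claim for `j + 1`
give `(j+1) tr ((Q^j h)(g) g X) = 0`, and the characteristic is zero.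
(4) `g` is invertible: there is a polynomial `c ∈ k[T]` with `c(g) g = 1` (Cayley-Hamilton, or
`Matrix`/`Module.End` lemma).  For `q = Q q₁` apply (3) with `j = 1`, `h = q₁ c`. -/
theorem trace_orth {k : Type*} [Field k] [CharZero k] {n : Type*} [Fintype n] [DecidableEq n] (m : ℕ)
    (S : Set (Matrix n n k)) (hS : ∀ x ∈ S, IsNilpotent (Polynomial.aeval x (hank m x))) (X : Matrix n n k)
    (hX : IsTangent S X) (g : Matrix n n k) (hg : g ∈ S) (hu : IsUnit g) (hsep : (hank m g).Separable)
    (q : Polynomial k) (hq : hank m g ∣ q) : Matrix.trace (Polynomial.aeval g q * X) = 0 := by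
  sorry

/-- **A1.** Exponential polynomials are independent: if `∑ c^i Q_c(i) = 0` for all natural numbers `i`, the sum over a
finite set of nonzero `c` in a field of characteristic zero, then all `Q_c = 0`.  (The sequence `i ↦ c^i Q_c(i)` is in the
generalised eigenspace for `c` of the shift operator on `ℕ → G`; `Module.End.independent_maxGenEigenspace`; then
`Q_c(i) = 0` for all `i`.) -/
theorem expPoly_indep {G : Type*} [Field G] [CharZero G] (s : Finset G) (hs : ∀ c ∈ s, c ≠ 0)
    (Q : G → Polynomial G) (h : ∀ i : ℕ, ∑ c ∈ s, c ^ i * (Q c).eval (i : G) = 0) : ∀ c ∈ s, Q c = 0 := by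
  sorry

/-- **A2.** The unipotent part of `g` is tangent (over an algebraically closed field).  Let `S` be a set of matrices
such that `y * g ^ i ∈ S` for all `y ∈ S` and `i : ℕ`, let `g = s * u = u * s` with `s` diagonalizable
(`P * s = Matrix.diagonal d * P` with `P` invertible, all `d a ≠ 0`) and `u - 1` nilpotent.  Then
`ν = ∑_{j=1}^{b} ((-1)^(j-1)/j) (u - 1)^j`, `b` the size, is tangent to `S`.

Proof.  Let `P₀` vanish on `S`, `y ∈ S`.  `g^i = s^i ∑_j binom(i,j) (u-1)^j` and `s^i = P⁻¹ diag(d^i) P`.  Let
`U(t) = ∑_{j ≤ b} binom(t,j) (u-1)^j`, `binom(t,j) ∈ G[t]` the polynomial `t(t-1)…(t-j+1)/j!`.  Then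
`F(i,t) = P₀(y s^i U(t))` is of the form `∑_c c^i Q_c(t)`, the sum over finitely many products `c` of the `d a`, and
`F(i,i) = 0` for all `i`, so by A1 all `Q_c = 0`, hence `F(0,t) = P₀(y U(t)) = 0` for all `t`, and its derivative at
`t = 0` is `(genD ν P₀)(y)`, as `U(0) = 1` and `U'(0) = ν` (chain rule for polynomials: both sides are derivations in
`P₀`, compare at the variables).  -/
theorem tangent_unip {G : Type*} [Field G] [CharZero G] {n : Type*} [Fintype n] [DecidableEq n]
    (S : Set (Matrix n n G)) (g s u P : Matrix n n G) (d : n → G) (hS : ∀ y ∈ S, ∀ i : ℕ, y * g ^ i ∈ S)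
    (hg : g = s * u) (hc : s * u = u * s) (hd : ∀ a, d a ≠ 0) (hP : IsUnit P) (hs : P * s = Matrix.diagonal d * P)
    (hu : IsNilpotent (u - 1)) :
    IsTangent S (∑ j ∈ Finset.Icc 1 (Fintype.card n), ((-1) ^ (j - 1) / (j : G)) • (u - 1) ^ j) := by
  sorry

/-- **A3.** (short) Descent: if `X` is tangent over the extension `G` of `k` to the set of the matrices in `S`
mapped to `G`, then `X` is tangent over `k`.  (`MvPolynomial.map`, `genD` commutes with it.) -/
theorem tangent_descent {k G : Type*} [Field k] [Field G] [Algebra k G] {n : Type*} [Fintype n] [DecidableEq n]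
    (S : Set (Matrix n n k)) (X : Matrix n n k)
    (h : IsTangent ((fun x : Matrix n n k => x.map (algebraMap k G)) '' S) (X.map (algebraMap k G))) :
    IsTangent S X := by
  sorry

/-- **A4.** (uses A2, A3) Let `k` be a field of characteristic zero, `g` an invertible matrix over `k`, `S` a set with
`y * g ^ i ∈ S` for `y ∈ S`.  Then there is a nilpotent tangent vector `ν` which is a polynomial in `g`, such that `g` is
semisimple if `ν = 0`.

Proof.  Jordan-Chevalley over the perfect field `k` (`Module.End.exists_isNilpotent_isSemisimple`, transported to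
matrices by `Matrix.toLin'`): `g = n + s`, `n, s ∈ k[g]`, `n` nilpotent, `s` semisimple; `s` is invertible (as `g` is and
`n` is nilpotent and commutes), `s⁻¹ ∈ k[s]`, `u = 1 + s⁻¹ n`.  Take `ν = ∑_{j=1}^b ((-1)^(j-1)/j) (u-1)^j`
`= (u - 1) (1 + nilpotent)`, so `ν = 0` iff `u = 1` iff `n = 0`.  Over the algebraic closure `s` is diagonalizable
(semisimple in characteristic zero: separable minimal polynomial, `Module.End.IsSemisimple` base change, or: minpoly
squarefree hence separable, so split with distinct roots over `G`), so A2 and A3 apply. -/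
theorem exists_tangent {k : Type*} [Field k] [CharZero k] {n : Type*} [Fintype n] [DecidableEq n]
    (S : Set (Matrix n n k)) (g : Matrix n n k) (hg : IsUnit g) (hS : ∀ y ∈ S, ∀ i : ℕ, y * g ^ i ∈ S) :
    ∃ (ν : Matrix n n k) (q : Polynomial k), ν = Polynomial.aeval g q ∧ IsNilpotent ν ∧ IsTangent S ν ∧
      (ν = 0 → Module.End.IsSemisimple (Matrix.toLin' g)) := by
  sorry

/-- **L1.** (short) The tangent vectors form a Lie subalgebra: `genD (X + Y) = genD X + genD Y`,
`genD (c • X) = c • genD X`, `genD (X * Y - Y * X) = ⁅genD X, genD Y⁆` (check on the variables,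
`MvPolynomial.derivation_ext` or `MvPolynomial.derivation_eq_of_forall_mem_vars`). -/
theorem tangent_add {k : Type*} [Field k] {n : Type*} [Fintype n] [DecidableEq n] (S : Set (Matrix n n k))
    (X Y : Matrix n n k) (hX : IsTangent S X) (hY : IsTangent S Y) :
    IsTangent S (X + Y) ∧ (∀ c : k, IsTangent S (c • X)) ∧ IsTangent S (X * Y - Y * X) := by
  sorry

/-- **L2.** (short) Conjugation: if `p q = 1` and `S` is stable under `x ↦ p x q`, then `p X q` is tangent to `S` if
`X` is.  (For a polynomial `P` vanishing on `S` the polynomial `P'(x) = P(p x q)`, `MvPolynomial.aeval`, vanishes on `S`;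
`(genD X P')(y) = (genD (p X q) P)(p y q)`... use that `S` is stable under `x ↦ q x p` too.) -/
theorem tangent_conj {k : Type*} [Field k] {n : Type*} [Fintype n] [DecidableEq n] (S : Set (Matrix n n k))
    (p q : Matrix n n k) (hpq : p * q = 1) (hS : ∀ x ∈ S, p * x * q ∈ S) (hS' : ∀ x ∈ S, q * x * p ∈ S)
    (X : Matrix n n k) (hX : IsTangent S X) : IsTangent S (p * X * q) := by
  sorry

/-- **L3.** (short) If `1 ∈ S`, tangent vectors are in the linear span of `S`.  (Otherwise a linear functional
`∑ c_ij x_ij` vanishes on `S` and not at `X`; take the linear polynomial `P` and `x = 1`: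
`(genD X P)(1) = ∑ c_ij X_ij`.  `Submodule.exists_le_ker_of_notMem` / `Submodule.exists_dual_map_eq_bot_of_notMem`.) -/
theorem tangent_mem_span {k : Type*} [Field k] {n : Type*} [Fintype n] [DecidableEq n] (S : Set (Matrix n n k))
    (h1 : (1 : Matrix n n k) ∈ S) (X : Matrix n n k) (hX : IsTangent S X) : X ∈ Submodule.span k S := by
  sorry

/-- **C.** Let `A` be a group of matrices (a set with `1`, products and inverses as stated) acting semisimply on `k^n`,
characteristic zero, and let `L` be a subspace of matrices, closed under `X Y - Y X`, stable under conjugation with `A`,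
and contained in the linear span of `A`.  A nilpotent `ν ∈ L` with `tr (ν X) = 0` for all `X ∈ L` is zero.

Proof.  Let `𝔯 = {Y ∈ L | tr (Y X) = 0 for all X ∈ L}`: a Lie ideal of `L`, stable under conjugation by `A`, with zero
trace form.  By `LieModule.isNilpotent_derivedSeries_of_traceForm_eq_zero` (Mathlib, CartanCriterion)
`𝔡 = [𝔯, 𝔯]` acts nilpotently on `V = k^n`.  Let `K₀` be the common kernel of `𝔡`; it is stable under `A`.  Let `C` be a
stable complement; it is stable under the span of `A`, so under `𝔡`; if `C ≠ 0` then `𝔡` kills a nonzero vector of `C`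
(Engel: `LieModule.nontrivial_max_triv_of_isNilpotent`), a contradiction.  So `𝔡 = 0` and `𝔯` is abelian.  The nilpotent
elements of `𝔯` form a subspace `𝔫` (they commute), stable under conjugation by `A`; acting nilpotently (commuting
nilpotent operators; or as an abelian Lie algebra, Engel), so in the same way `𝔫 = 0`.  (In the file
`Pool/Agent/H40LT/Lie.lean` there are similar arguments for irreducible `A`.) -/
theorem nilp_eq_zero {k : Type*} [Field k] [CharZero k] {n : Type*} [Fintype n] [DecidableEq n]
    (A : Set (Matrix n n k)) (hA : SSimple A) (hinv : ∀ p ∈ A, ∃ q ∈ A, p * q = 1)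
    (L : Submodule k (Matrix n n k)) (hL : ∀ X ∈ L, ∀ Y ∈ L, X * Y - Y * X ∈ L)
    (hconj : ∀ p ∈ A, ∀ q ∈ A, p * q = 1 → ∀ X ∈ L, p * X * q ∈ L) (hspan : L ≤ Submodule.span k A)
    (ν : Matrix n n k) (hν : ν ∈ L) (hnil : IsNilpotent ν) (htr : ∀ X ∈ L, Matrix.trace (ν * X) = 0) : ν = 0 := by
  sorry

/-- **P1.** Let `A` be a set of matrices acting semisimply on `V = k^n` and `σ` an invertible semisimple matrix with
`σ A σ⁻¹ ⊆ A` and `σ⁻¹ A σ ⊆ A`.  Then `A ∪ {σ}` acts semisimply.

Proof.  Let `W` be stable under `A` and `σ` (so also under `σ⁻¹`, finite dimension).  Let `H` be the space of the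
linear maps (matrices) `p : V → V` with `p V ⊆ W` which commute with `A`.  `σ` acts on `End V` by
`c(p) = σ p σ⁻¹`, which is semisimple (the conjugation by a semisimple `σ` is semisimple: `c = L_σ R_σ⁻¹`, a product of
commuting semisimple operators in characteristic zero, Mathlib: `Module.End.IsSemisimple` and commuting products over a
perfect field, `IsSemisimple.mul_of_commute`), and `H` is `c`-stable.  `r : H → End_A(W)`, the restriction to
`W`, is `c`-equivariant and onto `{restrictions}`, in particular some `p₀ ∈ H` is the identity on `W` (the projection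
along an `A`-stable complement).  As `c` is semisimple on `H`, `H = ker (c - 1) ⊕ range (c - 1)`; write
`p₀ = a + (c - 1) b`, `a, b ∈ H`, `c a = a`.  Restricting to `W`: `1 = r(a) + (c-1) r(b)`, where `r(a)` and `1` are fixed
by `c` and so `(c-1) r(b)` is in `ker (c-1) ∩ range (c-1) = 0` on the (semisimple) space of the endomorphisms of `W`
[or: on `{p ∈ End V}`...].  So `r(a) = 1`, `a` is a projection onto `W` which commutes with `A` and with `σ`, and its
kernel is the complement. -/
theorem ssimple_insert {k : Type*} [Field k] [CharZero k] {n : Type*} [Fintype n] [DecidableEq n]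
    (A : Set (Matrix n n k)) (hA : SSimple A) (σ τ : Matrix n n k) (hστ : σ * τ = 1)
    (hσ : Module.End.IsSemisimple (Matrix.toLin' σ)) (h1 : ∀ x ∈ A, σ * x * τ ∈ A) (h2 : ∀ x ∈ A, τ * x * σ ∈ A) :
    SSimple (insert σ A) := by
  sorry

/-- **P2.** (relative Maschke) If a subgroup of finite index acts semisimply, so does the group (characteristic zero).
Proof: for a stable `U` take the projection `p` onto `U` along a `Δ`-stable complement and average
`ρ(γ) p ρ(γ)⁻¹` over `Γ ⧸ Δ`. -/
theorem ssimple_of_index {k : Type*} [Field k] [CharZero k] {n : Type*} [Fintype n] [DecidableEq n]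
    {Γ : Type*} [Group Γ] (ρ : Γ →* Matrix n n k) (Δ : Subgroup Γ) [Δ.FiniteIndex]
    (h : SSimple (ρ '' (Δ : Set Γ))) : SSimple (Set.range ρ) := by
  sorry

end Pool.Agent.H40ZL
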